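import Pool.Agent.Work.MP_e4a69c_an.SU.All

/-! The theorem in terms of subsets of the ambient module. -/

set_option autoImplicit false

namespace Pool.Agent.Work.MP_e4a69c_an.SU

open scoped Manifold ContDiff Topology

section

variable {𝔤 : Type} [NormedAddCommGroup 𝔤] [NormedSpace ℂ 𝔤]
variable {G : Type} [TopologicalSpace G] [ChartedSpace 𝔤 G] [Group G]
variable {V : Type} [NormedAddCommGroup V] [NormedSpace ℂ V]

theorem gell_iff (ρ : GMod 𝔤 G V) (F : V → ℂ) :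
    GElliptic ρ F ↔ GEll ρ {y | F y = 0} (fun y => {τ | fderiv ℂ F y τ = 0}) := by
  constructor
  · rintro ⟨W, i1, i2, i3, σ, S, d⟩
    exact ⟨W, i1, i2, i3, σ, S.s, S.hol, S.zero, fun y hy w => S.maps y w hy, S.equi, d⟩
  · rintro ⟨W, i1, i2, i3, σ, s, h1, h2, h3, h4, d⟩
    exact ⟨W, i1, i2, i3, σ, ⟨s, h1, h2, fun y w hy => h3 y hy w, h4⟩, d⟩

theorem gell_transport {V2 : Type} [NormedAddCommGroup V2] [NormedSpace ℂ V2]
    (ρ1 : GMod 𝔤 G V) (ρ2 : GMod 𝔤 G V2) (Φ : V ≃L[ℂ] V2)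
    (hΦ : ∀ g v, Φ (ρ1.act g v) = ρ2.act g (Φ v)) (Y1 : Set V) (T1 : V → Set V)
    (Y2 : Set V2) (T2 : V2 → Set V2) (hY : ∀ y, y ∈ Y1 ↔ Φ y ∈ Y2)
    (hT : ∀ y τ, y ∈ Y1 → (τ ∈ T1 y ↔ Φ τ ∈ T2 (Φ y))) (h : GEll ρ2 Y2 T2) : GEll ρ1 Y1 T1 := by
  obtain ⟨W, i1, i2, i3, σ, s, h1, h2, h3, h4, d⟩ := h
  have hΦ' : ∀ g u, Φ.symm (ρ2.act g u) = ρ1.act g (Φ.symm u) := by
    intro g u
    apply Φ.injective
    rw [hΦ, Φ.apply_symm_apply, Φ.apply_symm_apply]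
  refine ⟨W, i1, i2, i3, σ, fun x => Φ.symm (s (Φ x.1, x.2)), ?_, ?_, ?_, ?_, ?_⟩
  · exact Φ.symm.differentiable.comp (h1.comp
        ((Φ.differentiable.comp differentiable_fst).prodMk differentiable_snd))
  · intro y hy
    show Φ.symm (s (Φ y, 0)) = y
    rw [h2 _ ((hY y).1 hy), Φ.symm_apply_apply]
  · intro y hy w
    rw [hY]
    show Φ (Φ.symm (s (Φ y, w))) ∈ Y2
    rw [Φ.apply_symm_apply]
    exact h3 _ ((hY y).1 hy) w
  · intro g y w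
    show Φ.symm (s (Φ (ρ1.act g y), σ.act g w)) = ρ1.act g (Φ.symm (s (Φ y, w)))
    rw [hΦ, h4, hΦ']
  · intro y hy τ hτ
    obtain ⟨w, hw⟩ := d (Φ y) ((hY y).1 hy) (Φ τ) ((hT y τ hy).1 hτ)
    refine ⟨w, ?_⟩
    have h5 : HasFDerivAt (fun w : W => s (Φ y, w)) (fderiv ℂ (fun w : W => s (Φ y, w)) 0) 0 := by
      apply DifferentiableAt.hasFDerivAt
      exact (h1.comp ((differentiable_const (Φ y)).prodMk differentiable_id)) 0
    have h6 : HasFDerivAt (fun w : W => Φ.symm (s (Φ y, w)))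
        ((Φ.symm : V2 →L[ℂ] V).comp (fderiv ℂ (fun w : W => s (Φ y, w)) 0)) 0 :=
      HasFDerivAt.comp (0 : W) (g := Φ.symm) (f := fun w : W => s (Φ y, w))
        Φ.symm.hasFDerivAt h5
    show fderiv ℂ (fun w : W => Φ.symm (s (Φ y, w))) 0 w = τ
    rw [h6.fderiv]
    show Φ.symm (fderiv ℂ (fun w : W => s (Φ y, w)) 0 w) = τ
    rw [hw, Φ.symm_apply_apply]

end

theorem gell_fixed {𝔤 : Type} [NormedAddCommGroup 𝔤] [NormedSpace ℂ 𝔤]
    {G : Type} [TopologicalSpace G] [ChartedSpace 𝔤 G] [Group G] [LieGroup 𝓘(ℂ, 𝔤) ω G]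
    (K N : Subgroup G) [N.Normal] (hK : IsCompactFormOf 𝔤 K N)
    {V : Type} [NormedAddCommGroup V] [NormedSpace ℂ V] [FiniteDimensional ℂ V]
    (ρ : GMod 𝔤 G V) (F : V → ℂ) (hF : Differentiable ℂ F) :
    GElliptic (ρ.fixedMod N) (fun v : ρ.fixedBy N => F v) ↔
      GEll ρ ({y | F y = 0} ∩ {y | ∀ n ∈ N, ρ.act n y = y})
        (fun y => {τ | fderiv ℂ F y τ = 0} ∩ {τ | ∀ n ∈ N, ρ.act n τ = τ}) := by
  obtain ⟨P, hP1, hP2, hP3, -⟩ := aAN 𝔤 G K N hK V ρ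
  let Q : V →L[ℂ] ρ.fixedBy N := P.codRestrict (ρ.fixedBy N) hP1
  have hQ : ∀ v : ρ.fixedBy N, Q v = v := fun v => Subtype.ext (hP2 v v.2)
  have hQe : ∀ g v, Q (ρ.act g v) = (ρ.fixedMod N).act g (Q v) := fun g v =>
    Subtype.ext (hP3 g v)
  have hFd : ∀ v : ρ.fixedBy N, fderiv ℂ (fun v : ρ.fixedBy N => F v) v =
      (fderiv ℂ F (v : V)).comp (ρ.fixedBy N).subtypeL := fun v =>
    ((hF (v : V)).hasFDerivAt.comp v (ρ.fixedBy N).subtypeL.hasFDerivAt).fderiv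
  constructor
  · rintro ⟨W, i1, i2, i3, σ, S, d⟩
    refine ⟨W, i1, i2, i3, σ, fun x => ((S.s (Q x.1, x.2) : ρ.fixedBy N) : V), ?_, ?_, ?_, ?_, ?_⟩
    · exact (ρ.fixedBy N).subtypeL.differentiable.comp (S.hol.comp
        ((Q.differentiable.comp differentiable_fst).prodMk differentiable_snd))
    · rintro y ⟨hy1, hy2⟩
      have h1 : Q y = ⟨y, hy2⟩ := hQ ⟨y, hy2⟩
      show ((S.s (Q y, 0) : ρ.fixedBy N) : V) = y
      rw [h1, S.zero ⟨y, hy2⟩ hy1]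
    · rintro y ⟨hy1, hy2⟩ w
      have h1 : Q y = ⟨y, hy2⟩ := hQ ⟨y, hy2⟩
      show ((S.s (Q y, w) : ρ.fixedBy N) : V) ∈ _
      rw [h1]
      exact ⟨S.maps ⟨y, hy2⟩ w hy1, (S.s (⟨y, hy2⟩, w)).2⟩
    · intro g y w
      show ((S.s (Q (ρ.act g y), σ.act g w) : ρ.fixedBy N) : V) = _
      rw [hQe, S.equi]
      rfl
    · rintro y ⟨hy1, hy2⟩ τ ⟨hτ1, hτ2⟩
      have h1 : Q y = ⟨y, hy2⟩ := hQ ⟨y, hy2⟩
      obtain ⟨w, hw⟩ := d ⟨y, hy2⟩ hy1 ⟨τ, hτ2⟩ (by rw [hFd]; exact hτ1)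
      refine ⟨w, ?_⟩
      have h5 : HasFDerivAt (fun w : W => S.s ((⟨y, hy2⟩ : ρ.fixedBy N), w))
          (fderiv ℂ (fun w : W => S.s ((⟨y, hy2⟩ : ρ.fixedBy N), w)) 0) 0 := by
        apply DifferentiableAt.hasFDerivAt
        exact (S.hol.comp ((differentiable_const _).prodMk differentiable_id)) 0
      have h6 : HasFDerivAt (fun w : W => ((S.s ((⟨y, hy2⟩ : ρ.fixedBy N), w) : ρ.fixedBy N) : V))
          ((ρ.fixedBy N).subtypeL.comp
            (fderiv ℂ (fun w : W => S.s ((⟨y, hy2⟩ : ρ.fixedBy N), w)) 0)) 0 :=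
        (ρ.fixedBy N).subtypeL.hasFDerivAt.comp (0 : W) h5
      show fderiv ℂ (fun w : W => ((S.s (Q y, w) : ρ.fixedBy N) : V)) 0 w = τ
      rw [h1, h6.fderiv]
      show (((fderiv ℂ (fun w : W => S.s ((⟨y, hy2⟩ : ρ.fixedBy N), w)) 0) w : ρ.fixedBy N) : V)
        = τ
      rw [hw]
  · rintro ⟨W, i1, i2, i3, σ, s, h1, h2, h3, h4, d⟩
    have hs : ∀ v : ρ.fixedBy N, F v = 0 → ∀ w, ((Q (s ((v : V), w)) : ρ.fixedBy N) : V)
        = s ((v : V), w) := fun v hv w => hP2 _ (h3 v ⟨hv, v.2⟩ w).2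
    let S : Spray (ρ.fixedMod N) (fun v : ρ.fixedBy N => F v) σ :=
      { s := fun x => Q (s ((x.1 : V), x.2))
        hol := Q.differentiable.comp (h1.comp
          (((ρ.fixedBy N).subtypeL.differentiable.comp differentiable_fst).prodMk
            differentiable_snd))
        zero := by
          intro y hy
          apply Subtype.ext
          show ((Q (s ((y : V), 0)) : ρ.fixedBy N) : V) = y
          rw [hs y hy, h2 _ ⟨hy, y.2⟩]
        maps := by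
          intro y w hy
          show F ((Q (s ((y : V), w)) : ρ.fixedBy N) : V) = 0
          rw [hs y hy]
          exact (h3 _ ⟨hy, y.2⟩ w).1
        equi := by
          intro g y w
          show Q (s (ρ.act g (y : V), σ.act g w)) = (ρ.fixedMod N).act g (Q (s ((y : V), w)))
          rw [h4, hQe] }
    refine ⟨W, i1, i2, i3, σ, S, ?_⟩
    intro y hy τ hτ
    rw [hFd] at hτ
    obtain ⟨w, hw⟩ := d (y : V) ⟨hy, y.2⟩ (τ : V) ⟨hτ, τ.2⟩
    refine ⟨w, ?_⟩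
    have h5 : HasFDerivAt (fun w : W => s ((y : V), w)) (fderiv ℂ (fun w : W => s ((y : V), w)) 0)
        0 := by
      apply DifferentiableAt.hasFDerivAt
      exact (h1.comp ((differentiable_const _).prodMk differentiable_id)) 0
    have h6 : HasFDerivAt (fun w : W => Q (s ((y : V), w)))
        (Q.comp (fderiv ℂ (fun w : W => s ((y : V), w)) 0)) 0 :=
      Q.hasFDerivAt.comp (0 : W) h5
    show fderiv ℂ (fun w : W => Q (s ((y : V), w))) 0 w = τ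
    rw [h6.fderiv]
    show Q (fderiv ℂ (fun w : W => s ((y : V), w)) 0 w) = τ
    rw [hw, hQ]

section

variable {𝔤 : Type} [NormedAddCommGroup 𝔤] [NormedSpace ℂ 𝔤]
variable {G : Type} [TopologicalSpace G] [ChartedSpace 𝔤 G] [Group G]

theorem gmod_ext {V : Type} [NormedAddCommGroup V] [NormedSpace ℂ V] (a b : GMod 𝔤 G V)
    (h : ∀ g v, a.act g v = b.act g v) : a = b := by
  obtain ⟨aa, ha⟩ := a
  obtain ⟨ba, hb⟩ := b
  have h1 : aa = ba := by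
    apply MonoidHom.ext
    intro g
    apply ContinuousLinearMap.ext
    intro v
    exact h g v
  subst h1
  rfl

end

theorem trivial_on_values {𝔤 : Type} [NormedAddCommGroup 𝔤] [NormedSpace ℂ 𝔤]
    {G : Type} [TopologicalSpace G] [ChartedSpace 𝔤 G] [Group G]
    (N : Subgroup G) {B : Type} [NormedAddCommGroup B] [NormedSpace ℂ B]
    (ρL : GMod 𝔤 G ℂ) (ρB : GMod 𝔤 G B) (p : B → ℂ)
    (hs : ∀ z, p z = 0 → fderiv ℂ p z ≠ 0) (heq : ∀ g z, p (ρB.act g z) = ρL.act g (p z))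
    (hB : ∀ n ∈ N, ∀ z, ρB.act n z = z) : ∀ n ∈ N, ∀ c, ρL.act n c = c := by
  obtain ⟨z, hz⟩ := (pr_DN B p hs).nonempty
  intro n hn c
  have h1 : ρL.act n (p z) = p z := by rw [← heq, hB n hn]
  have h2 : c = (c * (p z)⁻¹) • p z := by
    rw [smul_eq_mul, mul_assoc, inv_mul_cancel₀ hz, mul_one]
  rw [h2, map_smul, h1]

theorem fixed_zero {𝔤 : Type} [NormedAddCommGroup 𝔤] [NormedSpace ℂ 𝔤]
    {G : Type} [TopologicalSpace G] [ChartedSpace 𝔤 G] [Group G] [LieGroup 𝓘(ℂ, 𝔤) ω G]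
    (K N : Subgroup G) [N.Normal] (hK : IsCompactFormOf 𝔤 K N)
    {M B : Type} [NormedAddCommGroup M] [NormedSpace ℂ M] [FiniteDimensional ℂ M]
    [NormedAddCommGroup B] [NormedSpace ℂ B] [FiniteDimensional ℂ B]
    (ρM : GMod 𝔤 G M) (ρL : GMod 𝔤 G ℂ) (ρB : GMod 𝔤 G B) (p : B → ℂ)
    (hL : ∀ n ∈ N, ∀ c, ρL.act n c = c) (hB : ∀ n ∈ N, ∀ z, ρB.act n z = z)
    (hM : ∀ x : M, (∀ n ∈ N, ρM.act n x = x) → x = 0)
    (h : GElliptic ((suspMod ρM ρL ρB).fixedMod N)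
      (fun v : (suspMod ρM ρL ρB).fixedBy N => susp p (v : M × (M →L[ℂ] ℂ) × B))) :
    GElliptic ρB p := by
  obtain ⟨Φ, hΦ1, hΦ2⟩ := aFI 𝔤 G K N hK M B ρM ρL ρB p hL hB
  have h1 : GElliptic (suspMod (ρM.fixedMod N) ρL ρB)
      (fun u : ρM.fixedBy N × (ρM.fixedBy N →L[ℂ] ℂ) × B => susp p u) := by
    refine pr_TR 𝔤 G _ _ _ _ _ _ Φ.symm 1 one_ne_zero ?_ ?_ h
    · intro g v
      apply Φ.injective
      rw [hΦ1, Φ.apply_symm_apply, Φ.apply_symm_apply]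
    · intro v
      have h2 := hΦ2 (Φ.symm v)
      rw [Φ.apply_symm_apply] at h2
      rw [one_mul]
      exact h2.symm
  have hz : ∀ x : ρM.fixedBy N, x = 0 := fun x => Subtype.ext (hM x x.2)
  have hzξ : ∀ ξ : ρM.fixedBy N →L[ℂ] ℂ, ξ = 0 := by
    intro ξ
    ext x
    rw [hz x, map_zero, map_zero]
  let f : B →L[ℂ] (ρM.fixedBy N × (ρM.fixedBy N →L[ℂ] ℂ) × B) :=
    (ContinuousLinearMap.inr ℂ (ρM.fixedBy N) ((ρM.fixedBy N →L[ℂ] ℂ) × B)).comp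
      (ContinuousLinearMap.inr ℂ (ρM.fixedBy N →L[ℂ] ℂ) B)
  let g : (ρM.fixedBy N × (ρM.fixedBy N →L[ℂ] ℂ) × B) →L[ℂ] B :=
    (ContinuousLinearMap.snd ℂ _ _).comp (ContinuousLinearMap.snd ℂ _ _)
  let Ψ : B ≃L[ℂ] (ρM.fixedBy N × (ρM.fixedBy N →L[ℂ] ℂ) × B) :=
    ContinuousLinearEquiv.equivOfInverse f g (fun z => rfl) (by
      rintro ⟨x, ξ, z⟩
      exact Prod.ext (hz x).symm (Prod.ext (hzξ ξ).symm rfl))
  refine pr_TR 𝔤 G _ _ _ _ _ _ Ψ (-1) (by norm_num) ?_ ?_ h1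
  · intro g z
    show ((0, 0, ρB.act g z) : ρM.fixedBy N × (ρM.fixedBy N →L[ℂ] ℂ) × B)
      = (suspMod (ρM.fixedMod N) ρL ρB).act g (0, 0, z)
    exact Prod.ext (hz _).symm (Prod.ext (hzξ _).symm rfl)
  · intro z
    show p z = -1 * ((0 : ρM.fixedBy N →L[ℂ] ℂ) 0 - p z)
    rw [map_zero]
    ring

theorem finrank_dual (M : Type) [NormedAddCommGroup M] [NormedSpace ℂ M]
    [FiniteDimensional ℂ M] : Module.finrank ℂ (M →L[ℂ] ℂ) = Module.finrank ℂ M := by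
  rw [← (LinearMap.toContinuousLinearMap (𝕜 := ℂ) (E := M) (F' := ℂ)).finrank_eq]
  exact Subspace.dual_finrank_eq

/-- a perfect pairing identifies `M'` with the dual of `M` -/
theorem pairing_equiv {M M' : Type} [NormedAddCommGroup M] [NormedSpace ℂ M]
    [FiniteDimensional ℂ M] [NormedAddCommGroup M'] [NormedSpace ℂ M'] [FiniteDimensional ℂ M']
    (β : M →L[ℂ] M' →L[ℂ] ℂ) (h1 : ∀ x, (∀ ξ, β x ξ = 0) → x = 0)
    (h2 : ∀ ξ, (∀ x, β x ξ = 0) → ξ = 0) :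
    ∃ e : M' ≃L[ℂ] (M →L[ℂ] ℂ), ∀ ξ x, e ξ x = β x ξ := by
  have i1 : Function.Injective β := by
    rw [injective_iff_map_eq_zero]
    intro x hx
    exact h1 x (fun ξ => by rw [hx]; rfl)
  have i2 : Function.Injective β.flip := by
    rw [injective_iff_map_eq_zero]
    intro ξ hξ
    exact h2 ξ (fun x => by
      have h3 : β.flip ξ x = 0 := by rw [hξ]; rfl
      exact h3)
  have f1 : Module.finrank ℂ M ≤ Module.finrank ℂ (M' →L[ℂ] ℂ) :=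
    LinearMap.finrank_le_finrank_of_injective (f := β.toLinearMap) i1
  have f2 : Module.finrank ℂ M' ≤ Module.finrank ℂ (M →L[ℂ] ℂ) :=
    LinearMap.finrank_le_finrank_of_injective (f := β.flip.toLinearMap) i2
  rw [finrank_dual] at f1 f2
  have hfr : Module.finrank ℂ M' = Module.finrank ℂ (M →L[ℂ] ℂ) := by
    rw [finrank_dual]
    exact le_antisymm f2 f1
  have hsur : Function.Surjective β.flip.toLinearMap :=
    (LinearMap.injective_iff_surjective_of_finrank_eq_finrank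
      (K := ℂ) (V := M') (V₂ := M →L[ℂ] ℂ) hfr).mp i2
  let e0 : M' ≃ₗ[ℂ] (M →L[ℂ] ℂ) := LinearEquiv.ofBijective β.flip.toLinearMap ⟨i2, hsur⟩
  exact ⟨{ e0 with
    continuous_toFun := LinearMap.continuous_of_finiteDimensional (E := M') e0.toLinearMap
    continuous_invFun := LinearMap.continuous_of_finiteDimensional
      (E := M →L[ℂ] ℂ) e0.symm.toLinearMap }, fun ξ x => rfl⟩


/-- the main theorem, see the hand-in -/
theorem main :
    ∀ (𝔤 : Type) [NormedAddCommGroup 𝔤] [NormedSpace ℂ 𝔤]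
      (G : Type) [TopologicalSpace G] [ChartedSpace 𝔤 G] [Group G] [LieGroup 𝓘(ℂ, 𝔤) ω G]
      (N K : Subgroup G) [N.Normal], IsCompactFormOf 𝔤 K N →
    ∀ (M M' B : Type) [NormedAddCommGroup M] [NormedSpace ℂ M] [FiniteDimensional ℂ M]
      [NormedAddCommGroup M'] [NormedSpace ℂ M'] [FiniteDimensional ℂ M']
      [NormedAddCommGroup B] [NormedSpace ℂ B] [FiniteDimensional ℂ B]
      (ρ : GMod 𝔤 G M) (ρ' : GMod 𝔤 G M') (ρL : GMod 𝔤 G ℂ) (ρB : GMod 𝔤 G B)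
      (ρV : GMod 𝔤 G (M × M' × B)) (β : M →L[ℂ] M' →L[ℂ] ℂ) (p : B → ℂ),
      (∀ g x ξ z, ρV.act g (x, ξ, z) = (ρ.act g x, ρ'.act g ξ, ρB.act g z)) →
      (∀ g x ξ, β (ρ.act g x) (ρ'.act g ξ) = ρL.act g (β x ξ)) →
      (∀ x, (∀ ξ, β x ξ = 0) → x = 0) → (∀ ξ, (∀ x, β x ξ = 0) → ξ = 0) →
      Differentiable ℂ p → (∀ g z, p (ρB.act g z) = ρL.act g (p z)) →
      (∀ z, p z = 0 → fderiv ℂ p z ≠ 0) → (∀ n ∈ N, ∀ z, ρB.act n z = z) →
    ∀ (Y : Set (M × M' × B)) (T : M × M' × B → Set (M × M' × B)),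
      Y = {y | β y.1 y.2.1 = p y.2.2} →
      T = (fun y => {τ | β τ.1 y.2.1 + β y.1 τ.2.1 = fderiv ℂ p y.2.2 τ.2.2}) →
      (∀ y ∈ Y, T y ≠ Set.univ) ∧
      (GEll ρV Y T ↔ GEll ρV (Y ∩ {y | ∀ n ∈ N, ρV.act n y = y})
        (fun y => T y ∩ {τ | ∀ n ∈ N, ρV.act n τ = τ})) ∧
      ((∀ x, (∀ n ∈ N, ρ.act n x = x) → x = 0) →
        (GEll ρV Y T ↔ GEll ρB {z | p z = 0} (fun z => {b | fderiv ℂ p z b = 0}))) ∧
      (N = ⊤ → (∃ x, x ≠ 0 ∧ ∀ g, ρ.act g x = x) → GEll ρV Y T) := by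
  intro 𝔤 _ _ G _ _ _ _ N K _ hK M M' B _ _ _ _ _ _ _ _ _ ρ ρ' ρL ρB ρV β p hV hβ n1 n2 hp heq hs
    hB Y T hY hT
  subst hY hT
  have hL := trivial_on_values N ρL ρB p hs heq hB
  obtain ⟨e, he⟩ := pairing_equiv β n1 n2
  let Φ : (M × M' × B) ≃L[ℂ] (M × (M →L[ℂ] ℂ) × B) :=
    (ContinuousLinearEquiv.refl ℂ M).prodCongr (e.prodCongr (ContinuousLinearEquiv.refl ℂ B))
  have hΦ0 : ∀ y : M × M' × B, Φ y = (y.1, e y.2.1, y.2.2) := fun y => rfl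
  have hΦ : ∀ g v, Φ (ρV.act g v) = (suspMod ρ ρL ρB).act g (Φ v) := by
    rintro g ⟨x, ξ, z⟩
    rw [hV, hΦ0]
    refine Prod.ext rfl (Prod.ext ?_ rfl)
    ext m
    show e (ρ'.act g ξ) m = ρL.act g (e ξ (ρ.act g⁻¹ m))
    rw [he, he, ← hβ, GMod.act_act_inv]
  have hYΦ : ∀ y : M × M' × B, β y.1 y.2.1 = p y.2.2 ↔ susp p (Φ y) = 0 := by
    intro y
    show _ ↔ e y.2.1 y.1 - p y.2.2 = 0
    rw [he, sub_eq_zero]
  have hTΦ : ∀ y τ : M × M' × B, β τ.1 y.2.1 + β y.1 τ.2.1 = fderiv ℂ p y.2.2 τ.2.2 ↔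
      fderiv ℂ (susp p) (Φ y) (Φ τ) = 0 := by
    intro y τ
    rw [(pr_FD M B p hp).2]
    show _ ↔ e y.2.1 τ.1 + e τ.2.1 y.1 - fderiv ℂ p y.2.2 τ.2.2 = 0
    rw [he, he, sub_eq_zero]
  have hfix : ∀ v : M × M' × B, (∀ n ∈ N, ρV.act n v = v) ↔
      ∀ n ∈ N, (suspMod ρ ρL ρB).act n (Φ v) = Φ v := by
    intro v
    constructor
    · intro h n hn
      rw [← hΦ, h n hn]
    · intro h n hn
      apply Φ.injective
      rw [hΦ, h n hn]
  have hsymm : ∀ g v, Φ.symm ((suspMod ρ ρL ρB).act g v) = ρV.act g (Φ.symm v) := by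
    intro g v
    apply Φ.injective
    rw [hΦ, Φ.apply_symm_apply, Φ.apply_symm_apply]
  have E1 : GEll ρV {y | β y.1 y.2.1 = p y.2.2}
        (fun y => {τ | β τ.1 y.2.1 + β y.1 τ.2.1 = fderiv ℂ p y.2.2 τ.2.2}) ↔
      GElliptic (suspMod ρ ρL ρB) (susp p) := by
    rw [gell_iff]
    constructor
    · intro h
      refine gell_transport _ _ Φ.symm hsymm _ _ _ _ ?_ ?_ h
      · intro y
        show susp p y = 0 ↔ β (Φ.symm y).1 (Φ.symm y).2.1 = p (Φ.symm y).2.2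
        rw [hYΦ, Φ.apply_symm_apply]
      · intro y τ _
        show _ ↔ β (Φ.symm τ).1 (Φ.symm y).2.1 + β (Φ.symm y).1 (Φ.symm τ).2.1 =
          fderiv ℂ p (Φ.symm y).2.2 (Φ.symm τ).2.2
        rw [hTΦ, Φ.apply_symm_apply, Φ.apply_symm_apply]
        rfl
    · intro h
      refine gell_transport _ _ Φ hΦ _ _ _ _ ?_ ?_ h
      · exact hYΦ
      · exact fun y τ _ => hTΦ y τ
  have E2 : GEll ρV ({y | β y.1 y.2.1 = p y.2.2} ∩ {y | ∀ n ∈ N, ρV.act n y = y})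
        (fun y => {τ | β τ.1 y.2.1 + β y.1 τ.2.1 = fderiv ℂ p y.2.2 τ.2.2} ∩
          {τ | ∀ n ∈ N, ρV.act n τ = τ}) ↔
      GElliptic ((suspMod ρ ρL ρB).fixedMod N)
          (fun v : (suspMod ρ ρL ρB).fixedBy N => susp p (v : M × (M →L[ℂ] ℂ) × B)) := by
    rw [gell_fixed K N hK (suspMod ρ ρL ρB) (susp p) (pr_FD M B p hp).1]
    constructor
    · intro h
      refine gell_transport _ _ Φ.symm hsymm _ _ _ _ ?_ ?_ h
      · intro y
        refine and_congr ?_ ?_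
        · show susp p y = 0 ↔ β (Φ.symm y).1 (Φ.symm y).2.1 = p (Φ.symm y).2.2
          rw [hYΦ, Φ.apply_symm_apply]
        · show _ ↔ ∀ n ∈ N, ρV.act n (Φ.symm y) = Φ.symm y
          rw [hfix, Φ.apply_symm_apply]
          rfl
      · intro y τ _
        refine and_congr ?_ ?_
        · show _ ↔ β (Φ.symm τ).1 (Φ.symm y).2.1 + β (Φ.symm y).1 (Φ.symm τ).2.1 =
            fderiv ℂ p (Φ.symm y).2.2 (Φ.symm τ).2.2
          rw [hTΦ, Φ.apply_symm_apply, Φ.apply_symm_apply]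
          rfl
        · show _ ↔ ∀ n ∈ N, ρV.act n (Φ.symm τ) = Φ.symm τ
          rw [hfix, Φ.apply_symm_apply]
          rfl
    · intro h
      refine gell_transport _ _ Φ hΦ _ _ _ _ ?_ ?_ h
      · exact fun y => and_congr (hYΦ y) (hfix y)
      · exact fun y τ _ => and_congr (hTΦ y τ) (hfix τ)
  have U := aUN 𝔤 G K N hK M B ρ ρL ρB p hp hs heq hL hB
  refine ⟨?_, ?_, ?_, ?_⟩
  · intro y hy hT
    have h1 := (aPS 𝔤 G M B ρ ρL ρB p hp hs heq).2.1 (Φ y)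
      (by rw [(hYΦ y).1 hy, neg_zero])
    apply h1
    refine ContinuousLinearMap.ext (fun v => ?_)
    rw [fderiv_fun_neg]
    show -(fderiv ℂ (susp p) (Φ y) v) = 0
    have h2 : Φ.symm v ∈ {τ : M × M' × B |
        β τ.1 y.2.1 + β y.1 τ.2.1 = fderiv ℂ p y.2.2 τ.2.2} := by
      have h3 : Φ.symm v ∈ (Set.univ : Set (M × M' × B)) := Set.mem_univ _
      rw [← hT] at h3
      exact h3
    have h4 := (hTΦ y (Φ.symm v)).1 h2
    rw [Φ.apply_symm_apply] at h4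
    rw [h4, neg_zero]
  · rw [E1, E2]
    exact U
  · intro hM
    rw [E1, ← gell_iff]
    constructor
    · intro h
      exact fixed_zero K N hK ρ ρL ρB p hL hB hM (U.1 h)
    · exact fun h => aAA 𝔤 G M B ρ ρL ρB p hp hs heq h
  · rintro hN ⟨x0, hx0, hx⟩
    subst hN
    have e1 : ρL = GMod.triv ℂ := gmod_ext _ _ (fun g c => hL g (Subgroup.mem_top g) c)
    have e2 : ρB = GMod.triv B := gmod_ext _ _ (fun g z => hB g (Subgroup.mem_top g) z)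
    subst e1 e2
    rw [E1]
    exact aOF 𝔤 G M B ρ p hp hs x0 hx0 hx


end Pool.Agent.Work.MP_e4a69c_an.SU
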