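import Pool.Agent.Work.MP_e4a69c_an.SU.Core

/-! Hyperbolic suspensions and equivariant sprays (MP_e4a69c_an, theorem SU, note 4761).
Holomorphic functions on finite dimensional complex normed spaces are the complex
differentiable ones. -/

set_option autoImplicit false

namespace Pool.Agent.Work.MP_e4a69c_an.SU

open scoped Manifold ContDiff Topology

section Modules

variable (𝔤 : Type) [NormedAddCommGroup 𝔤] [NormedSpace ℂ 𝔤]
variable (G : Type) [TopologicalSpace G] [ChartedSpace 𝔤 G] [Group G]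

variable {𝔤 G}

/-- the trivial module -/
def GMod.triv (V : Type) [NormedAddCommGroup V] [NormedSpace ℂ V] : GMod 𝔤 G V where
  act := 1
  hol := contMDiff_const

variable {V W : Type} [NormedAddCommGroup V] [NormedSpace ℂ V]
  [NormedAddCommGroup W] [NormedSpace ℂ W]

@[simp] theorem GMod.triv_act (g : G) (v : V) : (GMod.triv (𝔤 := 𝔤) (G := G) V).act g v = v := rfl

@[simp] theorem GMod.act_one (a : GMod 𝔤 G V) (v : V) : a.act 1 v = v := by
  rw [map_one]; rfl

theorem GMod.act_mul (a : GMod 𝔤 G V) (g h : G) (v : V) : a.act (g * h) v = a.act g (a.act h v) := by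
  rw [map_mul]; rfl

@[simp] theorem GMod.act_inv_act (a : GMod 𝔤 G V) (g : G) (v : V) : a.act g⁻¹ (a.act g v) = v := by
  rw [← GMod.act_mul, inv_mul_cancel, GMod.act_one]

@[simp] theorem GMod.act_act_inv (a : GMod 𝔤 G V) (g : G) (v : V) : a.act g (a.act g⁻¹ v) = v := by
  rw [← GMod.act_mul, mul_inv_cancel, GMod.act_one]

/-- the product (direct sum) of two modules -/
noncomputable def GMod.prod (a : GMod 𝔤 G V) (b : GMod 𝔤 G W) : GMod 𝔤 G (V × W) where
  act :=
    { toFun := fun g => (a.act g).prodMap (b.act g)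
      map_one' := by
        apply ContinuousLinearMap.ext; rintro ⟨x, y⟩
        show (a.act 1 x, b.act 1 y) = (x, y)
        simp
      map_mul' := by
        intro g h
        apply ContinuousLinearMap.ext; rintro ⟨x, y⟩
        show (a.act (g * h) x, b.act (g * h) y) = (a.act g (a.act h x), b.act g (b.act h y))
        simp }
  hol := by
    have h := (ContinuousLinearMap.prodMapL ℂ V V W W).contMDiff.comp
      (a.hol.prodMk_space b.hol)
    exact h

@[simp] theorem GMod.prod_act (a : GMod 𝔤 G V) (b : GMod 𝔤 G W) (g : G) (x : V × W) :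
    (a.prod b).act g x = (a.act g x.1, b.act g x.2) := rfl

/-- the module of linear maps: `g t = g ∘ t ∘ g⁻¹` -/
noncomputable def GMod.hom [LieGroup 𝓘(ℂ, 𝔤) ω G] (a : GMod 𝔤 G V) (b : GMod 𝔤 G W) :
    GMod 𝔤 G (V →L[ℂ] W) where
  act :=
    { toFun := fun g => (ContinuousLinearMap.compL ℂ V W W (b.act g)).comp
        ((ContinuousLinearMap.compL ℂ V V W).flip (a.act g⁻¹))
      map_one' := by
        apply ContinuousLinearMap.ext; intro t
        apply ContinuousLinearMap.ext; intro x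
        show b.act 1 (t (a.act 1⁻¹ x)) = t x
        simp
      map_mul' := by
        intro g h
        apply ContinuousLinearMap.ext; intro t
        apply ContinuousLinearMap.ext; intro x
        show b.act (g * h) (t (a.act (g * h)⁻¹ x)) = b.act g (b.act h (t (a.act h⁻¹ (a.act g⁻¹ x))))
        rw [mul_inv_rev, GMod.act_mul, GMod.act_mul] }
  hol := by
    have h1 : ContMDiff 𝓘(ℂ, 𝔤) 𝓘(ℂ, V →L[ℂ] V) ω (fun g : G => a.act g⁻¹) :=
      a.hol.comp (contMDiff_inv 𝓘(ℂ, 𝔤) ω)
    have h2 : ContMDiff 𝓘(ℂ, 𝔤) 𝓘(ℂ, (V →L[ℂ] W) →L[ℂ] (V →L[ℂ] W)) ω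
        (fun g : G => ContinuousLinearMap.compL ℂ V W W (b.act g)) :=
      ContMDiff.comp (g := fun c : W →L[ℂ] W => ContinuousLinearMap.compL ℂ V W W c)
        (ContinuousLinearMap.contDiff (𝕜 := ℂ) (E := W →L[ℂ] W)
          (F := (V →L[ℂ] W) →L[ℂ] V →L[ℂ] W) (n := ω)
          (ContinuousLinearMap.compL ℂ V W W)).contMDiff b.hol
    have h3 : ContMDiff 𝓘(ℂ, 𝔤) 𝓘(ℂ, (V →L[ℂ] W) →L[ℂ] (V →L[ℂ] W)) ω
        (fun g : G => (ContinuousLinearMap.compL ℂ V V W).flip (a.act g⁻¹)) :=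
      ContMDiff.comp (g := fun c : V →L[ℂ] V => (ContinuousLinearMap.compL ℂ V V W).flip c)
        (ContinuousLinearMap.contDiff (𝕜 := ℂ) (E := V →L[ℂ] V)
          (F := (V →L[ℂ] W) →L[ℂ] V →L[ℂ] W) (n := ω)
          (ContinuousLinearMap.compL ℂ V V W).flip).contMDiff h1
    exact h2.clm_comp h3

@[simp] theorem GMod.hom_act [LieGroup 𝓘(ℂ, 𝔤) ω G] (a : GMod 𝔤 G V) (b : GMod 𝔤 G W) (g : G)
    (t : V →L[ℂ] W) (x : V) : (a.hom b).act g t x = b.act g (t (a.act g⁻¹ x)) := rfl

/-- the subspace of fixed vectors of a module -/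
def GMod.fixed (ρ : GMod 𝔤 G V) : Submodule ℂ V where
  carrier := {v | ∀ g, ρ.act g v = v}
  add_mem' := by
    intro a b ha hb g
    rw [map_add, ha g, hb g]
  zero_mem' := by
    intro g
    exact map_zero _
  smul_mem' := by
    intro c a ha g
    rw [map_smul, ha g]

theorem GMod.mem_fixed (ρ : GMod 𝔤 G V) (v : V) : v ∈ ρ.fixed ↔ ∀ g, ρ.act g v = v := Iff.rfl

/-- `K` is a compact subgroup of the complex Lie group `G` such that a holomorphic function on `G`
which vanishes on `K` is zero. If `G` is reductive, that is `G` is the complexification of a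
compact Lie group `K`, then `K` is such a subgroup. -/
def IsCompactForm (𝔤 : Type) [NormedAddCommGroup 𝔤] [NormedSpace ℂ 𝔤] {G : Type}
    [TopologicalSpace G] [ChartedSpace 𝔤 G] [Group G] (K : Subgroup G) : Prop :=
  IsCompact (K : Set G) ∧ ∀ f : G → ℂ, ContMDiff 𝓘(ℂ, 𝔤) 𝓘(ℂ, ℂ) ω f → (∀ k ∈ K, f k = 0) →
    ∀ g, f g = 0

/-- A spray on the hypersurface `{F = 0}` of the G-module `V`, with values parameters in the
G-module `W`: an entire map `s : V × W → V` with `s(y,0) = y` and `s(y,w) ∈ {F = 0}` for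
`y ∈ {F = 0}`, and `s(g y, g w) = g s(y,w)`. -/
structure Spray (ρ : GMod 𝔤 G V) (F : V → ℂ) (σ : GMod 𝔤 G W) where
  /-- the map -/
  s : V × W → V
  hol : Differentiable ℂ s
  zero : ∀ y, F y = 0 → s (y, 0) = y
  maps : ∀ y w, F y = 0 → F (s (y, w)) = 0
  equi : ∀ g y w, s (ρ.act g y, σ.act g w) = ρ.act g (s (y, w))

/-- `Covers ρ F R`: some spray on `{F = 0}`, with parameters in a finite dimensional G-module, has
at every point `y` of `{F = 0}` a range (image of its derivative in the parameter at `0`) which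
contains the set `R y`. -/
def Covers (ρ : GMod 𝔤 G V) (F : V → ℂ) (R : V → Set V) : Prop :=
  ∃ (W : Type) (_ : NormedAddCommGroup W) (_ : NormedSpace ℂ W) (_ : FiniteDimensional ℂ W)
    (σ : GMod 𝔤 G W) (S : Spray ρ F σ),
    ∀ y, F y = 0 → ∀ τ ∈ R y, ∃ w : W, fderiv ℂ (fun w : W => S.s (y, w)) 0 w = τ

/-- The hypersurface `{F = 0}` of the G-module `V` (where `dF ≠ 0` on `{F = 0}`) is G-elliptic,
by a spray on the product of `{F = 0}` with a finite dimensional G-module, which is the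
restriction of an equivariant entire map: the derivative of the spray in the parameter, at `0`, is
onto the tangent space `ker dF(y)` at every point `y` of `{F = 0}`. -/
def GElliptic (ρ : GMod 𝔤 G V) (F : V → ℂ) : Prop :=
  ∃ (W : Type) (_ : NormedAddCommGroup W) (_ : NormedSpace ℂ W) (_ : FiniteDimensional ℂ W)
    (σ : GMod 𝔤 G W) (S : Spray ρ F σ),
    ∀ y, F y = 0 → ∀ τ : V, fderiv ℂ F y τ = 0 →
      ∃ w : W, fderiv ℂ (fun w : W => S.s (y, w)) 0 w = τ

end Modules

/-- The hypersurface `{F = 0}` is elliptic (no group), by a spray on a trivial bundle which is the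
restriction of an entire map. -/
def Elliptic {V : Type} [NormedAddCommGroup V] [NormedSpace ℂ V] (F : V → ℂ) : Prop :=
  ∃ (W : Type) (_ : NormedAddCommGroup W) (_ : NormedSpace ℂ W) (_ : FiniteDimensional ℂ W)
    (s : V × W → V), Differentiable ℂ s ∧ (∀ y, F y = 0 → s (y, 0) = y) ∧
    (∀ y w, F y = 0 → F (s (y, w)) = 0) ∧
    ∀ y, F y = 0 → ∀ τ : V, fderiv ℂ F y τ = 0 →
      ∃ w : W, fderiv ℂ (fun w : W => s (y, w)) 0 w = τ

/-- The set `S` has the Oka property (convex approximation property): a holomorphic map of a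
neighbourhood of a compact convex set `C` of `ℂⁿ` with values in `S` is a uniform limit on `C` of
entire maps with values in `S`. -/
def IsOkaSet {V : Type} [NormedAddCommGroup V] [NormedSpace ℂ V] (S : Set V) : Prop :=
  ∀ (n : ℕ) (C U : Set (Fin n → ℂ)), IsCompact C → Convex ℝ C → IsOpen U → C ⊆ U →
    ∀ f : (Fin n → ℂ) → V, DifferentiableOn ℂ f U → (∀ x ∈ U, f x ∈ S) →
      ∀ ε > 0, ∃ h : (Fin n → ℂ) → V, Differentiable ℂ h ∧ (∀ x, h x ∈ S) ∧
        ∀ x ∈ C, ‖h x - f x‖ < ε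

section Suspension

variable {M B : Type} [NormedAddCommGroup M] [NormedSpace ℂ M]
  [NormedAddCommGroup B] [NormedSpace ℂ B]

/-- The function `ξ(x) - p(z)` on `M × M^* × B`; its zero set is the suspension of `{p = 0}`. -/
noncomputable def susp (p : B → ℂ) : M × (M →L[ℂ] ℂ) × B → ℂ := fun y => y.2.1 y.1 - p y.2.2

variable {𝔤 : Type} [NormedAddCommGroup 𝔤] [NormedSpace ℂ 𝔤]
variable {G : Type} [TopologicalSpace G] [ChartedSpace 𝔤 G] [Group G] [LieGroup 𝓘(ℂ, 𝔤) ω G]

/-- The G-module `M × Hom(M, L) × B`, for G-modules `M`, `B` and a one dimensional G-module `L`. -/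
noncomputable def suspMod (ρM : GMod 𝔤 G M) (ρL : GMod 𝔤 G ℂ) (ρB : GMod 𝔤 G B) :
    GMod 𝔤 G (M × (M →L[ℂ] ℂ) × B) := ρM.prod ((ρM.hom ρL).prod ρB)

@[simp] theorem suspMod_act (ρM : GMod 𝔤 G M) (ρL : GMod 𝔤 G ℂ) (ρB : GMod 𝔤 G B) (g : G)
    (y : M × (M →L[ℂ] ℂ) × B) : (suspMod ρM ρL ρB).act g y =
      (ρM.act g y.1, (ρM.hom ρL).act g y.2.1, ρB.act g y.2.2) := rfl

/-- The Hadamard integral `∫₀¹ dp(z + τ b) dτ`, an element of `B^*`. -/
noncomputable def qq (p : B → ℂ) (z b : B) : B →L[ℂ] ℂ :=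
  ∫ τ in (0 : ℝ)..1, fderiv ℂ p (z + (τ : ℂ) • b)

end Suspension

end Pool.Agent.Work.MP_e4a69c_an.SU
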