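import Pool.Agent.Work.MP_e4a69c_an.SU.Stmts

set_option autoImplicit false

namespace Pool.Agent.Work.MP_e4a69c_an.SU

open scoped Manifold ContDiff Topology

theorem pr_AA (hBA : StBA) (hSZ : StSZ) (hSP : StSP) (hSM : StSM) (hCC : StCC) (hFD : StFD) :
    StAA := by
  intro 𝔤 _ _ G _ _ _ _ M B _ _ _ _ _ _ ρM ρL ρB p hp hs heq hE
  have h0 := hBA 𝔤 G M B ρM ρL ρB p hp hs heq
  have h1 := hSZ 𝔤 G M B ρM ρL ρB p hp hs heq hE
  have h2 := hSP 𝔤 G M B ρM ρL ρB p hp heq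
  have h3 := hSM 𝔤 G M B ρM ρL ρB p hp heq
  have h4 := hCC 𝔤 G _ _ _ _ _ (hCC 𝔤 G _ _ _ _ _ (hCC 𝔤 G _ _ _ _ _ h0 h1) h2) h3
  obtain ⟨W, i1, j1, k1, σ, S, d⟩ := h4
  refine ⟨W, i1, j1, k1, σ, S, ?_⟩
  rintro ⟨x, ξ, z⟩ hy τ hτ
  apply d (x, ξ, z) hy τ
  have hF : ξ x - p z = 0 := hy
  by_cases hne : x ≠ 0 ∨ ξ ≠ 0
  · exact Submodule.subset_span (Or.inl (Submodule.subset_span (Or.inl
      (Submodule.subset_span (Or.inl ⟨hne, hτ⟩)))))
  · push Not at hne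
    obtain ⟨hx, hξ⟩ := hne
    subst hx hξ
    have hpz : p z = 0 := by
      rw [map_zero] at hF
      linear_combination -hF
    obtain ⟨dx, dξ, dz⟩ := τ
    rw [(hFD M B p hp).2] at hτ
    have hdz : fderiv ℂ p z dz = 0 := by
      have h6 : (0 : M →L[ℂ] ℂ) dx + dξ 0 - fderiv ℂ p z dz = 0 := hτ
      rw [zero_apply, map_zero] at h6
      linear_combination -h6
    obtain ⟨b0, hb0⟩ : ∃ b0, fderiv ℂ p z b0 ≠ 0 := by
      by_contra hcon
      push Not at hcon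
      exact hs z hpz (ContinuousLinearMap.ext hcon)
    obtain ⟨b, hb⟩ : ∃ b, fderiv ℂ p z b = 1 :=
      ⟨(fderiv ℂ p z b0)⁻¹ • b0, by rw [map_smul, smul_eq_mul, inv_mul_cancel₀ hb0]⟩
    have hsum : ((dx, dξ, dz) : M × (M →L[ℂ] ℂ) × B) = (0, 0, dz) + (0, dξ, 0) + (dx, 0, 0) := by
      simp
    rw [hsum]
    refine Submodule.add_mem _ (Submodule.add_mem _ ?_ ?_) ?_
    · exact Submodule.subset_span (Or.inl (Submodule.subset_span (Or.inl
        (Submodule.subset_span (Or.inr ⟨dz, rfl, rfl, hdz, rfl⟩)))))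
    · refine Submodule.subset_span (Or.inl (Submodule.subset_span (Or.inr
        ⟨dξ.smulRight b, ?_⟩)))
      refine Prod.ext rfl (Prod.ext ?_ ?_)
      · ext m
        simp [hb]
      · simp
    · refine Submodule.subset_span (Or.inr
        ⟨(ContinuousLinearMap.apply ℂ ℂ dx).smulRight b, dx, ?_, ?_⟩)
      · intro ζ
        simp [hb]
      · refine Prod.ext rfl (Prod.ext rfl ?_)
        simp

end Pool.Agent.Work.MP_e4a69c_an.SU
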