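import Pool.Agent.Work.MP_e4a69c_an.SU.Stmts

/-! Item AV: averaging over a compact subgroup. -/

set_option autoImplicit false

namespace Pool.Agent.Work.MP_e4a69c_an.SU

open scoped Manifold ContDiff Topology
open MeasureTheory

theorem pr_AV : StAV := by
  intro 𝔤 _ _ G _ _ _ _ K hK W _ _ _ σ
  haveI : IsTopologicalGroup G := topologicalGroup_of_lieGroup 𝓘(ℂ, 𝔤) ω
  haveI : CompactSpace K := isCompact_iff_compactSpace.mp hK
  letI : MeasurableSpace K := borel K
  haveI : BorelSpace K := ⟨rfl⟩
  haveI : Nonempty K := ⟨1⟩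
  obtain ⟨μ, hμi, hμp⟩ : ∃ μ : Measure K, μ.IsMulLeftInvariant ∧ IsProbabilityMeasure μ := by
    refine ⟨Measure.haarMeasure ⊤, inferInstance, ⟨?_⟩⟩
    exact Measure.haarMeasure_self (K₀ := (⊤ : TopologicalSpace.PositiveCompacts K))
  have hc : Continuous fun k : K => σ.act (k : G) :=
    σ.hol.continuous.comp continuous_subtype_val
  have hint : Integrable (fun k : K => σ.act (k : G)) μ :=
    hc.integrable_of_hasCompactSupport (HasCompactSupport.of_compactSpace _)
  refine ⟨∫ k : K, σ.act (k : G) ∂μ, ?_, ?_⟩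
  · intro k hk w
    have h1 := (ContinuousLinearMap.compL ℂ W W W (σ.act k)).integral_comp_comm hint
    have h2 : (∫ x : K, (ContinuousLinearMap.compL ℂ W W W (σ.act k)) (σ.act (x : G)) ∂μ) =
        ∫ x : K, σ.act (x : G) ∂μ := by
      have h3 := integral_mul_left_eq_self (μ := μ) (fun x : K => σ.act (x : G)) (⟨k, hk⟩ : K)
      rw [← h3]
      refine integral_congr_ae (Filter.Eventually.of_forall fun x => ?_)
      show (σ.act k).comp (σ.act (x : G)) = σ.act (k * (x : G))
      rw [map_mul]
      rfl
    rw [h2] at h1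
    have h4 := congrArg (fun A : W →L[ℂ] W => A w) h1
    exact h4.symm
  · intro V _ _ _ T w v hT
    have h1 := (T.comp (ContinuousLinearMap.apply ℂ W w)).integral_comp_comm hint
    have h2 : (∫ x : K, (T.comp (ContinuousLinearMap.apply ℂ W w)) (σ.act (x : G)) ∂μ) = v := by
      have h3 : (fun x : K => (T.comp (ContinuousLinearMap.apply ℂ W w)) (σ.act (x : G))) =
          fun _ => v := by
        funext x
        exact hT x x.2
      rw [h3, integral_const]
      simp
    rw [h2] at h1
    exact h1.symm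

end Pool.Agent.Work.MP_e4a69c_an.SU
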