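import Pool.Agent.Work.MP_e4a69c_an.SU.Stmts

set_option autoImplicit false

namespace Pool.Agent.Work.MP_e4a69c_an.SU

open scoped Manifold ContDiff Topology

theorem pr_BA (hSG : StSG) (hSP : StSP) (hSM : StSM) (hCC : StCC) (hLA : StLA) (hFD : StFD) :
    StBA := by
  intro 𝔤 _ _ G _ _ _ _ M B _ _ _ _ _ _ ρM ρL ρB p hp hs heq
  have h1 := hSG 𝔤 G M B ρM ρL ρB p hp
  have h2 := hSP 𝔤 G M B ρM ρL ρB p hp heq
  have h3 := hSM 𝔤 G M B ρM ρL ρB p hp heq
  have h4 := hCC 𝔤 G _ _ _ _ _ (hCC 𝔤 G _ _ _ _ _ h1 h2) h3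
  obtain ⟨W, i1, j1, k1, σ, S, d⟩ := h4
  refine ⟨W, i1, j1, k1, σ, S, ?_⟩
  rintro ⟨x, ξ, z⟩ hy τ ⟨hne, hτ⟩
  apply d (x, ξ, z) hy τ
  have hF : ξ x - p z = 0 := hy
  have hα : x = 0 ∨ ξ = 0 → fderiv ℂ p z ≠ 0 := by
    intro h
    apply hs z
    rcases h with h | h
    · rw [h, map_zero] at hF
      linear_combination -hF
    · rw [h, zero_apply] at hF
      linear_combination -hF
  rw [(hFD M B p hp).2] at hτ
  have h5 := hLA M B (fderiv ℂ p z) x ξ hne hα τ hτ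
  refine Submodule.span_le.mpr ?_ h5
  rintro u ((hu | hu) | hu)
  · exact Submodule.subset_span (Or.inl (Submodule.subset_span (Or.inl hu)))
  · exact Submodule.subset_span (Or.inl (Submodule.subset_span (Or.inr hu)))
  · exact Submodule.subset_span (Or.inr hu)

end Pool.Agent.Work.MP_e4a69c_an.SU
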