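import Pool.Agent.Work.MP_e4a69c_an.SU.Stmts

set_option autoImplicit false

namespace Pool.Agent.Work.MP_e4a69c_an.SU

open scoped Manifold ContDiff Topology

theorem IBD.finrank_dual (M : Type) [NormedAddCommGroup M] [NormedSpace ℂ M]
    [FiniteDimensional ℂ M] : Module.finrank ℂ (M →L[ℂ] ℂ) = Module.finrank ℂ M := by
  rw [← (LinearMap.toContinuousLinearMap (𝕜 := ℂ) (E := M) (F' := ℂ)).finrank_eq]
  exact Subspace.dual_finrank_eq

theorem pr_BD : StBD := by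
  intro M _ _ _
  let i : M →ₗ[ℂ] ((M →L[ℂ] ℂ) →L[ℂ] ℂ) :=
    { toFun := fun x => ContinuousLinearMap.apply ℂ ℂ x
      map_add' := fun x y => by ext ξ; simp
      map_smul' := fun c x => by ext ξ; simp }
  have hinj : Function.Injective i := by
    intro x y hxy
    by_contra hne
    obtain ⟨l, hl⟩ := SeparatingDual.exists_ne_zero (R := ℂ) (sub_ne_zero.mpr hne)
    have h1 : i x l = i y l := by rw [hxy]
    have h2 : l x = l y := h1
    exact hl (by rw [map_sub, h2, sub_self])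
  have hfr : Module.finrank ℂ M = Module.finrank ℂ ((M →L[ℂ] ℂ) →L[ℂ] ℂ) := by
    rw [IBD.finrank_dual (M →L[ℂ] ℂ), IBD.finrank_dual M]
  have hsur : Function.Surjective i := (LinearMap.injective_iff_surjective_of_finrank_eq_finrank
    (K := ℂ) (V := M) (V₂ := (M →L[ℂ] ℂ) →L[ℂ] ℂ) hfr).mp hinj
  let e : M ≃ₗ[ℂ] ((M →L[ℂ] ℂ) →L[ℂ] ℂ) := LinearEquiv.ofBijective i ⟨hinj, hsur⟩
  refine ⟨⟨e.symm.toLinearMap, LinearMap.continuous_of_finiteDimensional
    (E := (M →L[ℂ] ℂ) →L[ℂ] ℂ) e.symm.toLinearMap⟩, ?_⟩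
  intro Θ ξ
  have h3 : i (e.symm Θ) = Θ := e.apply_symm_apply Θ
  have h4 : i (e.symm Θ) ξ = Θ ξ := by rw [h3]
  exact h4

end Pool.Agent.Work.MP_e4a69c_an.SU
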