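import Pool.Agent.Work.MP_e4a69c_an.SU.Stmts

set_option autoImplicit false

namespace Pool.Agent.Work.MP_e4a69c_an.SU

open scoped Manifold ContDiff Topology

theorem pr_CC : StCC := by
  intro 𝔤 _ _ G _ _ _ V _ _ ρ F R1 R2 h1 h2
  obtain ⟨W1, i1, j1, k1, σ1, S1, d1⟩ := h1
  obtain ⟨W2, i2, j2, k2, σ2, S2, d2⟩ := h2
  let S : Spray ρ F (σ1.prod σ2) :=
    { s := fun x => S2.s (S1.s (x.1, x.2.1), x.2.2)
      hol := S2.hol.comp ((S1.hol.comp (differentiable_fst.prodMk
        (differentiable_fst.comp differentiable_snd))).prodMk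
        (differentiable_snd.comp differentiable_snd))
      zero := by
        intro y hy
        show S2.s (S1.s (y, 0), 0) = y
        rw [S1.zero y hy, S2.zero y hy]
      maps := fun y w hy => S2.maps _ _ (S1.maps _ _ hy)
      equi := by
        intro g y w
        show S2.s (S1.s (ρ.act g y, σ1.act g w.1), σ2.act g w.2) = _
        rw [S1.equi, S2.equi] }
  refine ⟨W1 × W2, inferInstance, inferInstance, inferInstance, σ1.prod σ2, S, ?_⟩
  intro y hy τ hτ
  have hd : HasFDerivAt (fun w : W1 × W2 => S.s (y, w))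
      (fderiv ℂ (fun w : W1 × W2 => S.s (y, w)) 0) 0 := by
    apply DifferentiableAt.hasFDerivAt
    exact (S.hol.comp ((differentiable_const y).prodMk differentiable_id)) 0
  have hspan : Submodule.span ℂ (R1 y ∪ R2 y) ≤
      LinearMap.range (fderiv ℂ (fun w : W1 × W2 => S.s (y, w)) 0).toLinearMap := by
    rw [Submodule.span_le]
    rintro τ (h | h)
    · obtain ⟨w, hw⟩ := d1 y hy τ h
      refine ⟨(w, 0), ?_⟩
      have hc : HasFDerivAt (fun w1 : W1 => S.s (y, ContinuousLinearMap.inl ℂ W1 W2 w1))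
          ((fderiv ℂ (fun w : W1 × W2 => S.s (y, w)) 0).comp (ContinuousLinearMap.inl ℂ W1 W2))
          0 := by
        apply HasFDerivAt.comp (0 : W1) (g := fun w : W1 × W2 => S.s (y, w))
          (f := fun w1 : W1 => ContinuousLinearMap.inl ℂ W1 W2 w1)
        · rw [map_zero]; exact hd
        · exact (ContinuousLinearMap.inl ℂ W1 W2).hasFDerivAt
      have he : (fun w1 : W1 => S.s (y, ContinuousLinearMap.inl ℂ W1 W2 w1))
          = fun w1 : W1 => S1.s (y, w1) := by
        funext w1
        show S2.s (S1.s (y, w1), 0) = S1.s (y, w1)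
        exact S2.zero _ (S1.maps _ _ hy)
      rw [he] at hc
      have h3 := hc.fderiv
      rw [← hw, h3]
      rfl
    · obtain ⟨w, hw⟩ := d2 y hy τ h
      refine ⟨(0, w), ?_⟩
      have hc : HasFDerivAt (fun w1 : W2 => S.s (y, ContinuousLinearMap.inr ℂ W1 W2 w1))
          ((fderiv ℂ (fun w : W1 × W2 => S.s (y, w)) 0).comp (ContinuousLinearMap.inr ℂ W1 W2))
          0 := by
        apply HasFDerivAt.comp (0 : W2) (g := fun w : W1 × W2 => S.s (y, w))
          (f := fun w1 : W2 => ContinuousLinearMap.inr ℂ W1 W2 w1)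
        · rw [map_zero]; exact hd
        · exact (ContinuousLinearMap.inr ℂ W1 W2).hasFDerivAt
      have he : (fun w1 : W2 => S.s (y, ContinuousLinearMap.inr ℂ W1 W2 w1))
          = fun w1 : W2 => S2.s (y, w1) := by
        funext w1
        show S2.s (S1.s (y, 0), w1) = S2.s (y, w1)
        rw [S1.zero y hy]
      rw [he] at hc
      have h3 := hc.fderiv
      rw [← hw, h3]
      rfl
  obtain ⟨w, hw⟩ := hspan hτ
  exact ⟨w, hw⟩

end Pool.Agent.Work.MP_e4a69c_an.SU
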