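import Pool.Agent.Work.MP_e4a69c_an.SU.Stmts

set_option autoImplicit false

namespace Pool.Agent.Work.MP_e4a69c_an.SU

open scoped Manifold ContDiff Topology

theorem pr_CJ : StCJ := by
  intro 𝔤 _ _ G _ _ _ V _ _ ρ F φ ψ hφ hψ hψφ hφψ hF heq R hR
  obtain ⟨W, i1, j1, k1, σ, S, d⟩ := hR
  have hFψ : ∀ u, F (ψ u) = F u := by
    intro u
    rw [← hF (ψ u), hφψ]
  have heqψ : ∀ g u, ψ (ρ.act g u) = ρ.act g (ψ u) := by
    intro g u
    have h1 : ρ.act g u = φ (ρ.act g (ψ u)) := by rw [heq, hφψ]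
    rw [h1, hψφ]
  let S' : Spray ρ F σ :=
    { s := fun x => ψ (S.s (φ x.1, x.2))
      hol := hψ.comp (S.hol.comp ((hφ.comp differentiable_fst).prodMk differentiable_snd))
      zero := by
        intro y hy
        show ψ (S.s (φ y, 0)) = y
        rw [S.zero (φ y) (by rw [hF]; exact hy), hψφ]
      maps := by
        intro y w hy
        show F (ψ (S.s (φ y, w))) = 0
        rw [hFψ]
        exact S.maps _ _ (by rw [hF]; exact hy)
      equi := by
        intro g y w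
        show ψ (S.s (φ (ρ.act g y), σ.act g w)) = ρ.act g (ψ (S.s (φ y, w)))
        rw [heq, S.equi, heqψ] }
  refine ⟨W, i1, j1, k1, σ, S', ?_⟩
  intro y hy τ hτ
  have hy' : F (φ y) = 0 := by rw [hF]; exact hy
  obtain ⟨w, hw⟩ := d (φ y) hy' _ hτ
  refine ⟨w, ?_⟩
  have hd : HasFDerivAt (fun w : W => S.s (φ y, w)) (fderiv ℂ (fun w : W => S.s (φ y, w)) 0) 0 := by
    apply DifferentiableAt.hasFDerivAt
    exact (S.hol.comp ((differentiable_const (φ y)).prodMk differentiable_id)) 0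
  have hd2 : HasFDerivAt ψ (fderiv ℂ ψ (φ y)) (S.s (φ y, 0)) := by
    rw [S.zero (φ y) hy']
    exact (hψ (φ y)).hasFDerivAt
  have hc : HasFDerivAt (fun w : W => S'.s (y, w))
      ((fderiv ℂ ψ (φ y)).comp (fderiv ℂ (fun w : W => S.s (φ y, w)) 0)) 0 :=
    HasFDerivAt.comp (0 : W) (g := ψ) (f := fun w : W => S.s (φ y, w)) hd2 hd
  rw [hc.fderiv]
  show fderiv ℂ ψ (φ y) (fderiv ℂ (fun w : W => S.s (φ y, w)) 0 w) = τ
  rw [hw]
  have h3 : HasFDerivAt (fun y => ψ (φ y)) ((fderiv ℂ ψ (φ y)).comp (fderiv ℂ φ y)) y :=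
    HasFDerivAt.comp y (hψ (φ y)).hasFDerivAt (hφ y).hasFDerivAt
  have h4 : (fun y => ψ (φ y)) = id := by funext u; exact hψφ u
  rw [h4] at h3
  have h5 := h3.unique (hasFDerivAt_id y)
  have h6 : (fderiv ℂ ψ (φ y)).comp (fderiv ℂ φ y) τ = ContinuousLinearMap.id ℂ V τ := by rw [h5]
  exact h6

end Pool.Agent.Work.MP_e4a69c_an.SU
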