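import Pool.Agent.Work.MP_e4a69c_an.SU.Stmts2

set_option autoImplicit false

namespace Pool.Agent.Work.MP_e4a69c_an.SU

open scoped Manifold ContDiff Topology

theorem pr_DE (hAN : StAN) : StDE := by
  intro 𝔤 _ _ G _ _ _ _ K N _ hK M B _ _ _ _ _ _ ρM ρL ρB p
  obtain ⟨P, hP1, hP2, hP3, hP4⟩ := hAN 𝔤 G K N hK M ρM
  have hPP : ∀ x, P (P x) = P x := fun x => hP2 _ (hP1 x)
  let M1 : Submodule ℂ M := LinearMap.ker P.toLinearMap
  have hM1 : ∀ x, x ∈ M1 ↔ P x = 0 := fun x => Iff.rfl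
  have hst : ∀ g, ∀ v ∈ M1, ρM.act g v ∈ M1 := by
    intro g v hv
    rw [hM1] at hv ⊢
    rw [hP3, hv, map_zero]
  let P0 : M →L[ℂ] ρM.fixedBy N := P.codRestrict (ρM.fixedBy N) hP1
  have hq : ∀ x, (ContinuousLinearMap.id ℂ M - P) x ∈ M1 := by
    intro x
    rw [hM1]
    show P (x - P x) = 0
    rw [map_sub, hPP, sub_self]
  let Q1 : M →L[ℂ] M1 := (ContinuousLinearMap.id ℂ M - P).codRestrict M1 hq
  have hP00 : ∀ x : ρM.fixedBy N, P0 x = x := fun x => Subtype.ext (hP2 x x.2)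
  have hP01 : ∀ x : M1, P0 x = 0 := fun x => Subtype.ext x.2
  have hQ11 : ∀ x : M1, Q1 x = x := by
    intro x
    apply Subtype.ext
    show (x : M) - P x = x
    rw [(hM1 _).1 x.2, sub_zero]
  have hQ10 : ∀ x : ρM.fixedBy N, Q1 x = 0 := by
    intro x
    apply Subtype.ext
    show (x : M) - P x = 0
    rw [hP2 x x.2, sub_self]
  have hdec : ∀ x : M, ((Q1 x : M1) : M) + ((P0 x : ρM.fixedBy N) : M) = x := by
    intro x
    show (x - P x) + P x = x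
    abel
  let r1 : (M →L[ℂ] ℂ) →L[ℂ] (M1 →L[ℂ] ℂ) :=
    (ContinuousLinearMap.compL ℂ M1 M ℂ).flip M1.subtypeL
  let r0 : (M →L[ℂ] ℂ) →L[ℂ] (ρM.fixedBy N →L[ℂ] ℂ) :=
    (ContinuousLinearMap.compL ℂ (ρM.fixedBy N) M ℂ).flip (ρM.fixedBy N).subtypeL
  let e1 : (M1 →L[ℂ] ℂ) →L[ℂ] (M →L[ℂ] ℂ) := (ContinuousLinearMap.compL ℂ M M1 ℂ).flip Q1
  let e0 : (ρM.fixedBy N →L[ℂ] ℂ) →L[ℂ] (M →L[ℂ] ℂ) :=
    (ContinuousLinearMap.compL ℂ M (ρM.fixedBy N) ℂ).flip P0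
  let f : M × (M →L[ℂ] ℂ) × B →L[ℂ]
      M1 × (M1 →L[ℂ] ℂ) × (ρM.fixedBy N × (ρM.fixedBy N →L[ℂ] ℂ) × B) :=
    (Q1.comp (ContinuousLinearMap.fst ℂ _ _)).prod
      ((r1.comp ((ContinuousLinearMap.fst ℂ _ _).comp (ContinuousLinearMap.snd ℂ _ _))).prod
        ((P0.comp (ContinuousLinearMap.fst ℂ _ _)).prod
          ((r0.comp ((ContinuousLinearMap.fst ℂ _ _).comp (ContinuousLinearMap.snd ℂ _ _))).prod
            ((ContinuousLinearMap.snd ℂ _ _).comp (ContinuousLinearMap.snd ℂ _ _)))))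
  let g : M1 × (M1 →L[ℂ] ℂ) × (ρM.fixedBy N × (ρM.fixedBy N →L[ℂ] ℂ) × B) →L[ℂ]
      M × (M →L[ℂ] ℂ) × B :=
    ((M1.subtypeL.comp (ContinuousLinearMap.fst ℂ _ _)) +
      ((ρM.fixedBy N).subtypeL.comp ((ContinuousLinearMap.fst ℂ _ _).comp
        ((ContinuousLinearMap.snd ℂ _ _).comp (ContinuousLinearMap.snd ℂ _ _))))).prod
    (((e1.comp ((ContinuousLinearMap.fst ℂ _ _).comp (ContinuousLinearMap.snd ℂ _ _))) +
      (e0.comp ((ContinuousLinearMap.fst ℂ _ _).comp ((ContinuousLinearMap.snd ℂ _ _).comp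
        ((ContinuousLinearMap.snd ℂ _ _).comp (ContinuousLinearMap.snd ℂ _ _)))))).prod
      ((ContinuousLinearMap.snd ℂ _ _).comp ((ContinuousLinearMap.snd ℂ _ _).comp
        ((ContinuousLinearMap.snd ℂ _ _).comp (ContinuousLinearMap.snd ℂ _ _)))))
  have hf : ∀ v, f v = (Q1 v.1, v.2.1.comp M1.subtypeL,
      (P0 v.1, v.2.1.comp (ρM.fixedBy N).subtypeL, v.2.2)) := fun v => rfl
  have hg : ∀ u, g u = ((u.1 : M) + (u.2.2.1 : M), u.2.1.comp Q1 + u.2.2.2.1.comp P0,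
      u.2.2.2.2) := fun u => rfl
  have h1 : ∀ v, g (f v) = v := by
    rintro ⟨x, ξ, z⟩
    rw [hf, hg]
    refine Prod.ext (hdec x) (Prod.ext ?_ rfl)
    ext m
    show ξ ((Q1 m : M1) : M) + ξ ((P0 m : ρM.fixedBy N) : M) = ξ m
    rw [← map_add, hdec]
  have h2 : ∀ u, f (g u) = u := by
    rintro ⟨x1, ξ1, x0, ξ0, z⟩
    rw [hg, hf]
    refine Prod.ext ?_ (Prod.ext ?_ (Prod.ext ?_ (Prod.ext ?_ rfl)))
    · show Q1 ((x1 : M) + (x0 : M)) = x1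
      rw [map_add, hQ11, hQ10, add_zero]
    · ext m
      show ξ1 (Q1 (m : M)) + ξ0 (P0 (m : M)) = ξ1 m
      rw [hQ11, hP01, map_zero, add_zero]
    · show P0 ((x1 : M) + (x0 : M)) = x0
      rw [map_add, hP00, hP01, zero_add]
    · ext m
      show ξ1 (Q1 (m : M)) + ξ0 (P0 (m : M)) = ξ0 m
      rw [hQ10, hP00, map_zero, zero_add]
  refine ⟨M1, ρM.sub M1 hst, ContinuousLinearEquiv.equivOfInverse f g h1 h2, ?_, ?_⟩
  · rintro g ⟨x, ξ, z⟩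
    show f ((suspMod ρM ρL ρB).act g (x, ξ, z)) = _
    refine Prod.ext ?_ (Prod.ext ?_ (Prod.ext ?_ (Prod.ext ?_ rfl)))
    · apply Subtype.ext
      show ρM.act g x - P (ρM.act g x) = ρM.act g (x - P x)
      rw [hP3, map_sub]
    · ext m
      rfl
    · apply Subtype.ext
      show P (ρM.act g x) = ρM.act g (P x)
      exact hP3 g x
    · ext m
      rfl
  · rintro ⟨x, ξ, z⟩
    show ξ x - p z = ξ ((Q1 x : M1) : M) - (-(ξ ((P0 x : ρM.fixedBy N) : M) - p z))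
    have h3 : ξ ((Q1 x : M1) : M) + ξ ((P0 x : ρM.fixedBy N) : M) = ξ x := by
      rw [← map_add, hdec]
    rw [← h3]
    ring

end Pool.Agent.Work.MP_e4a69c_an.SU
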