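import Pool.Agent.Work.MP_e4a69c_an.SU.Stmts

/-! Block SU, item DN (helper58): density of the set where `p` does not vanish. -/

set_option autoImplicit false

namespace Pool.Agent.Work.MP_e4a69c_an.SU

open scoped Manifold ContDiff Topology

theorem pr_DN : StDN := by
  intro E _ _ p h
  rw [dense_iff_inter_open]
  rintro U hU ⟨z0, hz0⟩
  by_contra hne
  have h0 : ∀ z ∈ U, p z = 0 := by
    intro z hz
    by_contra hz'
    exact hne ⟨z, hz, hz'⟩
  have h1 : p =ᶠ[𝓝 z0] fun _ => (0 : ℂ) := by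
    filter_upwards [hU.mem_nhds hz0] with z hz
    exact h0 z hz
  refine h z0 (h0 z0 hz0) ?_
  rw [h1.fderiv_eq, fderiv_fun_const]
  rfl

end Pool.Agent.Work.MP_e4a69c_an.SU
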