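import Pool.Agent.Work.MP_e4a69c_an.SU.Stmts

set_option autoImplicit false

namespace Pool.Agent.Work.MP_e4a69c_an.SU

open scoped Manifold ContDiff Topology

theorem pr_EP (hFX : StFX) (hFD : StFD) : StEP := by
  intro 𝔤 _ _ G _ _ _ _ K hK M B _ _ _ _ _ _ ρM p hp hM hE
  obtain ⟨W, i1, i2, i3, s, hs, h0, hm, hd⟩ := hE
  have hfix : ∀ z : B, ((0, 0, z) : M × (M →L[ℂ] ℂ) × B) ∈
      (suspMod ρM (GMod.triv ℂ) (GMod.triv B)).fixed :=
    fun z => (hFX 𝔤 G K hK M B ρM hM (0, 0, z)).2 ⟨rfl, rfl⟩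
  let ι : B →L[ℂ] (suspMod ρM (GMod.triv ℂ) (GMod.triv B)).fixed :=
    ((ContinuousLinearMap.inr ℂ M ((M →L[ℂ] ℂ) × B)).comp
      (ContinuousLinearMap.inr ℂ (M →L[ℂ] ℂ) B)).codRestrict _ hfix
  let π : (suspMod ρM (GMod.triv ℂ) (GMod.triv B)).fixed →L[ℂ] B :=
    ((ContinuousLinearMap.snd ℂ (M →L[ℂ] ℂ) B).comp
      (ContinuousLinearMap.snd ℂ M ((M →L[ℂ] ℂ) × B))).comp
      (Submodule.subtypeL _)
  have hι : ∀ z, ((ι z : (suspMod ρM (GMod.triv ℂ) (GMod.triv B)).fixed) :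
      M × (M →L[ℂ] ℂ) × B) = (0, 0, z) := fun z => rfl
  have hFι : ∀ z, susp p ((ι z : (suspMod ρM (GMod.triv ℂ) (GMod.triv B)).fixed) :
      M × (M →L[ℂ] ℂ) × B) = - p z := by
    intro z
    show (0 : M →L[ℂ] ℂ) 0 - p z = - p z
    simp
  have hF0 : ∀ z, p z = 0 → susp p ((ι z : (suspMod ρM (GMod.triv ℂ) (GMod.triv B)).fixed) :
      M × (M →L[ℂ] ℂ) × B) = 0 := by
    intro z hz
    rw [hFι, hz, neg_zero]
  have hπι : ∀ y : (suspMod ρM (GMod.triv ℂ) (GMod.triv B)).fixed, ι (π y) = y := by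
    intro y
    apply Subtype.ext
    obtain ⟨h1, h2⟩ := (hFX 𝔤 G K hK M B ρM hM y).1 y.2
    rw [hι]
    exact Prod.ext h1.symm (Prod.ext h2.symm rfl)
  refine ⟨W, i1, i2, i3, fun x => π (s (ι x.1, x.2)), ?_, ?_, ?_, ?_⟩
  · exact π.differentiable.comp (hs.comp ((ι.differentiable.comp differentiable_fst).prodMk
      differentiable_snd))
  · intro z hz
    show π (s (ι z, 0)) = z
    rw [h0 (ι z) (hF0 z hz)]
    rfl
  · intro z w hz
    have h1 := hm (ι z) w (hF0 z hz)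
    have h2 := hFι (π (s (ι z, w)))
    rw [hπι] at h2
    have h3 : - p (π (s (ι z, w))) = 0 := h2.symm.trans h1
    exact neg_eq_zero.mp h3
  · intro z hz b hb
    have hFd : fderiv ℂ (fun y : (suspMod ρM (GMod.triv ℂ) (GMod.triv B)).fixed =>
        susp p (y : M × (M →L[ℂ] ℂ) × B)) (ι z) (ι b) = 0 := by
      have h1 : HasFDerivAt (fun y : (suspMod ρM (GMod.triv ℂ) (GMod.triv B)).fixed =>
          susp p (y : M × (M →L[ℂ] ℂ) × B))
          ((fderiv ℂ (susp (M := M) p) (0, 0, z)).comp (Submodule.subtypeL _)) (ι z) := by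
        refine HasFDerivAt.comp (ι z) (g := susp (M := M) p)
          (f := fun y : (suspMod ρM (GMod.triv ℂ) (GMod.triv B)).fixed =>
            (y : M × (M →L[ℂ] ℂ) × B)) ?_ (Submodule.subtypeL _).hasFDerivAt
        exact ((hFD M B p hp).1 _).hasFDerivAt
      rw [h1.fderiv]
      show fderiv ℂ (susp (M := M) p) (0, 0, z) (0, 0, b) = 0
      rw [(hFD M B p hp).2]
      simp [hb]
    obtain ⟨w, hw⟩ := hd (ι z) (hF0 z hz) (ι b) hFd
    refine ⟨w, ?_⟩
    have h2 : HasFDerivAt (fun w : W => s (ι z, w)) (fderiv ℂ (fun w : W => s (ι z, w)) 0) 0 := by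
      apply DifferentiableAt.hasFDerivAt
      exact (hs.comp ((differentiable_const (ι z)).prodMk differentiable_id)) 0
    have h3 : HasFDerivAt (fun w : W => π (s (ι z, w)))
        (π.comp (fderiv ℂ (fun w : W => s (ι z, w)) 0)) 0 :=
      HasFDerivAt.comp (0 : W) (g := π) (f := fun w : W => s (ι z, w)) π.hasFDerivAt h2
    show fderiv ℂ (fun w : W => π (s (ι z, w))) 0 w = b
    rw [h3.fderiv]
    show π (fderiv ℂ (fun w : W => s (ι z, w)) 0 w) = b
    rw [hw]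
    rfl

end Pool.Agent.Work.MP_e4a69c_an.SU
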