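import Pool.Agent.Work.MP_e4a69c_an.SU.Stmts

set_option autoImplicit false

namespace Pool.Agent.Work.MP_e4a69c_an.SU

open scoped Manifold ContDiff Topology

theorem pr_FD : StFD := by
  intro M B _ _ _ _ p hp
  have key : ∀ y : M × (M →L[ℂ] ℂ) × B, HasFDerivAt (susp (M := M) p)
      (((y.2.1).comp (ContinuousLinearMap.fst ℂ M ((M →L[ℂ] ℂ) × B))
        + ((ContinuousLinearMap.fst ℂ (M →L[ℂ] ℂ) B).comp
          (ContinuousLinearMap.snd ℂ M ((M →L[ℂ] ℂ) × B))).flip y.1)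
        - (fderiv ℂ p y.2.2).comp ((ContinuousLinearMap.snd ℂ (M →L[ℂ] ℂ) B).comp
          (ContinuousLinearMap.snd ℂ M ((M →L[ℂ] ℂ) × B)))) y := by
    intro y
    have h1 : HasFDerivAt (fun y : M × (M →L[ℂ] ℂ) × B => y.2.1)
        ((ContinuousLinearMap.fst ℂ (M →L[ℂ] ℂ) B).comp
          (ContinuousLinearMap.snd ℂ M ((M →L[ℂ] ℂ) × B))) y :=
      ((ContinuousLinearMap.fst ℂ (M →L[ℂ] ℂ) B).comp
          (ContinuousLinearMap.snd ℂ M ((M →L[ℂ] ℂ) × B))).hasFDerivAt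
    have h2 : HasFDerivAt (fun y : M × (M →L[ℂ] ℂ) × B => y.1)
        (ContinuousLinearMap.fst ℂ M ((M →L[ℂ] ℂ) × B)) y :=
      (ContinuousLinearMap.fst ℂ M ((M →L[ℂ] ℂ) × B)).hasFDerivAt
    have h3 : HasFDerivAt (fun y : M × (M →L[ℂ] ℂ) × B => y.2.2)
        ((ContinuousLinearMap.snd ℂ (M →L[ℂ] ℂ) B).comp
          (ContinuousLinearMap.snd ℂ M ((M →L[ℂ] ℂ) × B))) y :=
      ((ContinuousLinearMap.snd ℂ (M →L[ℂ] ℂ) B).comp
          (ContinuousLinearMap.snd ℂ M ((M →L[ℂ] ℂ) × B))).hasFDerivAt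
    exact (h1.clm_apply h2).sub ((hp y.2.2).hasFDerivAt.comp y h3)
  refine ⟨fun y => (key y).differentiableAt, ?_⟩
  intro y τ
  rw [(key y).fderiv]
  simp [ContinuousLinearMap.flip_apply]

end Pool.Agent.Work.MP_e4a69c_an.SU
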