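import Pool.Agent.Work.MP_e4a69c_an.SU.Stmts2

set_option autoImplicit false

namespace Pool.Agent.Work.MP_e4a69c_an.SU

open scoped Manifold ContDiff Topology

theorem pr_FI (hAN : StAN) : StFI := by
  intro 𝔤 _ _ G _ _ _ _ K N _ hK M B _ _ _ _ _ _ ρM ρL ρB p hL hB
  obtain ⟨P, hP1, hP2, hP3, hP4⟩ := hAN 𝔤 G K N hK M ρM
  let P0 : M →L[ℂ] ρM.fixedBy N := P.codRestrict (ρM.fixedBy N) hP1
  have hP0 : ∀ x : ρM.fixedBy N, P0 x = x := fun x => Subtype.ext (hP2 x x.2)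
  have hmem : ∀ v : M × (M →L[ℂ] ℂ) × B, v ∈ (suspMod ρM ρL ρB).fixedBy N ↔
      v.1 ∈ ρM.fixedBy N ∧ ∀ n ∈ N, ∀ m, v.2.1 (ρM.act n m) = v.2.1 m := by
    intro v
    constructor
    · intro hv
      refine ⟨fun n hn => congrArg (fun u : M × (M →L[ℂ] ℂ) × B => u.1) (hv n hn), ?_⟩
      intro n hn m
      have h1 := congrArg (fun u : M × (M →L[ℂ] ℂ) × B => u.2.1 m) (hv n⁻¹ (N.inv_mem hn))
      have h2 : ρL.act n⁻¹ (v.2.1 (ρM.act (n⁻¹)⁻¹ m)) = v.2.1 m := h1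
      rw [hL _ (N.inv_mem hn), inv_inv] at h2
      exact h2
    · rintro ⟨h1, h2⟩ n hn
      refine Prod.ext (h1 n hn) (Prod.ext ?_ (hB n hn v.2.2))
      ext m
      show ρL.act n (v.2.1 (ρM.act n⁻¹ m)) = v.2.1 m
      rw [hL n hn, h2 _ (N.inv_mem hn)]
  have hξP : ∀ v : (suspMod ρM ρL ρB).fixedBy N, ∀ m,
      (v : M × (M →L[ℂ] ℂ) × B).2.1 (P m) = (v : M × (M →L[ℂ] ℂ) × B).2.1 m := by
    intro v m
    exact hP4 ℂ (v : M × (M →L[ℂ] ℂ) × B).2.1 m _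
      (fun k hk => ((hmem v).1 v.2).2 k (hK.1 hk) m)
  let f1 : (suspMod ρM ρL ρB).fixedBy N →L[ℂ] ρM.fixedBy N :=
    ((ContinuousLinearMap.fst ℂ M ((M →L[ℂ] ℂ) × B)).comp
      (Submodule.subtypeL ((suspMod ρM ρL ρB).fixedBy N))).codRestrict (ρM.fixedBy N)
      (fun v => ((hmem v).1 v.2).1)
  let f2 : (suspMod ρM ρL ρB).fixedBy N →L[ℂ] (ρM.fixedBy N →L[ℂ] ℂ) :=
    ((ContinuousLinearMap.compL ℂ (ρM.fixedBy N) M ℂ).flip (Submodule.subtypeL _)).comp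
      (((ContinuousLinearMap.fst ℂ (M →L[ℂ] ℂ) B).comp
        (ContinuousLinearMap.snd ℂ M ((M →L[ℂ] ℂ) × B))).comp
      (Submodule.subtypeL ((suspMod ρM ρL ρB).fixedBy N)))
  let f3 : (suspMod ρM ρL ρB).fixedBy N →L[ℂ] B :=
    ((ContinuousLinearMap.snd ℂ (M →L[ℂ] ℂ) B).comp
        (ContinuousLinearMap.snd ℂ M ((M →L[ℂ] ℂ) × B))).comp
      (Submodule.subtypeL ((suspMod ρM ρL ρB).fixedBy N))
  let g2 : (ρM.fixedBy N →L[ℂ] ℂ) →L[ℂ] (M →L[ℂ] ℂ) :=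
    (ContinuousLinearMap.compL ℂ M (ρM.fixedBy N) ℂ).flip P0
  let g : (ρM.fixedBy N × (ρM.fixedBy N →L[ℂ] ℂ) × B) →L[ℂ] M × (M →L[ℂ] ℂ) × B :=
    ((Submodule.subtypeL _).comp (ContinuousLinearMap.fst ℂ _ _)).prod
      ((g2.comp ((ContinuousLinearMap.fst ℂ _ _).comp (ContinuousLinearMap.snd ℂ _ _))).prod
        ((ContinuousLinearMap.snd ℂ _ _).comp (ContinuousLinearMap.snd ℂ _ _)))
  have hg : ∀ u, g u ∈ (suspMod ρM ρL ρB).fixedBy N := by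
    intro u
    rw [hmem]
    refine ⟨u.1.2, ?_⟩
    intro n hn m
    show u.2.1 (P0 (ρM.act n m)) = u.2.1 (P0 m)
    have h1 : P0 (ρM.act n m) = P0 m := by
      apply Subtype.ext
      show P (ρM.act n m) = P m
      rw [hP3]
      exact hP1 m n hn
    rw [h1]
  let Φ : (suspMod ρM ρL ρB).fixedBy N ≃L[ℂ]
        (ρM.fixedBy N × (ρM.fixedBy N →L[ℂ] ℂ) × B) :=
    ContinuousLinearEquiv.equivOfInverse (f1.prod (f2.prod f3)) (g.codRestrict _ hg)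
      (by
        intro v
        apply Subtype.ext
        show (((f1 v : ρM.fixedBy N) : M), (f2 v).comp P0, f3 v) = (v : M × (M →L[ℂ] ℂ) × B)
        refine Prod.ext rfl (Prod.ext ?_ rfl)
        ext m
        exact hξP v m)
      (by
        intro u
        refine Prod.ext rfl (Prod.ext ?_ rfl)
        ext m
        show u.2.1 (P0 (m : M)) = u.2.1 m
        rw [hP0])
  refine ⟨Φ, ?_, ?_⟩
  · intro g v
    refine Prod.ext rfl (Prod.ext ?_ rfl)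
    ext m
    rfl
  · intro v
    rfl

end Pool.Agent.Work.MP_e4a69c_an.SU
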