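import Pool.Agent.Work.MP_e4a69c_an.SU.Stmts

set_option autoImplicit false

namespace Pool.Agent.Work.MP_e4a69c_an.SU

open scoped Manifold ContDiff Topology

theorem pr_FX (hAV : StAV) (hKF : StKF) : StFX := by
  intro 𝔤 _ _ G _ _ _ _ K hK M B _ _ _ _ _ ρM hM y
  constructor
  · intro hy
    have hx : ∀ g, ρM.act g y.1 = y.1 := by
      intro g
      have h := hy g
      exact congrArg (fun u : M × (M →L[ℂ] ℂ) × B => u.1) h
    have hξ : ∀ g m, y.2.1 (ρM.act g⁻¹ m) = y.2.1 m := by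
      intro g m
      have h := hy g
      have h2 := congrArg (fun u : M × (M →L[ℂ] ℂ) × B => u.2.1 m) h
      exact h2
    refine ⟨hM _ hx, ?_⟩
    obtain ⟨P, hP1, hP2⟩ := hAV 𝔤 G K hK.1 M ρM
    ext m
    rw [zero_apply]
    have h3 : y.2.1 (P m) = y.2.1 m := by
      refine hP2 ℂ y.2.1 m (y.2.1 m) ?_
      intro k hk
      have h4 := hξ k⁻¹ m
      rw [inv_inv] at h4
      exact h4
    have h5 : P m = 0 := hM _ (hKF 𝔤 G K hK M ρM (P m) (fun k hk => hP1 k hk m))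
    rw [← h3, h5, map_zero]
  · rintro ⟨h1, h2⟩ g
    refine Prod.ext ?_ (Prod.ext ?_ rfl)
    · show ρM.act g y.1 = y.1
      rw [h1, map_zero]
    · show (ρM.hom (GMod.triv ℂ)).act g y.2.1 = y.2.1
      rw [h2, map_zero]

end Pool.Agent.Work.MP_e4a69c_an.SU
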