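import Pool.Agent.Work.MP_e4a69c_an.SU.Stmts

/-!
# Block SU, item GD: global division
-/

set_option autoImplicit false

namespace Pool.Agent.Work.MP_e4a69c_an.SU

open scoped Manifold ContDiff Topology

/-- GD. -/
theorem pr_GD (hLD : StLD) (hDN : StDN) : StGD := by
  classical
  intro E _ _ _ p f hp hf hdp hfp
  have hdense := hDN E p hdp
  have hex : ∀ z, ∃ b : E → ℂ, p z = 0 →
      ∀ᶠ z' in 𝓝 z, DifferentiableAt ℂ b z' ∧ f z' = b z' * p z' := by
    intro z
    by_cases hz : p z = 0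
    · obtain ⟨b, hb⟩ := hLD E p f hp hf hfp z hz (hdp z hz)
      exact ⟨b, fun _ => hb⟩
    · exact ⟨0, fun h => absurd h hz⟩
  choose b hb using hex
  obtain ⟨a, ha⟩ : ∃ a : E → ℂ, a = fun z => if p z = 0 then b z z else f z * (p z)⁻¹ :=
    ⟨_, rfl⟩
  have ha0 : ∀ z, p z = 0 → a z = b z z := fun z hz => by
    rw [ha]
    exact if_pos hz
  have ha1 : ∀ z, p z ≠ 0 → a z = f z * (p z)⁻¹ := fun z hz => by
    rw [ha]
    exact if_neg hz
  have key : ∀ z0, p z0 = 0 → a =ᶠ[𝓝 z0] b z0 := by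
    intro z0 hz0
    have h1 := (eventually_eventually_nhds.2 (hb z0 hz0))
    filter_upwards [h1] with z hz
    have hzz := hz.self_of_nhds
    by_cases hpz : p z = 0
    · rw [ha0 z hpz]
      have hzb := hb z hpz
      have hne : (𝓝[{z : E | p z ≠ 0}] z).NeBot := mem_closure_iff_nhdsWithin_neBot.1 (hdense z)
      refine tendsto_nhds_unique_of_eventuallyEq (l := 𝓝[{z : E | p z ≠ 0}] z)
        ((hzb.self_of_nhds.1.continuousAt.tendsto).mono_left nhdsWithin_le_nhds)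
        ((hzz.1.continuousAt.tendsto).mono_left nhdsWithin_le_nhds) ?_
      have h2 : ∀ᶠ z' in 𝓝[{z : E | p z ≠ 0}] z, f z' = b z z' * p z' :=
        (hzb.mono fun z' h => h.2).filter_mono nhdsWithin_le_nhds
      have h3 : ∀ᶠ z' in 𝓝[{z : E | p z ≠ 0}] z, f z' = b z0 z' * p z' :=
        (hz.mono fun z' h => h.2).filter_mono nhdsWithin_le_nhds
      have h4 : ∀ᶠ z' in 𝓝[{z : E | p z ≠ 0}] z, p z' ≠ 0 := self_mem_nhdsWithin
      filter_upwards [h2, h3, h4] with z' e2 e3 e4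
      exact mul_right_cancel₀ e4 (e2.symm.trans e3)
    · rw [ha1 z hpz, hzz.2, mul_assoc, mul_inv_cancel₀ hpz, mul_one]
  refine ⟨a, fun z0 => ?_, fun z => ?_⟩
  · by_cases hz0 : p z0 = 0
    · exact ((hb z0 hz0).self_of_nhds.1).congr_of_eventuallyEq (key z0 hz0)
    · have h1 : a =ᶠ[𝓝 z0] fun z => f z * (p z)⁻¹ := by
        have h2 : ∀ᶠ z in 𝓝 z0, p z ≠ 0 := (hp z0).continuousAt.eventually_ne hz0
        filter_upwards [h2] with z hz
        exact ha1 z hz
      exact ((hf z0).mul ((hp z0).inv hz0)).congr_of_eventuallyEq h1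
  · by_cases hz : p z = 0
    · rw [hz, mul_zero]
      exact hfp z hz
    · rw [ha1 z hz, mul_assoc, inv_mul_cancel₀ hz, mul_one]

end Pool.Agent.Work.MP_e4a69c_an.SU
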