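import Pool.Agent.Work.MP_e4a69c_an.SU.Stmts

/-!
Theorem SU (MP_e4a69c_an), item IF (helper30): implicit function.
-/

set_option autoImplicit false

namespace Pool.Agent.Work.MP_e4a69c_an.SU

open scoped Manifold ContDiff Topology

namespace IIF

/-- the linear map `(dz, dζ) ↦ (dz, l dz + dζ)` as an equivalence -/
noncomputable def eqv {E : Type} [NormedAddCommGroup E] [NormedSpace ℂ E] (l : E →L[ℂ] ℂ) :
    (E × ℂ) ≃L[ℂ] (E × ℂ) :=
  ContinuousLinearEquiv.equivOfInverse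
    ((ContinuousLinearMap.fst ℂ E ℂ).prod
      (l.comp (ContinuousLinearMap.fst ℂ E ℂ) + ContinuousLinearMap.snd ℂ E ℂ))
    ((ContinuousLinearMap.fst ℂ E ℂ).prod
      (ContinuousLinearMap.snd ℂ E ℂ - l.comp (ContinuousLinearMap.fst ℂ E ℂ)))
    (by rintro ⟨a, b⟩; simp) (by rintro ⟨a, b⟩; simp)

end IIF

open IIF in
theorem pr_IF (hGO : StGO) : StIF := by
  intro E _ _ _ p z0 e hp hp0 he
  have : CompleteSpace E := FiniteDimensional.complete ℂ E
  have hC1 : ContDiff ℂ 1 p :=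
    contDiff_one_iff_fderiv.2 ⟨hp, (hGO E ℂ p hp).continuous⟩
  have hΨ : ContDiff ℂ 1 (fun x : E × ℂ => (x.1, p (x.1 + x.2 • e))) :=
    contDiff_fst.prodMk (hC1.comp (contDiff_fst.add (contDiff_snd.smul contDiff_const)))
  have hin : HasFDerivAt (fun x : E × ℂ => x.1 + x.2 • e)
      (ContinuousLinearMap.fst ℂ E ℂ + (ContinuousLinearMap.snd ℂ E ℂ).smulRight e)
      (z0, (0 : ℂ)) :=
    hasFDerivAt_fst.add (hasFDerivAt_snd.smul_const e)
  have hpd : HasFDerivAt p (fderiv ℂ p z0) ((fun x : E × ℂ => x.1 + x.2 • e) (z0, (0 : ℂ))) := by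
    have h0 : (fun x : E × ℂ => x.1 + x.2 • e) (z0, (0 : ℂ)) = z0 := by simp
    rw [h0]
    exact (hp z0).hasFDerivAt
  have hder : HasFDerivAt (fun x : E × ℂ => (x.1, p (x.1 + x.2 • e)))
      ((eqv (fderiv ℂ p z0) : (E × ℂ) ≃L[ℂ] (E × ℂ)) : (E × ℂ) →L[ℂ] (E × ℂ))
      (z0, (0 : ℂ)) := by
    have hc := HasFDerivAt.comp (g := p) (f := fun x : E × ℂ => x.1 + x.2 • e) (z0, (0 : ℂ)) hpd hin
    have h := (hasFDerivAt_fst (𝕜 := ℂ) (p := ((z0, (0 : ℂ)) : E × ℂ))).prodMk hc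
    have heq : (ContinuousLinearMap.fst ℂ E ℂ).prod ((fderiv ℂ p z0).comp
        (ContinuousLinearMap.fst ℂ E ℂ + (ContinuousLinearMap.snd ℂ E ℂ).smulRight e)) =
        ((eqv (fderiv ℂ p z0) : (E × ℂ) ≃L[ℂ] (E × ℂ)) : (E × ℂ) →L[ℂ] (E × ℂ)) := by
      apply ContinuousLinearMap.ext
      rintro ⟨a, b⟩
      show (a, fderiv ℂ p z0 (a + b • e)) = (a, fderiv ℂ p z0 a + b)
      rw [map_add, map_smul, he, smul_eq_mul, mul_one]
    rw [← heq]
    exact h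
  have hC : ContDiffAt ℂ 1 (fun x : E × ℂ => (x.1, p (x.1 + x.2 • e))) (z0, (0 : ℂ)) :=
    hΨ.contDiffAt
  have hval : ((z0, (0 : ℂ)).1, p ((z0, (0 : ℂ)).1 + (z0, (0 : ℂ)).2 • e)) = (z0, (0 : ℂ)) := by
    simp [hp0]
  have hloc := hC.to_localInverse hder one_ne_zero
  have himg := hC.localInverse_apply_image hder one_ne_zero
  have hright := (hC.hasStrictFDerivAt' hder one_ne_zero).eventually_right_inverse
  rw [hval] at hloc himg hright
  obtain ⟨Φ, hΦ⟩ : ∃ Φ : E × ℂ → E × ℂ, Φ = hC.localInverse hder one_ne_zero := ⟨_, rfl⟩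
  rw [← hΦ] at hloc himg
  have hright' : ∀ᶠ y in 𝓝 ((z0, (0 : ℂ)) : E × ℂ),
      ((Φ y).1, p ((Φ y).1 + (Φ y).2 • e)) = y := by
    rw [hΦ]
    exact hright
  have hev : ∀ᶠ y in 𝓝 ((z0, (0 : ℂ)) : E × ℂ), ContDiffAt ℂ 1 Φ y :=
    hloc.eventually (by simp)
  have hcont : Filter.Tendsto (fun z : E => (z, (0 : ℂ))) (𝓝 z0) (𝓝 (z0, (0 : ℂ))) :=
    (continuous_id.prodMk continuous_const).tendsto z0
  refine ⟨fun z => (Φ (z, 0)).2, ?_, ?_⟩
  · show (Φ (z0, 0)).2 = 0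
    rw [himg]
  · filter_upwards [hcont.eventually hright', hcont.eventually hev] with z h1 h2
    constructor
    · have h3 : DifferentiableAt ℂ Φ (z, (0 : ℂ)) := h2.differentiableAt one_ne_zero
      exact (h3.comp z (differentiableAt_id.prodMk (differentiableAt_const _))).snd
    · have h4 : (Φ (z, 0)).1 = z := congrArg Prod.fst h1
      have h5 : p ((Φ (z, 0)).1 + (Φ (z, 0)).2 • e) = 0 := congrArg Prod.snd h1
      rw [h4] at h5
      exact h5

end Pool.Agent.Work.MP_e4a69c_an.SU
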