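import Pool.Agent.Work.MP_e4a69c_an.SU.Stmts2

set_option autoImplicit false

namespace Pool.Agent.Work.MP_e4a69c_an.SU

open scoped Manifold ContDiff Topology

theorem pr_KN : StKN := by
  intro 𝔤 _ _ G _ _ _ _ K N hK V _ _ _ ρ v hv n hn
  by_contra hne
  have hne' : ρ.act n v - v ≠ 0 := sub_ne_zero.mpr hne
  obtain ⟨l, hl⟩ := SeparatingDual.exists_ne_zero (R := ℂ) hne'
  have hf : ContMDiff 𝓘(ℂ, 𝔤) 𝓘(ℂ, ℂ) ω (fun g : G => l (ρ.act g v - v)) := by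
    have h1 : ContMDiff 𝓘(ℂ, 𝔤) 𝓘(ℂ, V) ω (fun g : G => ρ.act g v) :=
      ρ.hol.clm_apply contMDiff_const
    have h2 : ContMDiff 𝓘(ℂ, 𝔤) 𝓘(ℂ, V) ω (fun g : G => ρ.act g v - v) := by
      have h3 : ContDiff ℂ ω (fun u : V => u - v) := contDiff_id.sub contDiff_const
      exact h3.contMDiff.comp h1
    exact l.contDiff.contMDiff.comp h2
  exact hl (hK.2.2 _ hf (fun k hk => by simp [hv k hk]) n hn)

end Pool.Agent.Work.MP_e4a69c_an.SU
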