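import Pool.Agent.Work.MP_e4a69c_an.SU.Stmts

/-! Block SU, item LA: linear algebra off the origin. -/

set_option autoImplicit false

namespace Pool.Agent.Work.MP_e4a69c_an.SU

open scoped Manifold ContDiff Topology

namespace ILA

theorem exists_one {V : Type} [NormedAddCommGroup V] [NormedSpace ℂ V] (α : V →L[ℂ] ℂ)
    (h : α ≠ 0) : ∃ b, α b = 1 := by
  obtain ⟨v, hv⟩ : ∃ v, α v ≠ 0 := by
    by_contra hno
    push Not at hno
    exact h (ContinuousLinearMap.ext hno)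
  refine ⟨(α v)⁻¹ • v, ?_⟩
  rw [map_smul, smul_eq_mul, inv_mul_cancel₀ hv]

end ILA

open ILA in
theorem pr_LA : StLA := by
  intro M B _ _ _ _ _ α x ξ hne h0 τ hτ
  obtain ⟨dx, dξ, dz⟩ := τ
  simp only at hτ
  by_cases hx : x = 0
  · subst hx
    have hξ : ξ ≠ 0 := by
      rcases hne with h | h
      · exact absurd rfl h
      · exact h
    obtain ⟨b, hb⟩ := exists_one α (h0 (Or.inl rfl))
    obtain ⟨m0, hm0⟩ := exists_one ξ hξ
    rw [map_zero, add_zero] at hτ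
    have e1 : α dz = ξ dx := by linear_combination -hτ
    obtain ⟨t, ht⟩ : ∃ t : (M →L[ℂ] ℂ) →L[ℂ] B, ∀ ζ : M →L[ℂ] ℂ,
        t ζ = ζ m0 • dz + (ζ dx - ξ dx * ζ m0) • b :=
      ⟨(ContinuousLinearMap.apply ℂ ℂ m0).smulRight dz +
        (ContinuousLinearMap.apply ℂ ℂ dx - ξ dx • ContinuousLinearMap.apply ℂ ℂ m0).smulRight b,
        fun ζ => rfl⟩
    have h1 : ((dx, 0, dz) : M × (M →L[ℂ] ℂ) × B) ∈ Submodule.span ℂ (
        ({τ | ∃ A : M →L[ℂ] M, τ = (A 0, -(ξ.comp A), 0)} : Set (M × (M →L[ℂ] ℂ) × B)) ∪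
        {τ | ∃ t : M →L[ℂ] B, τ = (0, α.comp t, t 0)} ∪
        {τ | ∃ (t : (M →L[ℂ] ℂ) →L[ℂ] B) (m : M), (∀ ζ : M →L[ℂ] ℂ, ζ m = α (t ζ)) ∧
          τ = (m, 0, t ξ)}) := by
      refine Submodule.subset_span (Or.inr ⟨t, dx, fun ζ => ?_, ?_⟩)
      · rw [ht, map_add, map_smul, map_smul, hb, e1, smul_eq_mul, smul_eq_mul]
        ring
      · rw [ht, hm0, one_smul, mul_one, sub_self, zero_smul, add_zero]
    have h2 : ((0, dξ, 0) : M × (M →L[ℂ] ℂ) × B) ∈ Submodule.span ℂ (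
        ({τ | ∃ A : M →L[ℂ] M, τ = (A 0, -(ξ.comp A), 0)} : Set (M × (M →L[ℂ] ℂ) × B)) ∪
        {τ | ∃ t : M →L[ℂ] B, τ = (0, α.comp t, t 0)} ∪
        {τ | ∃ (t : (M →L[ℂ] ℂ) →L[ℂ] B) (m : M), (∀ ζ : M →L[ℂ] ℂ, ζ m = α (t ζ)) ∧
          τ = (m, 0, t ξ)}) := by
      refine Submodule.subset_span (Or.inl (Or.inl ⟨-(dξ.smulRight m0), ?_⟩))
      refine Prod.ext ?_ (Prod.ext ?_ rfl)
      · show (0 : M) = (-(dξ.smulRight m0)) 0
        rw [map_zero]
      · show dξ = -(ξ.comp (-(dξ.smulRight m0)))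
        apply ContinuousLinearMap.ext
        intro m
        show dξ m = -(ξ (-(dξ m • m0)))
        rw [map_neg, map_smul, hm0, smul_eq_mul, mul_one, neg_neg]
    have h3 := Submodule.add_mem _ h1 h2
    have h4 : ((dx, 0, dz) : M × (M →L[ℂ] ℂ) × B) + (0, dξ, 0) = (dx, dξ, dz) := by
      rw [Prod.mk_add_mk, Prod.mk_add_mk, add_zero, zero_add, add_zero]
    rw [h4] at h3
    exact h3
  · obtain ⟨f, hf⟩ : ∃ f : M →L[ℂ] ℂ, f x = 1 := SeparatingDual.exists_eq_one hx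
    by_cases hξ : ξ = 0
    · subst hξ
      obtain ⟨b, hb⟩ := exists_one α (h0 (Or.inr rfl))
      have e1 : α dz = dξ x := by
        have : (0 : M →L[ℂ] ℂ) dx = 0 := rfl
        rw [this] at hτ
        linear_combination -hτ
      obtain ⟨t, ht⟩ : ∃ t : M →L[ℂ] B, ∀ m : M,
          t m = f m • dz + (dξ m - dξ x * f m) • b :=
        ⟨f.smulRight dz + (dξ - dξ x • f).smulRight b, fun m => rfl⟩
      have h1 : ((0, dξ, dz) : M × (M →L[ℂ] ℂ) × B) ∈ Submodule.span ℂ (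
          ({τ | ∃ A : M →L[ℂ] M, τ = (A x, -((0 : M →L[ℂ] ℂ).comp A), 0)} :
            Set (M × (M →L[ℂ] ℂ) × B)) ∪
          {τ | ∃ t : M →L[ℂ] B, τ = (0, α.comp t, t x)} ∪
          {τ | ∃ (t : (M →L[ℂ] ℂ) →L[ℂ] B) (m : M), (∀ ζ : M →L[ℂ] ℂ, ζ m = α (t ζ)) ∧
            τ = (m, 0, t 0)}) := by
        refine Submodule.subset_span (Or.inl (Or.inr ⟨t, ?_⟩))
        refine Prod.ext rfl (Prod.ext ?_ ?_)
        · show dξ = α.comp t
          apply ContinuousLinearMap.ext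
          intro m
          show dξ m = α (t m)
          rw [ht, map_add, map_smul, map_smul, hb, e1, smul_eq_mul, smul_eq_mul]
          ring
        · show dz = t x
          rw [ht, hf, one_smul, mul_one, sub_self, zero_smul, add_zero]
      have h2 : ((dx, 0, 0) : M × (M →L[ℂ] ℂ) × B) ∈ Submodule.span ℂ (
          ({τ | ∃ A : M →L[ℂ] M, τ = (A x, -((0 : M →L[ℂ] ℂ).comp A), 0)} :
            Set (M × (M →L[ℂ] ℂ) × B)) ∪
          {τ | ∃ t : M →L[ℂ] B, τ = (0, α.comp t, t x)} ∪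
          {τ | ∃ (t : (M →L[ℂ] ℂ) →L[ℂ] B) (m : M), (∀ ζ : M →L[ℂ] ℂ, ζ m = α (t ζ)) ∧
            τ = (m, 0, t 0)}) := by
        refine Submodule.subset_span (Or.inl (Or.inl ⟨f.smulRight dx, ?_⟩))
        refine Prod.ext ?_ (Prod.ext ?_ rfl)
        · show dx = f x • dx
          rw [hf, one_smul]
        · show (0 : M →L[ℂ] ℂ) = -((0 : M →L[ℂ] ℂ).comp (f.smulRight dx))
          rw [ContinuousLinearMap.zero_comp, neg_zero]
      have h3 := Submodule.add_mem _ h1 h2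
      have h4 : ((0, dξ, dz) : M × (M →L[ℂ] ℂ) × B) + (dx, 0, 0) = (dx, dξ, dz) := by
        rw [Prod.mk_add_mk, Prod.mk_add_mk, add_zero, zero_add, add_zero]
      rw [h4] at h3
      exact h3
    · obtain ⟨m0, hm0⟩ := exists_one ξ hξ
      obtain ⟨dη, hη⟩ : ∃ dη : M →L[ℂ] ℂ, dη = dξ - α dz • f := ⟨_, rfl⟩
      have hηx : ξ dx + dη x = 0 := by
        rw [hη]
        show ξ dx + (dξ x - α dz * f x) = 0
        rw [hf]
        linear_combination hτ
      have h1 : ((0, α dz • f, dz) : M × (M →L[ℂ] ℂ) × B) ∈ Submodule.span ℂ (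
          ({τ | ∃ A : M →L[ℂ] M, τ = (A x, -(ξ.comp A), 0)} : Set (M × (M →L[ℂ] ℂ) × B)) ∪
          {τ | ∃ t : M →L[ℂ] B, τ = (0, α.comp t, t x)} ∪
          {τ | ∃ (t : (M →L[ℂ] ℂ) →L[ℂ] B) (m : M), (∀ ζ : M →L[ℂ] ℂ, ζ m = α (t ζ)) ∧
            τ = (m, 0, t ξ)}) := by
        refine Submodule.subset_span (Or.inl (Or.inr ⟨f.smulRight dz, ?_⟩))
        refine Prod.ext rfl (Prod.ext ?_ ?_)
        · show α dz • f = α.comp (f.smulRight dz)
          apply ContinuousLinearMap.ext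
          intro m
          show α dz * f m = α (f m • dz)
          rw [map_smul, smul_eq_mul, mul_comm]
        · show dz = f x • dz
          rw [hf, one_smul]
      obtain ⟨A, hA⟩ : ∃ A : M →L[ℂ] M, ∀ m, A m = f m • dx - dη m • m0 + (dη x * f m) • m0 :=
        ⟨f.smulRight dx - dη.smulRight m0 + (dη x • f).smulRight m0, fun m => rfl⟩
      have h2 : ((dx, dη, 0) : M × (M →L[ℂ] ℂ) × B) ∈ Submodule.span ℂ (
          ({τ | ∃ A : M →L[ℂ] M, τ = (A x, -(ξ.comp A), 0)} : Set (M × (M →L[ℂ] ℂ) × B)) ∪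
          {τ | ∃ t : M →L[ℂ] B, τ = (0, α.comp t, t x)} ∪
          {τ | ∃ (t : (M →L[ℂ] ℂ) →L[ℂ] B) (m : M), (∀ ζ : M →L[ℂ] ℂ, ζ m = α (t ζ)) ∧
            τ = (m, 0, t ξ)}) := by
        refine Submodule.subset_span (Or.inl (Or.inl ⟨A, ?_⟩))
        refine Prod.ext ?_ (Prod.ext ?_ rfl)
        · show dx = A x
          rw [hA, hf, one_smul, mul_one, sub_add_cancel]
        · show dη = -(ξ.comp A)
          apply ContinuousLinearMap.ext
          intro m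
          show dη m = -(ξ (A m))
          rw [hA, map_add, map_sub, map_smul, map_smul, map_smul, hm0, smul_eq_mul, smul_eq_mul,
            smul_eq_mul]
          linear_combination (f m) * hηx
      have h3 := Submodule.add_mem _ h1 h2
      have h4 : ((0, α dz • f, dz) : M × (M →L[ℂ] ℂ) × B) + (dx, dη, 0) = (dx, dξ, dz) := by
        rw [Prod.mk_add_mk, Prod.mk_add_mk, add_zero, zero_add, hη, add_sub_cancel]
      rw [h4] at h3
      exact h3

end Pool.Agent.Work.MP_e4a69c_an.SU
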