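import Pool.Agent.Work.MP_e4a69c_an.SU.Stmts

/-!
# Block SU, item LD: local division
-/

set_option autoImplicit false

namespace Pool.Agent.Work.MP_e4a69c_an.SU

open scoped Manifold ContDiff Topology

namespace ILD

theorem diff_at {E : Type} [NormedAddCommGroup E] [NormedSpace ℂ E] [FiniteDimensional ℂ E]
    (hQD : StQD) (f : E → ℂ) (hf : Differentiable ℂ f) (ζ : E → ℂ) (e z : E)
    (hζ : DifferentiableAt ℂ ζ z) :
    DifferentiableAt ℂ (fun z => qq f z (ζ z • e) e) z := by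
  have h1 : DifferentiableAt ℂ (fun x : E × E => qq f x.1 x.2) (z, ζ z • e) :=
    hQD E f hf (z, ζ z • e)
  have h2 : DifferentiableAt ℂ (fun z : E => (z, ζ z • e)) z :=
    differentiableAt_id.prodMk (hζ.smul_const e)
  have h3 : DifferentiableAt ℂ (fun z : E => qq f z (ζ z • e)) z :=
    DifferentiableAt.comp z (g := fun x : E × E => qq f x.1 x.2) h1 h2
  exact h3.clm_apply (differentiableAt_const e)

theorem formula {E : Type} [NormedAddCommGroup E] [NormedSpace ℂ E] [FiniteDimensional ℂ E]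
    (hQH : StQH) (f : E → ℂ) (hf : Differentiable ℂ f) (z e : E) (t : ℂ)
    (h0 : f (z + t • e) = 0) : f z = -(t * qq f z (t • e) e) := by
  have h1 := (hQH E f hf).1 z (t • e)
  rw [h0, map_smul, smul_eq_mul] at h1
  rw [h1]
  ring

theorem div_at {E : Type} [NormedAddCommGroup E] [NormedSpace ℂ E] (F P : E → ℂ) (z : E)
    (hF : DifferentiableAt ℂ F z) (hP : DifferentiableAt ℂ P z) (h : P z ≠ 0) :
    DifferentiableAt ℂ (fun z => F z * (P z)⁻¹) z :=
  hF.fun_mul (hP.fun_inv h)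

end ILD

/-- Item LD. -/
theorem pr_LD (hIF : StIF) (hQD : StQD) (hQH : StQH) : StLD := by
  intro E _ _ _ p f hp hf hpf z0 hz0 hdp
  obtain ⟨v, hv⟩ : ∃ v, fderiv ℂ p z0 v ≠ 0 := by
    by_contra h
    push Not at h
    exact hdp (ContinuousLinearMap.ext h)
  have he : fderiv ℂ p z0 ((fderiv ℂ p z0 v)⁻¹ • v) = 1 := by
    rw [map_smul, smul_eq_mul, inv_mul_cancel₀ hv]
  set e : E := (fderiv ℂ p z0 v)⁻¹ • v
  obtain ⟨ζ, hζ0, hζ⟩ := hIF E p z0 e hp hz0 he
  have hdA : DifferentiableAt ℂ (fun z => qq p z (ζ z • e) e) z0 :=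
    ILD.diff_at hQD p hp ζ e z0 hζ.self_of_nhds.1
  have hA0 : (fun z => qq p z (ζ z • e) e) z0 ≠ 0 := by
    show qq p z0 (ζ z0 • e) e ≠ 0
    rw [hζ0, zero_smul, (hQH E p hp).2.1 z0, he]
    exact one_ne_zero
  have hne := hdA.continuousAt.eventually_ne hA0
  refine ⟨fun z => qq f z (ζ z • e) e * (qq p z (ζ z • e) e)⁻¹, ?_⟩
  filter_upwards [hζ, hne] with z hz hnz
  have hdf := ILD.diff_at hQD f hf ζ e z hz.1
  have hdp' := ILD.diff_at hQD p hp ζ e z hz.1
  refine ⟨ILD.div_at _ _ z hdf hdp' hnz, ?_⟩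
  have h1 := ILD.formula hQH p hp z e (ζ z) hz.2
  have h2 := ILD.formula hQH f hf z e (ζ z) (hpf _ hz.2)
  have hnz' : qq p z (ζ z • e) e ≠ 0 := hnz
  rw [h2, h1]
  field_simp

end Pool.Agent.Work.MP_e4a69c_an.SU
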