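import Pool.Agent.Work.MP_e4a69c_an.SU.Stmts

set_option autoImplicit false

namespace Pool.Agent.Work.MP_e4a69c_an.SU

open scoped Manifold ContDiff Topology

theorem IMA.triv_of_elliptic {𝔤 : Type} [NormedAddCommGroup 𝔤] [NormedSpace ℂ 𝔤]
    {G : Type} [TopologicalSpace G] [ChartedSpace 𝔤 G] [Group G]
    {B : Type} [NormedAddCommGroup B] [NormedSpace ℂ B] (p : B → ℂ) (h : Elliptic p) :
    GElliptic (GMod.triv (𝔤 := 𝔤) (G := G) B) p := by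
  obtain ⟨W, i1, i2, i3, s, hs, h0, hm, hd⟩ := h
  exact ⟨W, i1, i2, i3, GMod.triv W,
    { s := s, hol := hs, zero := h0, maps := hm, equi := fun g y w => rfl }, hd⟩

theorem pr_MA (hAA : StAA) (hOF : StOF) (hON : StON) (hEP : StEP) (hFD : StFD) : StMA := by
  intro 𝔤 _ _ G _ _ _ _ K hK M B _ _ _ _ _ _ ρM p hp hs
  have g1 : GElliptic (suspMod ρM (GMod.triv ℂ) (GMod.triv B)) (susp p) →
      Elliptic (fun y : (suspMod ρM (GMod.triv ℂ) (GMod.triv B)).fixed =>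
          susp p (y : M × (M →L[ℂ] ℂ) × B)) :=
    fun h => hON 𝔤 G K hK _ _ _ (hFD M B p hp).1 h
  have g2 : Elliptic (fun y : (suspMod ρM (GMod.triv ℂ) (GMod.triv B)).fixed =>
          susp p (y : M × (M →L[ℂ] ℂ) × B)) →
      ((∃ x : M, x ≠ 0 ∧ ∀ g, ρM.act g x = x) ∨ Elliptic p) := by
    intro h
    by_cases hx : ∃ x : M, x ≠ 0 ∧ ∀ g, ρM.act g x = x
    · exact Or.inl hx
    · refine Or.inr (hEP 𝔤 G K hK M B ρM p hp ?_ h)
      intro x hfx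
      by_contra hne
      exact hx ⟨x, hne, hfx⟩
  have g3 : ((∃ x : M, x ≠ 0 ∧ ∀ g, ρM.act g x = x) ∨ Elliptic p) →
      GElliptic (suspMod ρM (GMod.triv ℂ) (GMod.triv B)) (susp p) := by
    rintro (⟨x, hx0, hx⟩ | h)
    · exact hOF 𝔤 G M B ρM p hp hs x hx0 hx
    · exact hAA 𝔤 G M B ρM (GMod.triv ℂ) (GMod.triv B) p hp hs (fun g z => rfl)
        (IMA.triv_of_elliptic p h)
  exact ⟨⟨g1, fun h => g3 (g2 h)⟩, ⟨fun h => g2 (g1 h), g3⟩⟩

end Pool.Agent.Work.MP_e4a69c_an.SU
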