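import Pool.Agent.Work.MP_e4a69c_an.SU.Stmts

/-! Theorem SU (MP_e4a69c_an), item OF: a fixed vector makes the suspension G-elliptic. -/

set_option autoImplicit false

namespace Pool.Agent.Work.MP_e4a69c_an.SU

open scoped Manifold ContDiff Topology

namespace IOF

/-- A nonzero functional does not vanish at some basis vector. -/
theorem exists_basis {B : Type} [NormedAddCommGroup B] [NormedSpace ℂ B] {n : ℕ}
    (b : Module.Basis (Fin n) ℂ B) (α : B →L[ℂ] ℂ) (h : α ≠ 0) : ∃ j, α (b j) ≠ 0 := by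
  by_contra hcon
  push Not at hcon
  apply h
  have h1 : (α : B →ₗ[ℂ] ℂ) = 0 := b.ext fun j => by
    rw [LinearMap.zero_apply]
    exact hcon j
  ext z
  have := LinearMap.congr_fun h1 z
  simpa using this

end IOF

/-- OF: a fixed vector makes the suspension G-elliptic. -/
theorem pr_OF (hPH : StPH) (hCJ : StCJ) (hCF : StCF) (hCC : StCC) (hBA : StBA) (hFD : StFD) :
    StOF := by
  intro 𝔤 _ _ G _ _ _ _ M B _ _ _ _ _ _ ρM p hp hsm x0 hx0 hfix
  have hB := hBA 𝔤 G M B ρM (GMod.triv ℂ) (GMod.triv B) p hp hsm (fun g z => rfl)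
  set b := Module.finBasis ℂ B with hb
  choose φ ψ hφ hψ h1 h2 h3 h4 h5 using fun j => hPH 𝔤 G M B ρM p hp x0 hfix (b j)
  have hJ := fun j => hCJ 𝔤 G _ (suspMod ρM (GMod.triv ℂ) (GMod.triv B)) (susp p) (φ j) (ψ j)
    (hφ j) (hψ j) (h1 j) (h2 j) (h3 j) (h4 j) _ hB
  have hF := hCF 𝔤 G _ (suspMod ρM (GMod.triv ℂ) (GMod.triv B)) (susp p) _ _ hJ
  obtain ⟨W, i1, i2, i3, σ, S, hS⟩ := hCC 𝔤 G _ (suspMod ρM (GMod.triv ℂ) (GMod.triv B))
    (susp p) _ _ hB hF
  refine ⟨W, i1, i2, i3, σ, S, fun y hy τ hτ => hS y hy τ ?_⟩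
  apply Submodule.subset_span
  by_cases hne : y.1 ≠ 0 ∨ y.2.1 ≠ 0
  · exact Or.inl ⟨hne, hτ⟩
  · right
    push Not at hne
    obtain ⟨e1, e2⟩ := hne
    have hpz : p y.2.2 = 0 := by
      have h6 : y.2.1 y.1 - p y.2.2 = 0 := hy
      rw [e2] at h6
      simpa using h6
    obtain ⟨j, hj⟩ := IOF.exists_basis b (fderiv ℂ p y.2.2) (hsm _ hpz)
    rw [Set.mem_iUnion]
    refine ⟨j, ?_⟩
    have hy' : y = (0, 0, y.2.2) := by
      rw [← e1, ← e2]
    have hφy : φ j y = ((fderiv ℂ p y.2.2 (b j)) • x0, 0, y.2.2) := by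
      have h6 := h5 j y.2.2
      rw [← hy'] at h6
      exact h6
    refine ⟨Or.inl ?_, ?_⟩
    · rw [hφy]
      exact smul_ne_zero hj hx0
    · have hd := (hFD M B p hp).1
      have h6 : fderiv ℂ (susp p ∘ φ j) y = (fderiv ℂ (susp p) (φ j y)).comp
          (fderiv ℂ (φ j) y) := fderiv_comp y (hd _) (hφ j y)
      have h7 : susp p ∘ φ j = susp p := funext (h3 j)
      rw [h7] at h6
      have h8 := congrArg (fun T : (M × (M →L[ℂ] ℂ) × B) →L[ℂ] ℂ => T τ) h6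
      have h9 : fderiv ℂ (susp p) y τ = fderiv ℂ (susp p) (φ j y) (fderiv ℂ (φ j) y τ) := h8
      rw [← h9]
      exact hτ

end Pool.Agent.Work.MP_e4a69c_an.SU
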