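import Pool.Agent.Work.MP_e4a69c_an.SU.Stmts2

set_option autoImplicit false

namespace Pool.Agent.Work.MP_e4a69c_an.SU

open scoped Manifold ContDiff Topology

namespace IOG

variable {𝔤 : Type} [NormedAddCommGroup 𝔤] [NormedSpace ℂ 𝔤]
  {G : Type} [TopologicalSpace G] [ChartedSpace 𝔤 G] [Group G]
  {V : Type} [NormedAddCommGroup V] [NormedSpace ℂ V]
  {W : Type} [NormedAddCommGroup W] [NormedSpace ℂ W]

/-- the derivative of the spray in the parameter -/
theorem diff_snd {ρ : GMod 𝔤 G V} {F : V → ℂ} {σ : GMod 𝔤 G W} (S : Spray ρ F σ) (y : V) :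
    Differentiable ℂ fun w : W => S.s (y, w) :=
  S.hol.comp ((differentiable_const y).prodMk differentiable_id)

/-- equivariance of the derivative at fixed points -/
theorem deriv_equi {ρ : GMod 𝔤 G V} {F : V → ℂ} {σ : GMod 𝔤 G W} (S : Spray ρ F σ) (y : V)
    (g : G) (hy : ρ.act g y = y) (w : W) :
    fderiv ℂ (fun w : W => S.s (y, w)) 0 (σ.act g w) =
      ρ.act g (fderiv ℂ (fun w : W => S.s (y, w)) 0 w) := by
  have h0 : HasFDerivAt (fun w : W => S.s (y, w)) (fderiv ℂ (fun w : W => S.s (y, w)) 0) 0 :=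
    (diff_snd S y 0).hasFDerivAt
  have h0' : HasFDerivAt (fun w : W => S.s (y, w)) (fderiv ℂ (fun w : W => S.s (y, w)) 0)
      (σ.act g 0) := by
    rw [map_zero]
    exact h0
  have h1 : HasFDerivAt (fun w : W => S.s (y, σ.act g w))
      ((fderiv ℂ (fun w : W => S.s (y, w)) 0).comp (σ.act g)) 0 :=
    h0'.comp (0 : W) (σ.act g).hasFDerivAt
  have h2 : HasFDerivAt (fun w : W => ρ.act g (S.s (y, w)))
      ((ρ.act g).comp (fderiv ℂ (fun w : W => S.s (y, w)) 0)) 0 :=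
    (ρ.act g).hasFDerivAt.comp (0 : W) h0
  have h3 : (fun w : W => S.s (y, σ.act g w)) = fun w : W => ρ.act g (S.s (y, w)) := by
    funext w
    have h := S.equi g y w
    rw [hy] at h
    exact h
  rw [h3] at h1
  have h4 := h1.unique h2
  exact congrArg (fun T : W →L[ℂ] V => T w) h4

end IOG

theorem pr_OG (hAN : StAN) : StOG := by
  intro 𝔤 _ _ G _ _ _ _ K N _ hK V _ _ _ ρ F hF hell
  obtain ⟨W, iW1, iW2, iW3, σ, S, hdom⟩ := hell
  obtain ⟨P, hP1, hPi, hPe, hP2⟩ := hAN 𝔤 G K N hK W σ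
  obtain ⟨PV, hPV1, hPVid, hPVe, hPV2⟩ := hAN 𝔤 G K N hK V ρ
  have hs : ∀ v ∈ ρ.fixedBy N, ∀ w, S.s (v, P w) ∈ ρ.fixedBy N := fun v hv w n hn => by
    have h := S.equi n v (P w)
    rw [hv n hn, hP1 w n hn] at h
    exact h.symm
  let Q : V →L[ℂ] ρ.fixedBy N := PV.codRestrict (ρ.fixedBy N) hPV1
  have hQ : ∀ v ∈ ρ.fixedBy N, ((Q v : ρ.fixedBy N) : V) = v := fun v hv => hPVid v hv
  let S' : Spray (ρ.fixedMod N) (fun v : ρ.fixedBy N => F v) σ :=
    { s := fun x => Q (S.s ((x.1 : V), P x.2))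
      hol := Q.differentiable.comp (S.hol.comp
        (((ρ.fixedBy N).subtypeL.differentiable.comp differentiable_fst).prodMk
          (P.differentiable.comp differentiable_snd)))
      zero := by
        intro y hy
        apply Subtype.ext
        show ((Q (S.s ((y : V), P 0)) : ρ.fixedBy N) : V) = y
        rw [hQ _ (hs y y.2 0), map_zero]
        exact S.zero y hy
      maps := by
        intro y w hy
        show F ((Q (S.s ((y : V), P w)) : ρ.fixedBy N) : V) = 0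
        rw [hQ _ (hs y y.2 w)]
        exact S.maps y (P w) hy
      equi := by
        intro g y w
        apply Subtype.ext
        show PV (S.s (ρ.act g (y : V), P (σ.act g w))) = ρ.act g (PV (S.s ((y : V), P w)))
        rw [hPe, S.equi, hPVe] }
  refine ⟨W, iW1, iW2, iW3, σ, S', ?_⟩
  intro y hy τ hτ
  have h1 : HasFDerivAt (fun v : ρ.fixedBy N => F v)
      ((fderiv ℂ F (y : V)).comp (ρ.fixedBy N).subtypeL) y :=
    (hF (y : V)).hasFDerivAt.comp y (ρ.fixedBy N).subtypeL.hasFDerivAt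
  rw [h1.fderiv] at hτ
  obtain ⟨w, hw⟩ := hdom (y : V) hy (τ : V) hτ
  have h2 : fderiv ℂ (fun w : W => S.s ((y : V), w)) 0 (P w) = (τ : V) := by
    refine hP2 V _ w (τ : V) fun k hk => ?_
    rw [IOG.deriv_equi S (y : V) k (y.2 k (hK.1 hk)) w, hw]
    exact τ.2 k (hK.1 hk)
  have h3 : HasFDerivAt (fun w : W => S.s ((y : V), w))
      (fderiv ℂ (fun w : W => S.s ((y : V), w)) 0) (P 0) := by
    rw [map_zero]
    exact (IOG.diff_snd S (y : V) 0).hasFDerivAt
  have h4 : HasFDerivAt (fun w : W => Q (S.s ((y : V), P w)))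
      (Q.comp ((fderiv ℂ (fun w : W => S.s ((y : V), w)) 0).comp P)) 0 :=
    Q.hasFDerivAt.comp (0 : W) (h3.comp (0 : W) P.hasFDerivAt)
  refine ⟨w, ?_⟩
  show fderiv ℂ (fun w : W => Q (S.s ((y : V), P w))) 0 w = τ
  rw [h4.fderiv]
  apply Subtype.ext
  show ((Q (fderiv ℂ (fun w : W => S.s ((y : V), w)) 0 (P w)) : ρ.fixedBy N) : V) = τ
  rw [h2]
  exact hQ _ τ.2

end Pool.Agent.Work.MP_e4a69c_an.SU
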