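import Pool.Agent.Work.MP_e4a69c_an.SU.Stmts

/-!
# Item ON of block SU: the fixed locus of a G-elliptic hypersurface is elliptic
-/

set_option autoImplicit false

namespace Pool.Agent.Work.MP_e4a69c_an.SU

open scoped Manifold ContDiff Topology

namespace ION

variable {𝔤 : Type} [NormedAddCommGroup 𝔤] [NormedSpace ℂ 𝔤]
  {G : Type} [TopologicalSpace G] [ChartedSpace 𝔤 G] [Group G]
  {V : Type} [NormedAddCommGroup V] [NormedSpace ℂ V]
  {W : Type} [NormedAddCommGroup W] [NormedSpace ℂ W]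

/-- the derivative of the spray in the parameter -/
theorem diff_snd {ρ : GMod 𝔤 G V} {F : V → ℂ} {σ : GMod 𝔤 G W} (S : Spray ρ F σ) (y : V) :
    Differentiable ℂ fun w : W => S.s (y, w) :=
  S.hol.comp ((differentiable_const y).prodMk differentiable_id)

/-- equivariance of the derivative at fixed points -/
theorem deriv_equi {ρ : GMod 𝔤 G V} {F : V → ℂ} {σ : GMod 𝔤 G W} (S : Spray ρ F σ) (y : V)
    (g : G) (hy : ρ.act g y = y) (w : W) :
    fderiv ℂ (fun w : W => S.s (y, w)) 0 (σ.act g w) =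
      ρ.act g (fderiv ℂ (fun w : W => S.s (y, w)) 0 w) := by
  have h0 : HasFDerivAt (fun w : W => S.s (y, w)) (fderiv ℂ (fun w : W => S.s (y, w)) 0) 0 :=
    (diff_snd S y 0).hasFDerivAt
  have h0' : HasFDerivAt (fun w : W => S.s (y, w)) (fderiv ℂ (fun w : W => S.s (y, w)) 0)
      (σ.act g 0) := by
    rw [map_zero]
    exact h0
  have h1 : HasFDerivAt (fun w : W => S.s (y, σ.act g w))
      ((fderiv ℂ (fun w : W => S.s (y, w)) 0).comp (σ.act g)) 0 :=
    h0'.comp (0 : W) (σ.act g).hasFDerivAt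
  have h2 : HasFDerivAt (fun w : W => ρ.act g (S.s (y, w)))
      ((ρ.act g).comp (fderiv ℂ (fun w : W => S.s (y, w)) 0)) 0 :=
    (ρ.act g).hasFDerivAt.comp (0 : W) h0
  have h3 : (fun w : W => S.s (y, σ.act g w)) = fun w : W => ρ.act g (S.s (y, w)) := by
    funext w
    have h := S.equi g y w
    rw [hy] at h
    exact h
  rw [h3] at h1
  have h4 := h1.unique h2
  exact congrArg (fun T : W →L[ℂ] V => T w) h4

end ION

theorem pr_ON (hAV : StAV) (hKF : StKF) : StON := by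
  intro 𝔤 _ _ G _ _ _ _ K hK V _ _ _ ρ F hF hell
  obtain ⟨W, iW1, iW2, iW3, σ, S, hdom⟩ := hell
  obtain ⟨P, hP1, hP2⟩ := hAV 𝔤 G K hK.1 W σ
  obtain ⟨PV, hPV1, hPV2⟩ := hAV 𝔤 G K hK.1 V ρ
  have hPVf : ∀ v, PV v ∈ ρ.fixed := fun v =>
    hKF 𝔤 G K hK V ρ (PV v) (fun k hk => hPV1 k hk v)
  have hPVid : ∀ v ∈ ρ.fixed, PV v = v := fun v hv =>
    hPV2 V (ContinuousLinearMap.id ℂ V) v v (fun k _ => hv k)
  have hs : ∀ v ∈ ρ.fixed, ∀ w, S.s (v, P w) ∈ ρ.fixed := fun v hv w =>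
    hKF 𝔤 G K hK V ρ _ (fun k hk => by
      have h := S.equi k v (P w)
      rw [hv k, hP1 k hk w] at h
      exact h.symm)
  let Q : V →L[ℂ] ρ.fixed := PV.codRestrict ρ.fixed hPVf
  have hQ : ∀ v ∈ ρ.fixed, ((Q v : ρ.fixed) : V) = v := fun v hv => hPVid v hv
  refine ⟨W, iW1, iW2, iW3, fun x => Q (S.s ((x.1 : V), P x.2)), ?_, ?_, ?_, ?_⟩
  · exact Q.differentiable.comp (S.hol.comp
      ((ρ.fixed.subtypeL.differentiable.comp differentiable_fst).prodMk
        (P.differentiable.comp differentiable_snd)))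
  · intro y hy
    apply Subtype.ext
    show ((Q (S.s ((y : V), P 0)) : ρ.fixed) : V) = y
    rw [hQ _ (hs y y.2 0), map_zero]
    exact S.zero y hy
  · intro y w hy
    show F ((Q (S.s ((y : V), P w)) : ρ.fixed) : V) = 0
    rw [hQ _ (hs y y.2 w)]
    exact S.maps y (P w) hy
  · intro y hy τ hτ
    have h1 : HasFDerivAt (fun v : ρ.fixed => F v)
        ((fderiv ℂ F (y : V)).comp ρ.fixed.subtypeL) y :=
      (hF (y : V)).hasFDerivAt.comp y ρ.fixed.subtypeL.hasFDerivAt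
    rw [h1.fderiv] at hτ
    obtain ⟨w, hw⟩ := hdom (y : V) hy (τ : V) hτ
    have h2 : fderiv ℂ (fun w : W => S.s ((y : V), w)) 0 (P w) = (τ : V) := by
      refine hP2 V _ w (τ : V) fun k hk => ?_
      rw [ION.deriv_equi S (y : V) k (y.2 k) w, hw]
      exact τ.2 k
    have h3 : HasFDerivAt (fun w : W => S.s ((y : V), w))
        (fderiv ℂ (fun w : W => S.s ((y : V), w)) 0) (P 0) := by
      rw [map_zero]
      exact (ION.diff_snd S (y : V) 0).hasFDerivAt
    have h4 : HasFDerivAt (fun w : W => Q (S.s ((y : V), P w)))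
        (Q.comp ((fderiv ℂ (fun w : W => S.s ((y : V), w)) 0).comp P)) 0 :=
      Q.hasFDerivAt.comp (0 : W) (h3.comp (0 : W) P.hasFDerivAt)
    refine ⟨w, ?_⟩
    show fderiv ℂ (fun w : W => Q (S.s ((y : V), P w))) 0 w = τ
    rw [h4.fderiv]
    apply Subtype.ext
    show ((Q (fderiv ℂ (fun w : W => S.s ((y : V), w)) 0 (P w)) : ρ.fixed) : V) = τ
    rw [h2]
    exact hQ _ τ.2

end Pool.Agent.Work.MP_e4a69c_an.SU
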