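import Pool.Agent.Work.MP_e4a69c_an.SU.Stmts

/-! Item PI of theorem SU: holomorphic dependence of an integral on parameters. -/

set_option autoImplicit false

namespace Pool.Agent.Work.MP_e4a69c_an.SU

open scoped Manifold ContDiff Topology

open MeasureTheory

theorem pr_PI (hGO : StGO) : StPI := by
  intro E H _ _ _ _ _ _ D hD
  have hD' : Continuous (fderiv ℂ D) := (hGO E H D hD).continuous
  have hDc : Continuous D := hD.continuous
  have hprop : ProperSpace E := FiniteDimensional.proper ℂ E
  let T : ℝ → (E × E →L[ℂ] E) := fun τ =>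
    ContinuousLinearMap.fst ℂ E E + (τ : ℂ) • ContinuousLinearMap.snd ℂ E E
  have hT : Continuous T := by
    have h1 : Continuous (fun τ : ℝ => (τ : ℂ) • ContinuousLinearMap.snd ℂ E E) :=
      Complex.continuous_ofReal.smul continuous_const
    exact continuous_const.add h1
  let F' : E × E → ℝ → (E × E →L[ℂ] H) := fun x τ =>
    (fderiv ℂ D (x.1 + (τ : ℂ) • x.2)).comp (T τ)
  have hpt : Continuous (fun q : (E × E) × ℝ => q.1.1 + (q.2 : ℂ) • q.1.2) :=
    (continuous_fst.comp continuous_fst).add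
      ((Complex.continuous_ofReal.comp continuous_snd).smul (continuous_snd.comp continuous_fst))
  have hF'c : Continuous (fun q : (E × E) × ℝ => F' q.1 q.2) :=
    (hD'.comp hpt).clm_comp (hT.comp continuous_snd)
  have hFc : Continuous (fun q : (E × E) × ℝ => D (q.1.1 + (q.2 : ℂ) • q.1.2)) := hDc.comp hpt
  have hsl : ∀ x : E × E, Continuous (fun τ : ℝ => (x, τ)) := fun x =>
    continuous_const.prodMk continuous_id
  intro x0
  obtain ⟨C, hC⟩ : ∃ C, ∀ q ∈ Metric.closedBall x0 1 ×ˢ Set.uIcc (0 : ℝ) 1, ‖F' q.1 q.2‖ ≤ C :=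
    ((isCompact_closedBall x0 1).prod isCompact_uIcc).exists_bound_of_continuousOn
      hF'c.continuousOn
  have key := intervalIntegral.hasFDerivAt_integral_of_dominated_of_fderiv_le (𝕜 := ℂ)
    (μ := volume) (s := Metric.closedBall x0 1) (bound := fun _ => C)
    (F := fun (x : E × E) (τ : ℝ) => D (x.1 + (τ : ℂ) • x.2)) (F' := F') (x₀ := x0)
    (a := 0) (b := 1) (Metric.closedBall_mem_nhds x0 one_pos)
    (Filter.Eventually.of_forall fun x => (hFc.comp (hsl x)).aestronglyMeasurable)
    ((hFc.comp (hsl x0)).intervalIntegrable 0 1)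
    (hF'c.comp (hsl x0)).aestronglyMeasurable
    (Filter.Eventually.of_forall fun τ hτ x hx =>
      hC (x, τ) ⟨hx, Set.uIoc_subset_uIcc hτ⟩)
    intervalIntegrable_const
    (Filter.Eventually.of_forall fun τ _ x _ => by
      have h1 : HasFDerivAt (fun x : E × E => x.1 + (τ : ℂ) • x.2) (T τ) x := (T τ).hasFDerivAt
      exact ((hD (x.1 + (τ : ℂ) • x.2)).hasFDerivAt).comp x h1)
  exact key.differentiableAt

end Pool.Agent.Work.MP_e4a69c_an.SU
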