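import Pool.Agent.Work.MP_e4a69c_an.SU.Stmts2

set_option autoImplicit false

namespace Pool.Agent.Work.MP_e4a69c_an.SU

open scoped Manifold ContDiff Topology

theorem pr_PS (hFD : StFD) : StPS := by
  intro 𝔤 _ _ G _ _ _ _ M B _ _ _ _ ρM ρL ρB p hp hs heq
  obtain ⟨h1, h2⟩ := hFD M B p hp
  refine ⟨h1.neg, ?_, ?_⟩
  · rintro ⟨x, ξ, z⟩ h0 hd
    have h3 : ∀ τ, fderiv ℂ (susp (M := M) p) (x, ξ, z) τ = 0 := by
      intro τ
      have h4 : fderiv ℂ (fun u : M × (M →L[ℂ] ℂ) × B => -(susp p u)) (x, ξ, z) τ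
          = - (fderiv ℂ (susp (M := M) p) (x, ξ, z) τ) := by
        rw [fderiv_fun_neg]
        rfl
      rw [hd] at h4
      exact neg_eq_zero.mp h4.symm
    have h5 : ∀ τ : M × (M →L[ℂ] ℂ) × B, ξ τ.1 + τ.2.1 x - fderiv ℂ p z τ.2.2 = 0 := by
      intro τ
      have h6 := h2 (x, ξ, z) τ
      rw [h3] at h6
      exact h6.symm
    have hξ : ξ = 0 := by
      ext m
      have := h5 (m, 0, 0)
      simpa using this
    have hdz : fderiv ℂ p z = 0 := by
      ext b
      have := h5 (0, 0, b)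
      simpa using this
    have hpz : p z = 0 := by
      have h7 : -(ξ x - p z) = 0 := h0
      rw [hξ, zero_apply] at h7
      simpa using h7
    exact hs z hpz hdz
  · rintro g ⟨x, ξ, z⟩
    show -(ρL.act g (ξ (ρM.act g⁻¹ (ρM.act g x))) - p (ρB.act g z)) = ρL.act g (-(ξ x - p z))
    rw [GMod.act_inv_act, heq, map_neg, map_sub]

end Pool.Agent.Work.MP_e4a69c_an.SU
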