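import Pool.Agent.Work.MP_e4a69c_an.SU.Stmts

set_option autoImplicit false

namespace Pool.Agent.Work.MP_e4a69c_an.SU

open scoped Manifold ContDiff Topology

theorem pr_QD (hGO : StGO) (hPI : StPI) : StQD := by
  intro B _ _ _ p hp
  exact hPI B (B →L[ℂ] ℂ) (fderiv ℂ p) (hGO B ℂ p hp)

end Pool.Agent.Work.MP_e4a69c_an.SU
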