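import Pool.Agent.Work.MP_e4a69c_an.SU.Stmts

/-!
# Block SU, item QE: equivariance of q
-/

set_option autoImplicit false

namespace Pool.Agent.Work.MP_e4a69c_an.SU

open scoped Manifold ContDiff Topology

namespace IQE

theorem chain {B : Type} [NormedAddCommGroup B] [NormedSpace ℂ B] (p : B → ℂ) (R : B →L[ℂ] B)
    (L : ℂ →L[ℂ] ℂ) (hp : Differentiable ℂ p) (h : ∀ z, p (R z) = L (p z)) (w c : B) :
    fderiv ℂ p (R w) (R c) = L (fderiv ℂ p w c) := by
  have h1 : HasFDerivAt (fun z => p (R z)) ((fderiv ℂ p (R w)).comp R) w :=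
    (hp (R w)).hasFDerivAt.comp w R.hasFDerivAt
  have h2 : HasFDerivAt (fun z => L (p z)) (L.comp (fderiv ℂ p w)) w :=
    L.hasFDerivAt.comp w (hp w).hasFDerivAt
  have h3 : (fun z => p (R z)) = fun z => L (p z) := funext h
  rw [h3] at h1
  have h4 := h1.unique h2
  have h5 := congrArg (fun T : B →L[ℂ] ℂ => T c) h4
  exact h5

theorem cont (hGO : StGO) {B : Type} [NormedAddCommGroup B] [NormedSpace ℂ B]
    [FiniteDimensional ℂ B] (p : B → ℂ) (hp : Differentiable ℂ p) (z b : B) :
    Continuous fun τ : ℝ => fderiv ℂ p (z + (τ : ℂ) • b) := by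
  have h1 : Continuous (fderiv ℂ p) := (hGO B ℂ p hp).continuous
  have h2 : Continuous fun τ : ℝ => z + (τ : ℂ) • b := by fun_prop
  exact h1.comp h2

theorem qq_apply (hGO : StGO) {B : Type} [NormedAddCommGroup B] [NormedSpace ℂ B]
    [FiniteDimensional ℂ B] (p : B → ℂ) (hp : Differentiable ℂ p) (z b c : B) :
    qq p z b c = ∫ τ in (0 : ℝ)..1, fderiv ℂ p (z + (τ : ℂ) • b) c := by
  unfold qq
  exact ContinuousLinearMap.intervalIntegral_apply ((cont hGO p hp z b).intervalIntegrable 0 1) c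

end IQE

open IQE in
theorem pr_QE (hGO : StGO) : StQE := by
  intro B _ _ _ p R L hp h z b c
  rw [qq_apply hGO p hp, qq_apply hGO p hp]
  have hint : IntervalIntegrable (fun τ : ℝ => fderiv ℂ p (z + (τ : ℂ) • b) c)
      MeasureTheory.volume 0 1 :=
    ((cont hGO p hp z b).clm_apply continuous_const).intervalIntegrable 0 1
  rw [← L.intervalIntegral_comp_comm hint]
  refine intervalIntegral.integral_congr fun τ _ => ?_
  show fderiv ℂ p (R z + (τ : ℂ) • R b) (R c) = L (fderiv ℂ p (z + (τ : ℂ) • b) c)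
  rw [← map_smul, ← map_add]
  exact chain p R L hp h _ c

end Pool.Agent.Work.MP_e4a69c_an.SU
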