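import Pool.Agent.Work.MP_e4a69c_an.SU.Stmts

/-!
# Block SU, item QH: the Hadamard integral
-/

set_option autoImplicit false

namespace Pool.Agent.Work.MP_e4a69c_an.SU

open scoped Manifold ContDiff Topology

namespace IQH

/-- The derivative of `p` along a line. -/
theorem hasDeriv {B : Type} [NormedAddCommGroup B] [NormedSpace ℂ B] (p : B → ℂ)
    (hp : Differentiable ℂ p) (z b : B) (τ : ℝ) :
    HasDerivAt (fun τ : ℝ => p (z + (τ : ℂ) • b)) (fderiv ℂ p (z + (τ : ℂ) • b) b) τ := by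
  have h1 : HasDerivAt (fun w : ℂ => z + w • b) ((1 : ℂ) • b) (τ : ℂ) :=
    ((hasDerivAt_id (τ : ℂ)).smul_const b).const_add z
  have h2 : HasDerivAt (fun w : ℂ => p (z + w • b))
      (fderiv ℂ p (z + (τ : ℂ) • b) ((1 : ℂ) • b)) (τ : ℂ) :=
    (hp (z + (τ : ℂ) • b)).hasFDerivAt.comp_hasDerivAt (τ : ℂ) h1
  rw [one_smul] at h2
  exact h2.comp_ofReal

/-- The integrand is continuous. -/
theorem cont {B : Type} [NormedAddCommGroup B] [NormedSpace ℂ B] (p : B → ℂ)
    (hd : Continuous (fderiv ℂ p)) (z b : B) :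
    Continuous fun τ : ℝ => fderiv ℂ p (z + (τ : ℂ) • b) :=
  hd.comp (continuous_const.add (Complex.continuous_ofReal.smul continuous_const))

end IQH

/-- Item QH. -/
theorem pr_QH (hGO : StGO) : StQH := by
  intro B _ _ _ p hp
  have hd : Continuous (fderiv ℂ p) := (hGO B ℂ p hp).continuous
  refine ⟨fun z b => ?_, fun z => ?_, fun z b => ?_⟩
  · have h1 : qq p z b b = ∫ τ in (0 : ℝ)..1, fderiv ℂ p (z + (τ : ℂ) • b) b := by
      unfold qq
      exact ContinuousLinearMap.intervalIntegral_apply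
        ((IQH.cont p hd z b).intervalIntegrable 0 1) b
    have h2 : ∫ τ in (0 : ℝ)..1, fderiv ℂ p (z + (τ : ℂ) • b) b =
        p (z + ((1 : ℝ) : ℂ) • b) - p (z + ((0 : ℝ) : ℂ) • b) :=
      intervalIntegral.integral_eq_sub_of_hasDerivAt (fun τ _ => IQH.hasDeriv p hp z b τ)
        (((IQH.cont p hd z b).clm_apply continuous_const).intervalIntegrable 0 1)
    rw [h1, h2, Complex.ofReal_one, one_smul, Complex.ofReal_zero, zero_smul, add_zero]
  · unfold qq
    have h1 : (fun τ : ℝ => fderiv ℂ p (z + (τ : ℂ) • (0 : B))) = fun _ => fderiv ℂ p z := by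
      funext τ
      rw [smul_zero, add_zero]
    rw [h1, intervalIntegral.integral_const, sub_zero, one_smul]
  · unfold qq
    have h1 : (fun τ : ℝ => fderiv ℂ p (z + b + (τ : ℂ) • (-b))) =
        fun τ : ℝ => (fun σ : ℝ => fderiv ℂ p (z + (σ : ℂ) • b)) (1 - τ) := by
      funext τ
      have h2 : z + b + (τ : ℂ) • (-b) = z + ((1 - τ : ℝ) : ℂ) • b := by
        rw [Complex.ofReal_sub, Complex.ofReal_one, sub_smul, one_smul, smul_neg]
        abel
      rw [h2]
    rw [h1, intervalIntegral.integral_comp_sub_left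
      (fun σ : ℝ => fderiv ℂ p (z + (σ : ℂ) • b)) 1, sub_self, sub_zero]

end Pool.Agent.Work.MP_e4a69c_an.SU
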