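import Pool.Agent.Work.MP_e4a69c_an.SU.Stmts

set_option autoImplicit false

namespace Pool.Agent.Work.MP_e4a69c_an.SU

open scoped Manifold ContDiff Topology

open NormedSpace

theorem ISG.inv {A : Type} [NormedRing A] [NormedAlgebra ℂ A] [CompleteSpace A] (a : A) :
    exp (-a) * exp a = 1 := by
  let _ : NormedAlgebra ℚ A := NormedAlgebra.restrictScalars ℚ ℂ A
  rw [← exp_add_of_commute ((Commute.refl a).neg_left)]
  simp

theorem ISG.semi {A : Type} [NormedRing A] [NormedAlgebra ℂ A] [CompleteSpace A] {x a b : A}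
    (h : x * a = b * x) : x * exp a = exp b * x := by
  let _ : NormedAlgebra ℚ A := NormedAlgebra.restrictScalars ℚ ℂ A
  have h1 : SemiconjBy x a b := h
  exact h1.exp_right

theorem ISG.der {M N B : Type} [NormedAddCommGroup M] [NormedSpace ℂ M] [CompleteSpace M]
    [NormedAddCommGroup N] [NormedSpace ℂ N] [NormedAddCommGroup B] [NormedSpace ℂ B]
    (x : M) (ξ : M →L[ℂ] N) (z : B) (A : M →L[ℂ] M) :
    fderiv ℂ (fun A : M →L[ℂ] M => (exp A x, ξ.comp (exp (-A)), z)) 0 A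
      = (A x, -(ξ.comp A), 0) := by
  have h1 : HasFDerivAt (exp : (M →L[ℂ] M) → (M →L[ℂ] M))
      (ContinuousLinearMap.id ℂ (M →L[ℂ] M)) 0 :=
    hasFDerivAt_exp_zero
  have h2 : HasFDerivAt (fun A : M →L[ℂ] M => exp A x)
      ((ContinuousLinearMap.apply ℂ M x).comp (ContinuousLinearMap.id ℂ (M →L[ℂ] M))) 0 :=
    HasFDerivAt.comp (0 : M →L[ℂ] M) (g := fun A : M →L[ℂ] M => A x)
      (ContinuousLinearMap.apply ℂ M x).hasFDerivAt h1
  have h3 : HasFDerivAt (fun A : M →L[ℂ] M => exp (-A))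
      ((ContinuousLinearMap.id ℂ (M →L[ℂ] M)).comp (-(ContinuousLinearMap.id ℂ (M →L[ℂ] M)))) 0 :=
    HasFDerivAt.comp (0 : M →L[ℂ] M) (g := (exp : (M →L[ℂ] M) → (M →L[ℂ] M)))
      (f := fun A : M →L[ℂ] M => -A)
      (by rw [neg_zero]; exact h1) (hasFDerivAt_id (𝕜 := ℂ) (0 : M →L[ℂ] M)).neg
  have h4 : HasFDerivAt (fun A : M →L[ℂ] M => ξ.comp (exp (-A)))
      (((ContinuousLinearMap.compL ℂ M M N) ξ).comp
        ((ContinuousLinearMap.id ℂ (M →L[ℂ] M)).comp (-(ContinuousLinearMap.id ℂ (M →L[ℂ] M)))))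
        0 :=
    HasFDerivAt.comp (0 : M →L[ℂ] M) (g := fun A : M →L[ℂ] M => ξ.comp A)
      ((ContinuousLinearMap.compL ℂ M M N) ξ).hasFDerivAt h3
  have h5 := h2.prodMk (h4.prodMk (hasFDerivAt_const z (0 : M →L[ℂ] M)))
  rw [h5.fderiv]
  refine Prod.ext rfl (Prod.ext ?_ rfl)
  ext m
  simp

theorem pr_SG : StSG := by
  intro 𝔤 _ _ G _ _ _ _ M B _ _ _ _ _ _ ρM ρL ρB p hp
  have : CompleteSpace M := FiniteDimensional.complete ℂ M
  have hexp : Differentiable ℂ (exp : (M →L[ℂ] M) → (M →L[ℂ] M)) :=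
    fun A => (exp_analytic (𝕂 := ℂ) A).differentiableAt
  have hconj : ∀ (g : G) (A : M →L[ℂ] M) (x : M),
      exp ((ρM.hom ρM).act g A) (ρM.act g x) = ρM.act g (exp A x) := by
    intro g A x
    have h1 : ρM.act g * A = (ρM.hom ρM).act g A * ρM.act g := by
      ext u
      show ρM.act g (A u) = (ρM.hom ρM).act g A (ρM.act g u)
      rw [GMod.hom_act, GMod.act_inv_act]
    have h2 := ISG.semi h1
    have h3 : (ρM.act g * exp A) x = (exp ((ρM.hom ρM).act g A) * ρM.act g) x := by rw [h2]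
    exact h3.symm
  let S : Spray (suspMod ρM ρL ρB) (susp p) (ρM.hom ρM) :=
    { s := fun x => (exp x.2 x.1.1, x.1.2.1.comp (exp (-x.2)), x.1.2.2)
      hol := by
        have ha : Differentiable ℂ (fun x : (M × (M →L[ℂ] ℂ) × B) × (M →L[ℂ] M) =>
            exp x.2) := hexp.comp differentiable_snd
        have hb : Differentiable ℂ (fun x : (M × (M →L[ℂ] ℂ) × B) × (M →L[ℂ] M) =>
            exp (-x.2)) := hexp.comp differentiable_snd.neg
        exact (ha.clm_apply differentiable_fst.fst).prodMk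
          ((differentiable_fst.snd.fst.clm_comp hb).prodMk differentiable_fst.snd.snd)
      zero := by
        rintro ⟨x, ξ, z⟩ _
        simp only [neg_zero, exp_zero]
        rfl
      maps := by
        rintro ⟨x, ξ, z⟩ A hy
        have h2 : ξ x - p z = 0 := hy
        show ξ (exp (-A) (exp A x)) - p z = 0
        have h3 : exp (-A) (exp A x) = x := by
          have h4 : (exp (-A) * exp A) x = x := by rw [ISG.inv A]; rfl
          exact h4
        rw [h3]
        exact h2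
      equi := by
        rintro g ⟨x, ξ, z⟩ A
        refine Prod.ext (hconj g A x) (Prod.ext ?_ rfl)
        ext m
        show ρL.act g (ξ (ρM.act g⁻¹ (exp (-((ρM.hom ρM).act g A)) m)))
          = ρL.act g (ξ (exp (-A) (ρM.act g⁻¹ m)))
        have h5 := hconj g (-A) (ρM.act g⁻¹ m)
        rw [GMod.act_act_inv, map_neg] at h5
        rw [h5, GMod.act_inv_act] }
  refine ⟨M →L[ℂ] M, inferInstance, inferInstance, inferInstance, ρM.hom ρM, S, ?_⟩
  rintro ⟨x, ξ, z⟩ hy τ ⟨A, rfl⟩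
  exact ⟨A, ISG.der x ξ z A⟩

end Pool.Agent.Work.MP_e4a69c_an.SU
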