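import Pool.Agent.Work.MP_e4a69c_an.SU.Stmts

set_option autoImplicit false

namespace Pool.Agent.Work.MP_e4a69c_an.SU

open scoped Manifold ContDiff Topology

theorem ISM.hol {B N : Type} [NormedAddCommGroup B] [NormedSpace ℂ B]
    [NormedAddCommGroup N] [NormedSpace ℂ N] {p : B → ℂ}
    (hq : Differentiable ℂ (fun x : B × B => qq p x.1 x.2)) :
    Differentiable ℂ (fun x : (N × B) × (N →L[ℂ] B) => x.2 x.1.1) ∧
    Differentiable ℂ (fun x : (N × B) × (N →L[ℂ] B) => (qq p x.1.2 (x.2 x.1.1)).comp x.2) := by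
  have ha : Differentiable ℂ (fun x : (N × B) × (N →L[ℂ] B) => x.2 x.1.1) :=
    Differentiable.clm_apply differentiable_snd differentiable_fst.fst
  have hb : Differentiable ℂ (fun x : (N × B) × (N →L[ℂ] B) => qq p x.1.2 (x.2 x.1.1)) :=
    hq.comp (differentiable_fst.snd.prodMk ha)
  exact ⟨ha, hb.clm_comp differentiable_snd⟩

theorem ISM.der {B N : Type} [NormedAddCommGroup B] [NormedSpace ℂ B]
    [NormedAddCommGroup N] [NormedSpace ℂ N] {p : B → ℂ}
    (hq : Differentiable ℂ (fun x : B × B => qq p x.1 x.2))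
    (z : B) (n : N) (h0 : qq p z 0 = fderiv ℂ p z) :
    ∃ (L : (N →L[ℂ] B) →L[ℂ] (N →L[ℂ] ℂ)) (E : (N →L[ℂ] B) →L[ℂ] B),
      (∀ t, L t = (fderiv ℂ p z).comp t) ∧ (∀ t, E t = t n) ∧
      HasFDerivAt (fun t : N →L[ℂ] B => (qq p z (t n)).comp t) L 0 ∧
      HasFDerivAt (fun t : N →L[ℂ] B => t n) E 0 := by
  have hE : HasFDerivAt (fun t : N →L[ℂ] B => t n) (ContinuousLinearMap.apply ℂ B n) 0 :=
    (ContinuousLinearMap.apply ℂ B n).hasFDerivAt
  have hqa : DifferentiableAt ℂ (fun t : N →L[ℂ] B => qq p z (t n)) 0 :=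
    (hq.comp ((differentiable_const z).prodMk
      ((ContinuousLinearMap.apply ℂ B n).differentiable))) 0
  have hc := hqa.hasFDerivAt.clm_comp (hasFDerivAt_id (𝕜 := ℂ) (0 : N →L[ℂ] B))
  refine ⟨_, _, ?_, fun t => rfl, hc, hE⟩
  intro t
  ext m
  simp [h0]

theorem ISM.hol2 {B N M : Type} [NormedAddCommGroup B] [NormedSpace ℂ B]
    [NormedAddCommGroup N] [NormedSpace ℂ N] [NormedAddCommGroup M] [NormedSpace ℂ M] {p : B → ℂ}
    (J : (N →L[ℂ] ℂ) →L[ℂ] M)
    (hq : Differentiable ℂ (fun x : B × B => qq p x.1 x.2)) :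
    Differentiable ℂ (fun x : (M × N × B) × (N →L[ℂ] B) =>
      (x.1.1 + J ((qq p x.1.2.2 (x.2 x.1.2.1)).comp x.2), x.1.2.1, x.1.2.2 + x.2 x.1.2.1)) := by
  obtain ⟨ha, hb⟩ := ISM.hol (N := N) hq
  have hπ : Differentiable ℂ (fun x : (M × N × B) × (N →L[ℂ] B) => (x.1.2, x.2)) :=
    differentiable_fst.snd.prodMk differentiable_snd
  have ha' := ha.comp hπ
  have hb' := J.differentiable.comp (hb.comp hπ)
  exact (differentiable_fst.fst.add hb').prodMk
    (differentiable_fst.snd.fst.prodMk (differentiable_fst.snd.snd.add ha'))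

theorem ISM.der2 {B N M : Type} [NormedAddCommGroup B] [NormedSpace ℂ B]
    [NormedAddCommGroup N] [NormedSpace ℂ N] [NormedAddCommGroup M] [NormedSpace ℂ M] {p : B → ℂ}
    (J : (N →L[ℂ] ℂ) →L[ℂ] M)
    (hq : Differentiable ℂ (fun x : B × B => qq p x.1 x.2))
    (x : M) (z : B) (n : N) (h0 : qq p z 0 = fderiv ℂ p z) (t : N →L[ℂ] B) :
    fderiv ℂ (fun w : N →L[ℂ] B => (x + J ((qq p z (w n)).comp w), n, z + w n)) 0 t
      = (J ((fderiv ℂ p z).comp t), 0, t n) := by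
  obtain ⟨L, E, hL, hE, hLd, hEd⟩ := ISM.der (N := N) hq z n h0
  have hJc : HasFDerivAt (fun w : N →L[ℂ] B => J ((qq p z (w n)).comp w)) (J.comp L) 0 :=
    HasFDerivAt.comp (0 : N →L[ℂ] B) (g := J) (f := fun w : N →L[ℂ] B => (qq p z (w n)).comp w)
      J.hasFDerivAt hLd
  have hS := (hJc.const_add x).prodMk ((hasFDerivAt_const n (0 : N →L[ℂ] B)).prodMk
      (hEd.const_add z))
  rw [hS.fderiv]
  refine Prod.ext ?_ (Prod.ext rfl (hE t))
  show J (L t) = _
  rw [hL]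

theorem pr_SM (hQD : StQD) (hQH : StQH) (hQE : StQE) (hBD : StBD) : StSM := by
  intro 𝔤 _ _ G _ _ _ _ M B _ _ _ _ _ _ ρM ρL ρB p hp heq
  have hq := hQD B p hp
  obtain ⟨J, hJ⟩ := hBD M
  have hsep : ∀ u v : M, (∀ ζ : M →L[ℂ] ℂ, ζ u = ζ v) → u = v := by
    intro u v h
    by_contra hne
    obtain ⟨l, hl⟩ := SeparatingDual.exists_ne_zero (R := ℂ) (sub_ne_zero.mpr hne)
    exact hl (by rw [map_sub, h l, sub_self])
  let S : Spray (suspMod ρM ρL ρB) (susp p) ((ρM.hom ρL).hom ρB) :=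
    { s := fun x => (x.1.1 + J ((qq p x.1.2.2 (x.2 x.1.2.1)).comp x.2), x.1.2.1,
        x.1.2.2 + x.2 x.1.2.1)
      hol := by
        exact ISM.hol2 (N := M →L[ℂ] ℂ) J hq
      zero := by
        rintro ⟨x, ξ, z⟩ _
        simp
      maps := by
        rintro ⟨x, ξ, z⟩ t hy
        have h1 := (hQH B p hp).1 z (t ξ)
        have h2 : ξ x - p z = 0 := hy
        show ξ (x + J ((qq p z (t ξ)).comp t)) - p (z + t ξ) = 0
        rw [map_add, hJ, ContinuousLinearMap.comp_apply, h1]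
        linear_combination h2
      equi := by
        rintro g ⟨x, ξ, z⟩ t
        have h1 : ((ρM.hom ρL).hom ρB).act g t ((ρM.hom ρL).act g ξ) = ρB.act g (t ξ) := by
          rw [GMod.hom_act, GMod.act_inv_act]
        refine Prod.ext ?_ (Prod.ext rfl ?_)
        · show ρM.act g x + J ((qq p (ρB.act g z)
              (((ρM.hom ρL).hom ρB).act g t ((ρM.hom ρL).act g ξ))).comp
                (((ρM.hom ρL).hom ρB).act g t))
            = ρM.act g (x + J ((qq p z (t ξ)).comp t))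
          rw [map_add]
          congr 1
          apply hsep
          intro ζ
          rw [hJ, h1, ContinuousLinearMap.comp_apply, GMod.hom_act,
            hQE B p (ρB.act g) (ρL.act g) hp (heq g)]
          have h2 : ζ (ρM.act g (J ((qq p z (t ξ)).comp t))) =
              ρL.act g (((ρM.hom ρL).act g⁻¹ ζ) (J ((qq p z (t ξ)).comp t))) := by
            rw [GMod.hom_act, inv_inv, GMod.act_act_inv]
          rw [h2, hJ]
          rfl
        · show ρB.act g z + ((ρM.hom ρL).hom ρB).act g t ((ρM.hom ρL).act g ξ)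
            = ρB.act g (z + t ξ)
          rw [h1, map_add] }
  refine ⟨(M →L[ℂ] ℂ) →L[ℂ] B, inferInstance, inferInstance, inferInstance,
    (ρM.hom ρL).hom ρB, S, ?_⟩
  rintro ⟨x, ξ, z⟩ hy τ ⟨t, m, hm, rfl⟩
  refine ⟨t, ?_⟩
  have h5 := ISM.der2 (N := M →L[ℂ] ℂ) J hq x z ξ ((hQH B p hp).2.1 z) t
  have h6 : m = J ((fderiv ℂ p z).comp t) := by
    apply hsep
    intro ζ
    rw [hJ, hm ζ]
    rfl
  rw [h6]
  exact h5

end Pool.Agent.Work.MP_e4a69c_an.SU
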