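import Pool.Agent.Work.MP_e4a69c_an.SU.Stmts

set_option autoImplicit false

namespace Pool.Agent.Work.MP_e4a69c_an.SU

open scoped Manifold ContDiff Topology

theorem pr_SP (hQD : StQD) (hQH : StQH) (hQE : StQE) : StSP := by
  intro 𝔤 _ _ G _ _ _ _ M B _ _ _ _ _ _ ρM ρL ρB p hp heq
  have hq := hQD B p hp
  let S : Spray (suspMod ρM ρL ρB) (susp p) (ρM.hom ρB) :=
    { s := fun x => (x.1.1, x.1.2.1 + (qq p x.1.2.2 (x.2 x.1.1)).comp x.2, x.1.2.2 + x.2 x.1.1)
      hol := by
        have ha : Differentiable ℂ (fun x : (M × (M →L[ℂ] ℂ) × B) × (M →L[ℂ] B) => x.2 x.1.1) :=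
          Differentiable.clm_apply differentiable_snd differentiable_fst.fst
        have hb : Differentiable ℂ (fun x : (M × (M →L[ℂ] ℂ) × B) × (M →L[ℂ] B) =>
            qq p x.1.2.2 (x.2 x.1.1)) :=
          hq.comp (differentiable_fst.snd.snd.prodMk ha)
        exact differentiable_fst.fst.prodMk ((differentiable_fst.snd.fst.add
          (hb.clm_comp differentiable_snd)).prodMk (differentiable_fst.snd.snd.add ha))
      zero := by
        rintro ⟨x, ξ, z⟩ _
        simp
      maps := by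
        rintro ⟨x, ξ, z⟩ t hy
        have h1 := (hQH B p hp).1 z (t x)
        have h2 : ξ x - p z = 0 := hy
        show (ξ + (qq p z (t x)).comp t) x - p (z + t x) = 0
        rw [add_apply, ContinuousLinearMap.comp_apply, h1]
        linear_combination h2
      equi := by
        rintro g ⟨x, ξ, z⟩ t
        have h1 : (ρM.hom ρB).act g t (ρM.act g x) = ρB.act g (t x) := by
          rw [GMod.hom_act, GMod.act_inv_act]
        refine Prod.ext rfl (Prod.ext ?_ ?_)
        · ext m
          show (ρM.hom ρL).act g ξ m + qq p (ρB.act g z) ((ρM.hom ρB).act g t (ρM.act g x))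
            ((ρM.hom ρB).act g t m) = ρL.act g ((ξ + (qq p z (t x)).comp t) (ρM.act g⁻¹ m))
          rw [h1, GMod.hom_act, GMod.hom_act, hQE B p (ρB.act g) (ρL.act g) hp (heq g)]
          rw [add_apply, map_add]
          rfl
        · show ρB.act g z + (ρM.hom ρB).act g t (ρM.act g x) = ρB.act g (z + t x)
          rw [h1, map_add] }
  refine ⟨M →L[ℂ] B, inferInstance, inferInstance, inferInstance, ρM.hom ρB, S, ?_⟩
  rintro ⟨x, ξ, z⟩ hy τ ⟨t, rfl⟩
  refine ⟨t, ?_⟩
  have hE : HasFDerivAt (fun t : M →L[ℂ] B => t x) (ContinuousLinearMap.apply ℂ B x) 0 :=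
    (ContinuousLinearMap.apply ℂ B x).hasFDerivAt
  have hqa : DifferentiableAt ℂ (fun t : M →L[ℂ] B => qq p z (t x)) 0 :=
    (hq.comp ((differentiable_const z).prodMk
      ((ContinuousLinearMap.apply ℂ B x).differentiable))) 0
  have hc := hqa.hasFDerivAt.clm_comp (hasFDerivAt_id (𝕜 := ℂ) (0 : M →L[ℂ] B))
  have hS : HasFDerivAt (fun w : M →L[ℂ] B => S.s ((x, ξ, z), w)) _ 0 :=
    (hasFDerivAt_const x (0 : M →L[ℂ] B)).prodMk ((hc.const_add ξ).prodMk (hE.const_add z))
  rw [hS.fderiv]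
  refine Prod.ext rfl (Prod.ext ?_ rfl)
  ext m
  simp [(hQH B p hp).2.1 z]

end Pool.Agent.Work.MP_e4a69c_an.SU
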