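import Pool.Agent.Work.MP_e4a69c_an.SU.Stmts

/-! Block SU of MP_e4a69c_an, item SZ: lift of a spray of `{p = 0}` to the suspension. -/

set_option autoImplicit false

namespace Pool.Agent.Work.MP_e4a69c_an.SU

open scoped Manifold ContDiff Topology

namespace ISZ

/-- the function `(z, w) ↦ p z` has a nonzero differential where it vanishes -/
theorem fd_fst {B W : Type} [NormedAddCommGroup B] [NormedSpace ℂ B]
    [NormedAddCommGroup W] [NormedSpace ℂ W] (p : B → ℂ) (hp : Differentiable ℂ p)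
    (hs : ∀ z, p z = 0 → fderiv ℂ p z ≠ 0) :
    ∀ u : B × W, p u.1 = 0 → fderiv ℂ (fun u : B × W => p u.1) u ≠ 0 := by
  intro u hu h0
  have h1 : HasFDerivAt (fun u : B × W => p u.1)
      ((fderiv ℂ p u.1).comp (ContinuousLinearMap.fst ℂ B W)) u :=
    (hp u.1).hasFDerivAt.comp u hasFDerivAt_fst
  rw [h1.fderiv] at h0
  apply hs u.1 hu
  ext b
  have h2 := DFunLike.congr_fun h0 ((b, 0) : B × W)
  simpa using h2

end ISZ

open ISZ

/-- item SZ -/
theorem pr_SZ (hGD : StGD) (hDN : StDN) : StSZ := by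
  intro 𝔤 _ _ G _ _ _ _ M B _ _ _ _ _ _ ρM ρL ρB p hp hs hpe hE
  obtain ⟨W, iW1, iW2, iW3, σ, Z, hdom⟩ := hE
  -- the corrected spray
  obtain ⟨Z1, hZ1⟩ : ∃ Z1 : B × W → B, ∀ u, Z1 u = Z.s u - Z.s (u.1, 0) + u.1 := ⟨_, fun _ => rfl⟩
  have hZ1d : Differentiable ℂ Z1 := by
    have e : Z1 = fun u => Z.s u - Z.s (u.1, 0) + u.1 := funext hZ1
    rw [e]
    have h1 : Differentiable ℂ (fun u : B × W => Z.s (u.1, 0)) :=
      Z.hol.comp (differentiable_fst.prodMk (differentiable_const _))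
    exact (Z.hol.sub h1).add differentiable_fst
  have hZ10 : ∀ z, Z1 (z, 0) = z := fun z => by
    rw [hZ1]
    simp
  have hZ1C : ∀ z w, p z = 0 → Z1 (z, w) = Z.s (z, w) := fun z w hz => by
    rw [hZ1, Z.zero z hz]
    simp
  have hZ1e : ∀ g z w, Z1 (ρB.act g z, σ.act g w) = ρB.act g (Z1 (z, w)) := by
    intro g z w
    have h0 : Z.s (ρB.act g z, 0) = ρB.act g (Z.s (z, 0)) := by
      have h := Z.equi g z 0
      rwa [map_zero] at h
    rw [hZ1, hZ1]
    show Z.s (ρB.act g z, σ.act g w) - Z.s (ρB.act g z, 0) + ρB.act g z =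
      ρB.act g (Z.s (z, w) - Z.s (z, 0) + z)
    rw [h0, Z.equi, map_add, map_sub]
  -- the factor
  obtain ⟨a, had, ha⟩ := hGD (B × W) (fun u => p u.1) (fun u => p (Z1 u))
    (hp.comp differentiable_fst) (hp.comp hZ1d) (fd_fst p hp hs) (by
      rintro ⟨z, w⟩ hz
      show p (Z1 (z, w)) = 0
      rw [hZ1C z w hz]
      exact Z.maps z w hz)
  have ha' : ∀ u : B × W, p (Z1 u) = a u * p u.1 := ha
  have ha0 : ∀ z, a (z, 0) = 1 := by
    have hc : Continuous (fun z : B => a (z, 0)) :=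
      had.continuous.comp (continuous_id.prodMk continuous_const)
    have h := Continuous.ext_on (hDN B p hs) hc (continuous_const (y := (1 : ℂ))) (by
      intro z hz
      have h1 := ha' (z, 0)
      rw [hZ10] at h1
      show a (z, 0) = 1
      have hz' : p z ≠ 0 := hz
      have h2 : a (z, 0) * p z = 1 * p z := by
        rw [one_mul]
        exact h1.symm
      exact mul_right_cancel₀ hz' h2)
    exact fun z => congrFun h z
  have hdense : Dense {u : B × W | p u.1 ≠ 0} := hDN (B × W) (fun u => p u.1) (fd_fst p hp hs)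
  have hae : ∀ g z w, a (ρB.act g z, σ.act g w) = a (z, w) := by
    intro g
    have hc : Continuous (fun u : B × W => a (ρB.act g u.1, σ.act g u.2)) :=
      had.continuous.comp (((ρB.act g).continuous.comp continuous_fst).prodMk
        ((σ.act g).continuous.comp continuous_snd))
    have h := Continuous.ext_on hdense hc had.continuous (by
      rintro ⟨z, w⟩ hz
      show a (ρB.act g z, σ.act g w) = a (z, w)
      have hz' : p z ≠ 0 := hz
      have hgz : p (ρB.act g z) ≠ 0 := by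
        intro h0
        rw [hpe] at h0
        apply hz'
        have h1 := congrArg (ρL.act g⁻¹) h0
        rw [GMod.act_inv_act, map_zero] at h1
        exact h1
      have h1 := ha' (ρB.act g z, σ.act g w)
      rw [hZ1e, hpe, ha' (z, w)] at h1
      have h2 : ρL.act g (a (z, w) * p z) = a (z, w) * p (ρB.act g z) := by
        rw [hpe, ← smul_eq_mul, map_smul, smul_eq_mul]
      have h3 : ρL.act g (a (z, w) * p z) = a (ρB.act g z, σ.act g w) * p (ρB.act g z) := h1
      rw [h2] at h3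
      exact (mul_right_cancel₀ hgz h3).symm)
    exact fun z w => congrFun h (z, w)
  -- the lifted spray
  have hd1 : Differentiable ℂ (fun v : (M × (M →L[ℂ] ℂ) × B) × W => (v.1.2.2, v.2)) :=
    (differentiable_snd.comp (differentiable_snd.comp differentiable_fst)).prodMk differentiable_snd
  let S : Spray (suspMod ρM ρL ρB) (susp (M := M) p) σ :=
    { s := fun v => (a (v.1.2.2, v.2) • v.1.1, v.1.2.1, Z1 (v.1.2.2, v.2))
      hol := ((had.comp hd1).smul (differentiable_fst.comp differentiable_fst)).prodMk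
        ((differentiable_fst.comp (differentiable_snd.comp differentiable_fst)).prodMk
          (hZ1d.comp hd1))
      zero := by
        rintro ⟨x, ξ, z⟩ _
        show (a (z, 0) • x, ξ, Z1 (z, 0)) = (x, ξ, z)
        rw [ha0, hZ10, one_smul]
      maps := by
        rintro ⟨x, ξ, z⟩ w hy
        have hy' : ξ x - p z = 0 := hy
        show ξ (a (z, w) • x) - p (Z1 (z, w)) = 0
        rw [ha' (z, w), map_smul, smul_eq_mul]
        show a (z, w) * ξ x - a (z, w) * p z = 0
        rw [← mul_sub, hy', mul_zero]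
      equi := by
        rintro g ⟨x, ξ, z⟩ w
        show (a (ρB.act g z, σ.act g w) • ρM.act g x, (ρM.hom ρL).act g ξ,
            Z1 (ρB.act g z, σ.act g w)) =
          (ρM.act g (a (z, w) • x), (ρM.hom ρL).act g ξ, ρB.act g (Z1 (z, w)))
        rw [hae, hZ1e, map_smul] }
  refine ⟨W, iW1, iW2, iW3, σ, S, ?_⟩
  rintro ⟨x, ξ, z⟩ hy τ ⟨b, hx, hξ, hb, hτ⟩
  have hx' : x = 0 := hx
  have hξ' : ξ = 0 := hξ
  have hb' : fderiv ℂ p z b = 0 := hb
  have hy' : ξ x - p z = 0 := hy
  subst hx'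
  subst hξ'
  have hz : p z = 0 := by
    rw [map_zero, zero_sub, neg_eq_zero] at hy'
    exact hy'
  obtain ⟨w, hw⟩ := hdom z hz b hb'
  refine ⟨w, ?_⟩
  rw [hτ, ← hw]
  have hfun : (fun w : W => S.s ((0, 0, z), w)) =
      fun w : W => ((0 : M), (0 : M →L[ℂ] ℂ), Z.s (z, w)) := by
    funext w
    show (a (z, w) • (0 : M), (0 : M →L[ℂ] ℂ), Z1 (z, w)) = _
    rw [smul_zero, hZ1C z w hz]
  rw [hfun]
  have hZd : DifferentiableAt ℂ (fun w : W => Z.s (z, w)) 0 :=
    (Z.hol.comp ((differentiable_const z).prodMk differentiable_id)) 0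
  have hder : HasFDerivAt (fun w : W => ((0 : M), (0 : M →L[ℂ] ℂ), Z.s (z, w)))
      ((0 : W →L[ℂ] M).prod ((0 : W →L[ℂ] (M →L[ℂ] ℂ)).prod
        (fderiv ℂ (fun w : W => Z.s (z, w)) 0))) 0 :=
    (hasFDerivAt_const _ _).prodMk ((hasFDerivAt_const _ _).prodMk hZd.hasFDerivAt)
  rw [hder.fderiv]
  rfl

end Pool.Agent.Work.MP_e4a69c_an.SU
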