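import Pool.Agent.Work.MP_e4a69c_an.SU.Stmts2

set_option autoImplicit false

namespace Pool.Agent.Work.MP_e4a69c_an.SU

open scoped Manifold ContDiff Topology

theorem pr_TR : StTR := by
  intro 𝔤 _ _ G _ _ _ V1 V2 _ _ _ _ ρ1 ρ2 F1 F2 Φ c hc hΦ hF h
  obtain ⟨W, i1, j1, k1, σ, S, d⟩ := h
  have hz : ∀ v, F1 v = 0 → F2 (Φ v) = 0 := by
    intro v hv
    rw [hF] at hv
    exact (mul_eq_zero.mp hv).resolve_left hc
  have hΦ' : ∀ g u, Φ.symm (ρ2.act g u) = ρ1.act g (Φ.symm u) := by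
    intro g u
    apply Φ.injective
    rw [hΦ, Φ.apply_symm_apply, Φ.apply_symm_apply]
  let S' : Spray ρ1 F1 σ :=
    { s := fun x => Φ.symm (S.s (Φ x.1, x.2))
      hol := Φ.symm.differentiable.comp (S.hol.comp
        ((Φ.differentiable.comp differentiable_fst).prodMk differentiable_snd))
      zero := by
        intro y hy
        show Φ.symm (S.s (Φ y, 0)) = y
        rw [S.zero (Φ y) (hz y hy), Φ.symm_apply_apply]
      maps := by
        intro y w hy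
        show F1 (Φ.symm (S.s (Φ y, w))) = 0
        rw [hF, Φ.apply_symm_apply, S.maps _ _ (hz y hy), mul_zero]
      equi := by
        intro g y w
        show Φ.symm (S.s (Φ (ρ1.act g y), σ.act g w)) = ρ1.act g (Φ.symm (S.s (Φ y, w)))
        rw [hΦ, S.equi, hΦ'] }
  refine ⟨W, i1, j1, k1, σ, S', ?_⟩
  intro y hy τ hτ
  have hF1 : F1 = fun v => c * (F2 ∘ Φ) v := by
    funext v
    exact hF v
  have h2 : fderiv ℂ F2 (Φ y) (Φ τ) = 0 := by
    rw [hF1] at hτ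
    have h3 : fderiv ℂ (fun v => c * (F2 ∘ Φ) v) y = c • fderiv ℂ (F2 ∘ Φ) y := by
      have := congrFun (fderiv_const_smul_field (𝕜 := ℂ) (f := F2 ∘ Φ) c) y
      exact this
    rw [h3, Φ.comp_right_fderiv] at hτ
    have h4 : c * fderiv ℂ F2 (Φ y) (Φ τ) = 0 := hτ
    exact (mul_eq_zero.mp h4).resolve_left hc
  obtain ⟨w, hw⟩ := d (Φ y) (hz y hy) (Φ τ) h2
  refine ⟨w, ?_⟩
  have h5 : HasFDerivAt (fun w : W => S.s (Φ y, w)) (fderiv ℂ (fun w : W => S.s (Φ y, w)) 0) 0 := by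
    apply DifferentiableAt.hasFDerivAt
    exact (S.hol.comp ((differentiable_const (Φ y)).prodMk differentiable_id)) 0
  have h6 : HasFDerivAt (fun w : W => Φ.symm (S.s (Φ y, w)))
      ((Φ.symm : V2 →L[ℂ] V1).comp (fderiv ℂ (fun w : W => S.s (Φ y, w)) 0)) 0 :=
    HasFDerivAt.comp (0 : W) (g := Φ.symm) (f := fun w : W => S.s (Φ y, w))
      Φ.symm.hasFDerivAt h5
  show fderiv ℂ (fun w : W => Φ.symm (S.s (Φ y, w))) 0 w = τ
  rw [h6.fderiv]
  show Φ.symm (fderiv ℂ (fun w : W => S.s (Φ y, w)) 0 w) = τ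
  rw [hw, Φ.symm_apply_apply]

end Pool.Agent.Work.MP_e4a69c_an.SU
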