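import Pool.Agent.Work.MP_e4a69c_an.SU.Stmts2

set_option autoImplicit false

namespace Pool.Agent.Work.MP_e4a69c_an.SU

open scoped Manifold ContDiff Topology

theorem pr_UN (hOG : StOG) (hFI : StFI) (hDE : StDE) (hPS : StPS) (hTR : StTR) (hAA : StAA)
    (hFD : StFD) : StUN := by
  intro 𝔤 _ _ G _ _ _ _ K N _ hK M B _ _ _ _ _ _ ρM ρL ρB p hp hs heq hL hB
  constructor
  · exact fun h => hOG 𝔤 G K N hK _ _ _ (hFD M B p hp).1 h
  · intro h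
    obtain ⟨Φ, hΦ1, hΦ2⟩ := hFI 𝔤 G K N hK M B ρM ρL ρB p hL hB
    have h1 : GElliptic (suspMod (ρM.fixedMod N) ρL ρB)
        (fun u : ρM.fixedBy N × (ρM.fixedBy N →L[ℂ] ℂ) × B => -(susp p u)) := by
      refine hTR 𝔤 G _ _ _ _ _ _ Φ.symm (-1) (by norm_num) ?_ ?_ h
      · intro g v
        apply Φ.injective
        rw [hΦ1, Φ.apply_symm_apply, Φ.apply_symm_apply]
      · intro v
        have h2 := hΦ2 (Φ.symm v)
        rw [Φ.apply_symm_apply] at h2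
        show -(susp p v) = -1 * susp p ((Φ.symm v : (suspMod ρM ρL ρB).fixedBy N) :
          M × (M →L[ℂ] ℂ) × B)
        rw [h2]
        ring
    obtain ⟨M1, ρ1, Ψ, hΨ1, hΨ2⟩ := hDE 𝔤 G K N hK M B ρM ρL ρB p
    obtain ⟨q1, q2, q3⟩ := hPS 𝔤 G (ρM.fixedBy N) B (ρM.fixedMod N) ρL ρB p hp hs heq
    have h3 := hAA 𝔤 G M1 _ ρ1 ρL (suspMod (ρM.fixedMod N) ρL ρB)
      (fun u : ρM.fixedBy N × (ρM.fixedBy N →L[ℂ] ℂ) × B => -(susp p u)) q1 q2 q3 h1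
    refine hTR 𝔤 G _ _ _ _ _ _ Ψ 1 one_ne_zero hΨ1 ?_ h3
    intro v
    rw [one_mul]
    exact hΨ2 v

end Pool.Agent.Work.MP_e4a69c_an.SU
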