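import Pool.Agent.Work.MP_e4a69c_an.SU.I_GO
import Pool.Agent.Work.MP_e4a69c_an.SU.I_PI
import Pool.Agent.Work.MP_e4a69c_an.SU.I_QD
import Pool.Agent.Work.MP_e4a69c_an.SU.I_QH
import Pool.Agent.Work.MP_e4a69c_an.SU.I_QE
import Pool.Agent.Work.MP_e4a69c_an.SU.I_DN
import Pool.Agent.Work.MP_e4a69c_an.SU.I_IF
import Pool.Agent.Work.MP_e4a69c_an.SU.I_LD
import Pool.Agent.Work.MP_e4a69c_an.SU.I_GD
import Pool.Agent.Work.MP_e4a69c_an.SU.I_CC
import Pool.Agent.Work.MP_e4a69c_an.SU.I_CF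
import Pool.Agent.Work.MP_e4a69c_an.SU.I_CJ
import Pool.Agent.Work.MP_e4a69c_an.SU.I_FD
import Pool.Agent.Work.MP_e4a69c_an.SU.I_SG
import Pool.Agent.Work.MP_e4a69c_an.SU.I_SP
import Pool.Agent.Work.MP_e4a69c_an.SU.I_BD
import Pool.Agent.Work.MP_e4a69c_an.SU.I_SM
import Pool.Agent.Work.MP_e4a69c_an.SU.I_SZ
import Pool.Agent.Work.MP_e4a69c_an.SU.I_LA
import Pool.Agent.Work.MP_e4a69c_an.SU.I_BA
import Pool.Agent.Work.MP_e4a69c_an.SU.I_AA
import Pool.Agent.Work.MP_e4a69c_an.SU.I_PH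
import Pool.Agent.Work.MP_e4a69c_an.SU.I_OF
import Pool.Agent.Work.MP_e4a69c_an.SU.I_AV
import Pool.Agent.Work.MP_e4a69c_an.SU.I_KF
import Pool.Agent.Work.MP_e4a69c_an.SU.I_ON
import Pool.Agent.Work.MP_e4a69c_an.SU.I_FX
import Pool.Agent.Work.MP_e4a69c_an.SU.I_EP
import Pool.Agent.Work.MP_e4a69c_an.SU.I_MA
import Pool.Agent.Work.MP_e4a69c_an.SU.I_TR
import Pool.Agent.Work.MP_e4a69c_an.SU.I_KN
import Pool.Agent.Work.MP_e4a69c_an.SU.I_PS
import Pool.Agent.Work.MP_e4a69c_an.SU.I_AN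
import Pool.Agent.Work.MP_e4a69c_an.SU.I_FI
import Pool.Agent.Work.MP_e4a69c_an.SU.I_DE
import Pool.Agent.Work.MP_e4a69c_an.SU.I_OG
import Pool.Agent.Work.MP_e4a69c_an.SU.I_UN

/-! Assembly of theorem SU. -/

set_option autoImplicit false

namespace Pool.Agent.Work.MP_e4a69c_an.SU

open scoped Manifold ContDiff Topology

theorem aPI : StPI := pr_PI pr_GO
theorem aQD : StQD := pr_QD pr_GO aPI
theorem aQH : StQH := pr_QH pr_GO
theorem aQE : StQE := pr_QE pr_GO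
theorem aIF : StIF := pr_IF pr_GO
theorem aLD : StLD := pr_LD aIF aQD aQH
theorem aGD : StGD := pr_GD aLD pr_DN
theorem aCF : StCF := pr_CF pr_CC
theorem aSP : StSP := pr_SP aQD aQH aQE
theorem aSM : StSM := pr_SM aQD aQH aQE pr_BD
theorem aSZ : StSZ := pr_SZ aGD pr_DN
theorem aBA : StBA := pr_BA pr_SG aSP aSM pr_CC pr_LA pr_FD
theorem aAA : StAA := pr_AA aBA aSZ aSP aSM pr_CC pr_FD
theorem aPH : StPH := pr_PH aQD aQH
theorem aOF : StOF := pr_OF aPH pr_CJ aCF pr_CC aBA pr_FD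
theorem aON : StON := pr_ON pr_AV pr_KF
theorem aFX : StFX := pr_FX pr_AV pr_KF
theorem aEP : StEP := pr_EP aFX pr_FD
theorem aMA : StMA := pr_MA aAA aOF aON aEP pr_FD
theorem aPS : StPS := pr_PS pr_FD
theorem aAN : StAN := pr_AN pr_AV pr_KN
theorem aFI : StFI := pr_FI aAN
theorem aDE : StDE := pr_DE aAN
theorem aOG : StOG := pr_OG aAN
theorem aUN : StUN := pr_UN aOG aFI aDE aPS pr_TR aAA pr_FD

end Pool.Agent.Work.MP_e4a69c_an.SU
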