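import Mathlib

/-! G-modules and dominating equivariant sprays (definitions used in the statement). -/

set_option autoImplicit false

namespace Pool.Agent.Work.MP_e4a69c_an.SU

open scoped Manifold ContDiff Topology

/-- A holomorphic linear representation (a G-module) on the normed space `V`, for a complex Lie
group `G` modelled on `𝔤`. -/
structure GMod (𝔤 : Type) [NormedAddCommGroup 𝔤] [NormedSpace ℂ 𝔤]
    (G : Type) [TopologicalSpace G] [ChartedSpace 𝔤 G] [Group G]
    (V : Type) [NormedAddCommGroup V] [NormedSpace ℂ V] where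
  /-- the action -/
  act : G →* (V →L[ℂ] V)
  /-- the action is holomorphic in the group variable -/
  hol : ContMDiff 𝓘(ℂ, 𝔤) 𝓘(ℂ, V →L[ℂ] V) ω (fun g => act g)

/-- `K` is a compact subgroup of `N` such that every holomorphic function on `G` which vanishes on
`K` vanishes on `N`. If `N` is a reductive complex Lie subgroup of `G`, that is `N` is the
complexification of a compact Lie group `K`, then `K` is such a subgroup of `N`. -/
def IsCompactFormOf (𝔤 : Type) [NormedAddCommGroup 𝔤] [NormedSpace ℂ 𝔤] {G : Type}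
    [TopologicalSpace G] [ChartedSpace 𝔤 G] [Group G] (K N : Subgroup G) : Prop :=
  K ≤ N ∧ IsCompact (K : Set G) ∧
    ∀ f : G → ℂ, ContMDiff 𝓘(ℂ, 𝔤) 𝓘(ℂ, ℂ) ω f → (∀ k ∈ K, f k = 0) → ∀ n ∈ N, f n = 0

section

variable {𝔤 : Type} [NormedAddCommGroup 𝔤] [NormedSpace ℂ 𝔤]
variable {G : Type} [TopologicalSpace G] [ChartedSpace 𝔤 G] [Group G]
variable {V : Type} [NormedAddCommGroup V] [NormedSpace ℂ V]

/-- `s : V × W → V` is a dominating G-spray on the closed complex submanifold `Y`, with tangent
spaces `T y`, of the G-module `V`, with parameters in the G-module `W`: it is an equivariant entire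
map with `s(y,0) = y` and `s(y,w) ∈ Y`, and the derivative of `s(y,·)` at `0` is onto the tangent
space `T y`, for all `y ∈ Y`. -/
def IsDomSpray {W : Type} [NormedAddCommGroup W] [NormedSpace ℂ W] (ρ : GMod 𝔤 G V)
    (σ : GMod 𝔤 G W) (s : V × W → V) (Y : Set V) (T : V → Set V) : Prop :=
  Differentiable ℂ s ∧ (∀ y ∈ Y, s (y, 0) = y) ∧ (∀ y ∈ Y, ∀ w, s (y, w) ∈ Y) ∧
    (∀ g y w, s (ρ.act g y, σ.act g w) = ρ.act g (s (y, w))) ∧
    ∀ y ∈ Y, ∀ τ ∈ T y, ∃ w : W, fderiv ℂ (fun w : W => s (y, w)) 0 w = τ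

/-- The closed complex submanifold `Y` of the G-module `V`, with tangent spaces `T y`, is
G-elliptic by a spray on the trivial bundle `Y × W`, `W` a finite dimensional G-module, which is
the restriction of an equivariant entire map `V × W → V`. -/
def GEll (ρ : GMod 𝔤 G V) (Y : Set V) (T : V → Set V) : Prop :=
  ∃ (W : Type) (_ : NormedAddCommGroup W) (_ : NormedSpace ℂ W) (_ : FiniteDimensional ℂ W)
    (σ : GMod 𝔤 G W) (s : V × W → V), IsDomSpray ρ σ s Y T

end

end Pool.Agent.Work.MP_e4a69c_an.SU
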