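import Pool.Agent.Work.MP_e4a69c_an.SU.Defs

/-! Second part of theorem SU: normal subgroups and submodules. -/

set_option autoImplicit false

namespace Pool.Agent.Work.MP_e4a69c_an.SU

open scoped Manifold ContDiff Topology

section Sub

variable {𝔤 : Type} [NormedAddCommGroup 𝔤] [NormedSpace ℂ 𝔤]
variable {G : Type} [TopologicalSpace G] [ChartedSpace 𝔤 G] [Group G]
variable {V : Type} [NormedAddCommGroup V] [NormedSpace ℂ V]

/-- restriction of a module to a G-stable subspace -/
noncomputable def GMod.sub [FiniteDimensional ℂ V] (ρ : GMod 𝔤 G V) (U : Submodule ℂ V)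
    (hU : ∀ g, ∀ v ∈ U, ρ.act g v ∈ U) : GMod 𝔤 G U where
  act :=
    { toFun := fun g => ((ρ.act g).comp U.subtypeL).codRestrict U (fun v => hU g v v.2)
      map_one' := by
        apply ContinuousLinearMap.ext; intro v
        apply Subtype.ext
        show ρ.act 1 v = v
        simp
      map_mul' := by
        intro g h
        apply ContinuousLinearMap.ext; intro v
        apply Subtype.ext
        show ρ.act (g * h) v = ρ.act g (ρ.act h v)
        rw [GMod.act_mul] }
  hol := by
    obtain ⟨π, hπ⟩ := LinearMap.exists_leftInverse_of_injective U.subtype (Submodule.ker_subtype U)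
    have h1 : (fun g : G => ((ρ.act g).comp U.subtypeL).codRestrict U (fun v => hU g v v.2))
        = fun g : G => (LinearMap.toContinuousLinearMap π).comp ((ρ.act g).comp U.subtypeL) := by
      funext g
      apply ContinuousLinearMap.ext; intro v
      show (⟨ρ.act g v, hU g v v.2⟩ : U) = π (ρ.act g v)
      exact (LinearMap.congr_fun hπ ⟨ρ.act g v, hU g v v.2⟩).symm
    show ContMDiff 𝓘(ℂ, 𝔤) 𝓘(ℂ, U →L[ℂ] U) ω
      (fun g : G => ((ρ.act g).comp U.subtypeL).codRestrict U (fun v => hU g v v.2))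
    rw [h1]
    exact contMDiff_const.clm_comp (ρ.hol.clm_comp contMDiff_const)

@[simp] theorem GMod.sub_act [FiniteDimensional ℂ V] (ρ : GMod 𝔤 G V) (U : Submodule ℂ V)
    (hU : ∀ g, ∀ v ∈ U, ρ.act g v ∈ U) (g : G) (v : U) :
    (((ρ.sub U hU).act g v : U) : V) = ρ.act g v := rfl

/-- the subspace of vectors fixed by the subgroup `N` -/
def GMod.fixedBy (ρ : GMod 𝔤 G V) (N : Subgroup G) : Submodule ℂ V where
  carrier := {v | ∀ n ∈ N, ρ.act n v = v}
  add_mem' := by
    intro a b ha hb g hg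
    rw [map_add, ha g hg, hb g hg]
  zero_mem' := by
    intro g _
    exact map_zero _
  smul_mem' := by
    intro c a ha g hg
    rw [map_smul, ha g hg]

theorem GMod.mem_fixedBy (ρ : GMod 𝔤 G V) (N : Subgroup G) (v : V) :
    v ∈ ρ.fixedBy N ↔ ∀ n ∈ N, ρ.act n v = v := Iff.rfl

theorem GMod.fixedBy_stable (ρ : GMod 𝔤 G V) (N : Subgroup G) [hN : N.Normal] :
    ∀ g, ∀ v ∈ ρ.fixedBy N, ρ.act g v ∈ ρ.fixedBy N := by
  intro g v hv n hn
  have h1 : g⁻¹ * n * g ∈ N := by
    have := hN.conj_mem n hn g⁻¹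
    rwa [inv_inv] at this
  have h2 := hv _ h1
  have h3 : ρ.act (g * (g⁻¹ * n * g)) v = ρ.act g v := by
    rw [GMod.act_mul, h2]
  have h4 : g * (g⁻¹ * n * g) = n * g := by group
  rw [h4, GMod.act_mul] at h3
  exact h3

/-- the G-module `V^N` of the vectors fixed by the normal subgroup `N` -/
noncomputable def GMod.fixedMod [FiniteDimensional ℂ V] (ρ : GMod 𝔤 G V) (N : Subgroup G)
    [N.Normal] : GMod 𝔤 G (ρ.fixedBy N) := ρ.sub (ρ.fixedBy N) (ρ.fixedBy_stable N)

@[simp] theorem GMod.fixedMod_act [FiniteDimensional ℂ V] (ρ : GMod 𝔤 G V) (N : Subgroup G)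
    [N.Normal] (g : G) (v : ρ.fixedBy N) :
    (((ρ.fixedMod N).act g v : ρ.fixedBy N) : V) = ρ.act g v := rfl

end Sub

end Pool.Agent.Work.MP_e4a69c_an.SU
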