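import Pool.Agent.Work.MP_e4a69c_an.SU.Stmts2

set_option autoImplicit false

namespace Pool.Agent.Work.MP_e4a69c_an.SU

open scoped Manifold ContDiff Topology

theorem pr_AN (hAV : StAV) (hKN : StKN) : StAN := by
  intro 𝔤 _ _ G _ _ _ _ K N hNn hK W _ _ _ σ
  obtain ⟨P, hP1, hP2⟩ := hAV 𝔤 G K hK.2.1 W σ
  have hPfix : ∀ w, P w ∈ σ.fixedBy N :=
    fun w => hKN 𝔤 G K N hK W σ (P w) (fun k hk => hP1 k hk w)
  have hPid : ∀ w ∈ σ.fixedBy N, P w = w := fun w hw =>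
    hP2 W (ContinuousLinearMap.id ℂ W) w w (fun k hk => hw k (hK.1 hk))
  have ha : ∀ l : W →L[ℂ] ℂ, (∀ n ∈ N, ∀ w, l (σ.act n w) = l w) → ∀ w, l (P w) = l w :=
    fun l hl w => hP2 ℂ l w (l w) (fun k hk => hl k (hK.1 hk) w)
  have hb : ∀ u ∈ σ.fixedBy N,
      (∀ l : W →L[ℂ] ℂ, (∀ n ∈ N, ∀ w, l (σ.act n w) = l w) → l u = 0) → u = 0 := by
    intro u hu h
    by_contra hne
    obtain ⟨l0, hl0⟩ := SeparatingDual.exists_ne_zero (R := ℂ) hne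
    obtain ⟨P', hP'1, hP'2⟩ := hAV 𝔤 G K hK.2.1 (W →L[ℂ] ℂ) (σ.hom (GMod.triv ℂ))
    have h1 := hKN 𝔤 G K N hK (W →L[ℂ] ℂ) (σ.hom (GMod.triv ℂ)) (P' l0)
      (fun k hk => hP'1 k hk l0)
    have h2 : ∀ n ∈ N, ∀ w, (P' l0) (σ.act n w) = (P' l0) w := by
      intro n hn w
      have h3 := h1 n⁻¹ (N.inv_mem hn)
      have h4 : ((σ.hom (GMod.triv ℂ)).act n⁻¹ (P' l0)) w = (P' l0) w := by rw [h3]
      have h5 : (P' l0) (σ.act (n⁻¹)⁻¹ w) = (P' l0) w := h4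
      rwa [inv_inv] at h5
    have h5 : (P' l0) u = l0 u := by
      refine hP'2 ℂ (ContinuousLinearMap.apply ℂ ℂ u) l0 (l0 u) (fun k hk => ?_)
      show l0 (σ.act k⁻¹ u) = l0 u
      rw [hu k⁻¹ (hK.1 (K.inv_mem hk))]
    exact hl0 (h5 ▸ h (P' l0) h2)
  refine ⟨P, hPfix, hPid, ?_, hP2⟩
  intro g w
  have h1 : P (σ.act g w) - σ.act g (P w) ∈ σ.fixedBy N :=
    Submodule.sub_mem _ (hPfix _) (σ.fixedBy_stable N g _ (hPfix w))
  have h2 := hb _ h1 (by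
    intro l hl
    have h3 : ∀ n ∈ N, ∀ w, (l.comp (σ.act g)) (σ.act n w) = (l.comp (σ.act g)) w := by
      intro n hn w
      show l (σ.act g (σ.act n w)) = l (σ.act g w)
      have h4 : σ.act g (σ.act n w) = σ.act (g * n * g⁻¹) (σ.act g w) := by
        rw [← GMod.act_mul, ← GMod.act_mul]
        congr 2
        group
      rw [h4]
      exact hl _ (hNn.conj_mem n hn g) _
    have h5 := ha _ h3 w
    have h6 : l (σ.act g (P w)) = l (σ.act g w) := h5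
    rw [map_sub, ha l hl, h6, sub_self])
  exact sub_eq_zero.mp h2

end Pool.Agent.Work.MP_e4a69c_an.SU
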