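import Pool.Agent.Work.MP_e4a69c_an.SU.Stmts

set_option autoImplicit false

namespace Pool.Agent.Work.MP_e4a69c_an.SU

open scoped Manifold ContDiff Topology

theorem pr_CF (hCC : StCC) : StCF := by
  intro 𝔤 _ _ G _ _ _ V _ _ ρ F n
  induction n with
  | zero =>
    intro R _
    refine ⟨Fin 0 → ℂ, inferInstance, inferInstance, inferInstance, GMod.triv _,
      { s := fun x => x.1
        hol := differentiable_fst
        zero := fun y _ => rfl
        maps := fun y w hy => hy
        equi := fun g y w => rfl }, ?_⟩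
    intro y hy τ hτ
    rw [Set.mem_iUnion] at hτ
    exact hτ.choose.elim0
  | succ n ih =>
    intro R hR
    have h1 := ih (fun j => R j.castSucc) (fun j => hR j.castSucc)
    have h2 := hCC 𝔤 G V ρ F _ _ h1 (hR (Fin.last n))
    obtain ⟨W, i1, j1, k1, σ, S, d⟩ := h2
    refine ⟨W, i1, j1, k1, σ, S, ?_⟩
    intro y hy τ hτ
    apply d y hy τ
    apply Submodule.subset_span
    rw [Set.mem_iUnion] at hτ
    obtain ⟨j, hj⟩ := hτ
    rcases Fin.eq_castSucc_or_eq_last j with ⟨i, rfl⟩ | rfl
    · left
      exact Set.mem_iUnion.mpr ⟨i, hj⟩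
    · right
      exact hj

end Pool.Agent.Work.MP_e4a69c_an.SU
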