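import Pool.Agent.Work.MP_e4a69c_an.SU.Stmts

/-!
# Theorem SU, item GO: Goursat in finitely many variables (helper37)
-/

set_option autoImplicit false

namespace Pool.Agent.Work.MP_e4a69c_an.SU

open scoped Manifold ContDiff Topology

namespace IGO

section
variable {E H : Type} [NormedAddCommGroup E] [NormedSpace ℂ E] [NormedAddCommGroup H]
  [NormedSpace ℂ H]

/-- the derivative along a line -/
theorem deriv_line {f : E → H} (hf : Differentiable ℂ f) (u v : E) (ζ : ℂ) :
    HasDerivAt (fun ζ : ℂ => f (u + ζ • v)) (fderiv ℂ f (u + ζ • v) v) ζ := by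
  have h1 : HasDerivAt (fun ζ : ℂ => u + ζ • v) v ζ := by
    simpa using ((hasDerivAt_id ζ).smul_const v).const_add u
  exact (hf (u + ζ • v)).hasFDerivAt.comp_hasDerivAt ζ h1

theorem deriv_line_zero {f : E → H} (hf : Differentiable ℂ f) (u v : E) :
    deriv (fun ζ : ℂ => f (u + ζ • v)) 0 = fderiv ℂ f u v := by
  have h1 := (deriv_line hf u v 0).deriv
  rwa [zero_smul, add_zero] at h1

theorem diff_line {f : E → H} (hf : Differentiable ℂ f) (u v : E) :
    Differentiable ℂ (fun ζ : ℂ => f (u + ζ • v)) :=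
  fun ζ => (deriv_line hf u v ζ).differentiableAt

/-- Cauchy estimate -/
theorem cauchy {f : E → H} (hf : Differentiable ℂ f) {u v : E} {R C : ℝ} (hR : 0 < R)
    (h : ∀ ζ : ℂ, ‖ζ‖ = R → ‖f (u + ζ • v)‖ ≤ C) : ‖fderiv ℂ f u v‖ ≤ C / R := by
  rw [← deriv_line_zero hf]
  refine Complex.norm_deriv_le_of_forall_mem_sphere_norm_le hR
    (diff_line hf u v).diffContOnCl (fun ζ hζ => h ζ ?_)
  rwa [mem_sphere_zero_iff_norm] at hζ

/-- bound of the derivative on balls -/
theorem bound [FiniteDimensional ℂ E] {f : E → H} (hf : Differentiable ℂ f) (z0 : E) (r : ℝ) :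
    ∃ C : ℝ, 0 ≤ C ∧ ∀ u, ‖u - z0‖ ≤ r → ‖fderiv ℂ f u‖ ≤ C := by
  have : ProperSpace E := FiniteDimensional.proper ℂ E
  obtain ⟨C, hC⟩ := (isCompact_closedBall z0 (r + 1)).exists_bound_of_continuousOn
    hf.continuous.continuousOn
  refine ⟨max C 0, le_max_right _ _, fun u hu => ?_⟩
  refine ContinuousLinearMap.opNorm_le_bound _ (le_max_right _ _) (fun v => ?_)
  by_cases hv : v = 0
  · rw [hv, map_zero, norm_zero, norm_zero, mul_zero]
  have hv' : 0 < ‖v‖ := norm_pos_iff.2 hv
  have h1 : ‖fderiv ℂ f u v‖ ≤ max C 0 / ‖v‖⁻¹ := by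
    refine cauchy hf (inv_pos.2 hv') (fun ζ hζ => (hC _ ?_).trans (le_max_left _ _))
    rw [Metric.mem_closedBall, dist_eq_norm]
    calc ‖u + ζ • v - z0‖ = ‖(u - z0) + ζ • v‖ := by congr 1; abel
      _ ≤ ‖u - z0‖ + ‖ζ • v‖ := norm_add_le _ _
      _ ≤ r + 1 := by
        rw [norm_smul, hζ, inv_mul_cancel₀ hv'.ne']
        linarith
  rwa [div_inv_eq_mul] at h1

/-- Lipschitz on balls -/
theorem lip [FiniteDimensional ℂ E] {f : E → H} (hf : Differentiable ℂ f) (z0 : E) (r : ℝ) :
    ∃ C : ℝ, 0 ≤ C ∧ ∀ u v, ‖u - z0‖ ≤ r → ‖v - z0‖ ≤ r → ‖f v - f u‖ ≤ C * ‖v - u‖ := by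
  obtain ⟨C, hC0, hC⟩ := bound hf z0 r
  refine ⟨C, hC0, fun u v hu hv => ?_⟩
  refine (convex_closedBall z0 r).norm_image_sub_le_of_norm_fderiv_le (𝕜 := ℂ)
    (fun x _ => hf x) (fun x hx => hC x ?_) ?_ ?_
  · rwa [Metric.mem_closedBall, dist_eq_norm] at hx
  · rwa [Metric.mem_closedBall, dist_eq_norm]
  · rwa [Metric.mem_closedBall, dist_eq_norm]

theorem comp_add {f : E → H} {L : E →L[ℂ] H} {z a : E} (h : HasFDerivAt f L (z + a)) :
    HasFDerivAt (fun u => f (u + a)) L z := by
  have h1 : HasFDerivAt (fun u : E => u + a) (ContinuousLinearMap.id ℂ E) z :=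
    (hasFDerivAt_id z).add_const a
  have h2 := h.comp z h1
  rwa [ContinuousLinearMap.comp_id] at h2

theorem fderiv_shift {f : E → H} (hf : Differentiable ℂ f) (z z0 : E) :
    fderiv ℂ (fun u => f (u + (z - z0)) - f u) z0 = fderiv ℂ f z - fderiv ℂ f z0 := by
  have h1 : HasFDerivAt (fun u => f (u + (z - z0))) (fderiv ℂ f z) z0 := by
    have h2 : HasFDerivAt f (fderiv ℂ f z) (z0 + (z - z0)) := by
      rw [add_sub_cancel]
      exact (hf z).hasFDerivAt
    exact comp_add h2
  exact (h1.sub (hf z0).hasFDerivAt).fderiv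

theorem cont_apply [FiniteDimensional ℂ E] {f : E → H} (hf : Differentiable ℂ f) (c : E) :
    Continuous (fun z => fderiv ℂ f z c) := by
  rw [continuous_iff_continuousAt]
  intro z0
  obtain ⟨C, hC0, hC⟩ := lip hf z0 (1 + ‖c‖)
  have key : ∀ z, ‖z - z0‖ ≤ 1 →
      ‖fderiv ℂ f z c - fderiv ℂ f z0 c‖ ≤ C * ‖z - z0‖ := by
    intro z hz
    have hd : Differentiable ℂ (fun u => f (u + (z - z0)) - f u) := by
      intro u
      exact ((hf _).comp u (differentiableAt_id.add_const _)).sub (hf u)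
    have h1 : ‖fderiv ℂ (fun u => f (u + (z - z0)) - f u) z0 c‖ ≤ C * ‖z - z0‖ / 1 := by
      refine cauchy hd one_pos (fun ζ hζ => ?_)
      have e1 : z0 + ζ • c + (z - z0) = z + ζ • c := by abel
      rw [e1]
      have hc : ‖ζ • c‖ = ‖c‖ := by rw [norm_smul, hζ, one_mul]
      have h2 := hC (z0 + ζ • c) (z + ζ • c) (by
          rw [add_sub_cancel_left, hc]
          linarith) (by
          calc ‖z + ζ • c - z0‖ = ‖(z - z0) + ζ • c‖ := by congr 1; abel
            _ ≤ ‖z - z0‖ + ‖ζ • c‖ := norm_add_le _ _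
            _ ≤ 1 + ‖c‖ := by rw [hc]; linarith)
      have e2 : z + ζ • c - (z0 + ζ • c) = z - z0 := by abel
      rwa [e2] at h2
    rw [fderiv_shift hf, div_one] at h1
    exact h1
  refine continuousAt_of_locally_lipschitz one_pos C (fun z hz => ?_)
  rw [dist_eq_norm] at hz ⊢
  rw [dist_eq_norm]
  exact key z hz.le

theorem cont [FiniteDimensional ℂ E] {f : E → H} (hf : Differentiable ℂ f) :
    Continuous (fderiv ℂ f) := continuous_clm_apply.2 (cont_apply hf)

/-- the factor in the Cauchy formula -/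
noncomputable def fac (θ : ℝ) : ℂ :=
  (2 * Real.pi * Complex.I : ℂ)⁻¹ * (deriv (circleMap 0 1) θ * ((circleMap 0 1 θ - 0) ^ 2)⁻¹)

theorem fac_cont : Continuous fac := by
  unfold fac
  refine continuous_const.mul (Continuous.mul ?_ (Continuous.inv₀ ?_ ?_))
  · have h1 : deriv (circleMap 0 1) = fun θ => circleMap 0 1 θ * Complex.I := by
      funext θ
      exact deriv_circleMap 0 1 θ
    rw [h1]
    exact (continuous_circleMap 0 1).mul continuous_const
  · exact ((continuous_circleMap 0 1).sub continuous_const).pow 2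
  · intro θ
    apply pow_ne_zero
    rw [sub_zero]
    exact circleMap_ne_center one_ne_zero

theorem formula [CompleteSpace H] {f : E → H} (hf : Differentiable ℂ f) (z c : E) :
    fderiv ℂ f z c = ∫ θ in (0 : ℝ)..2 * Real.pi, fac θ • f (z + circleMap 0 1 θ • c) := by
  rw [← deriv_line_zero hf,
    ← Complex.two_pi_I_inv_smul_circleIntegral_sub_sq_inv_smul_of_differentiable isOpen_univ
      (Set.subset_univ (Metric.closedBall (0 : ℂ) 1)) (diff_line hf z c).differentiableOn
      (Metric.mem_ball_self one_pos)]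
  rw [circleIntegral, ← intervalIntegral.integral_smul]
  refine intervalIntegral.integral_congr (fun θ _ => ?_)
  simp only [fac, smul_smul, mul_assoc]

theorem diff_apply [FiniteDimensional ℂ E] [CompleteSpace H] {f : E → H}
    (hf : Differentiable ℂ f) (c : E) : Differentiable ℂ (fun z => fderiv ℂ f z c) := by
  intro z0
  have hfun : (fun z => fderiv ℂ f z c) =
      fun z => ∫ θ in (0 : ℝ)..2 * Real.pi, fac θ • f (z + circleMap 0 1 θ • c) :=
    funext fun z => formula hf z c
  rw [hfun]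
  obtain ⟨C, hC0, hC⟩ := bound hf z0 (1 + ‖c‖)
  obtain ⟨M, hM⟩ := (isCompact_uIcc (a := (0 : ℝ)) (b := 2 * Real.pi)).exists_bound_of_continuousOn
    fac_cont.continuousOn
  have hline : ∀ z : E, Continuous fun θ : ℝ => z + circleMap 0 1 θ • c := fun z =>
    continuous_const.add ((continuous_circleMap 0 1).smul continuous_const)
  have hcF : ∀ z : E, Continuous fun θ : ℝ => fac θ • f (z + circleMap 0 1 θ • c) := fun z =>
    fac_cont.smul (hf.continuous.comp (hline z))
  have hcF' : ∀ z : E, Continuous fun θ : ℝ => fac θ • fderiv ℂ f (z + circleMap 0 1 θ • c) :=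
    fun z => fac_cont.smul ((cont hf).comp (hline z))
  have key := intervalIntegral.hasFDerivAt_integral_of_dominated_of_fderiv_le (𝕜 := ℂ)
    (μ := MeasureTheory.volume) (a := (0 : ℝ)) (b := 2 * Real.pi) (s := Metric.ball z0 1)
    (x₀ := z0) (F := fun z θ => fac θ • f (z + circleMap 0 1 θ • c))
    (F' := fun z θ => fac θ • fderiv ℂ f (z + circleMap 0 1 θ • c)) (bound := fun _ => M * C)
    (Metric.ball_mem_nhds z0 one_pos)
    (Filter.Eventually.of_forall fun z => (hcF z).aestronglyMeasurable)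
    ((hcF z0).intervalIntegrable _ _) (hcF' z0).aestronglyMeasurable
    (Filter.Eventually.of_forall fun θ hθ z hz => by
      have h1 := hM θ (Set.uIoc_subset_uIcc hθ)
      rw [norm_smul]
      refine mul_le_mul h1 (hC _ ?_) (norm_nonneg _) ((norm_nonneg _).trans h1)
      rw [Metric.mem_ball, dist_eq_norm] at hz
      calc ‖z + circleMap 0 1 θ • c - z0‖ = ‖(z - z0) + circleMap 0 1 θ • c‖ := by
            congr 1; abel
        _ ≤ ‖z - z0‖ + ‖circleMap 0 1 θ • c‖ := norm_add_le _ _
        _ ≤ 1 + ‖c‖ := by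
          rw [norm_smul, norm_circleMap_zero, abs_one, one_mul]
          linarith)
    (continuous_const.intervalIntegrable _ _)
    (Filter.Eventually.of_forall fun θ _ z _ => by
      have h1 : HasFDerivAt (fun z => f (z + circleMap 0 1 θ • c))
          (fderiv ℂ f (z + circleMap 0 1 θ • c)) z :=
        comp_add (hf _).hasFDerivAt
      exact h1.const_smul (fac θ))
  exact key.differentiableAt

theorem cd [FiniteDimensional ℂ E] [CompleteSpace H] (n : ℕ) :
    ∀ f : E → H, Differentiable ℂ f → ContDiff ℂ n f := by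
  induction n with
  | zero =>
    intro f hf
    exact contDiff_zero.2 hf.continuous
  | succ n ih =>
    intro f hf
    have h1 : ContDiff ℂ ((n : ℕ∞ω) + 1) f := by
      rw [contDiff_succ_iff_fderiv_apply]
      exact ⟨hf, by simp, fun y => ih _ (diff_apply hf y)⟩
    exact_mod_cast h1

end

end IGO

theorem pr_GO : StGO := by
  intro E H _ _ _ _ _ _ f hf
  have h1 : ContDiff ℂ 2 f := by exact_mod_cast IGO.cd 2 f hf
  have h2 : ContDiff ℂ 1 (fderiv ℂ f) := h1.fderiv_right (m := 1) (by norm_num)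
  exact h2.differentiable one_ne_zero

end Pool.Agent.Work.MP_e4a69c_an.SU
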