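import Pool.Agent.Work.MP_e4a69c_an.SU.Stmts

set_option autoImplicit false

namespace Pool.Agent.Work.MP_e4a69c_an.SU

open scoped Manifold ContDiff Topology

theorem pr_OK (hFX : StFX) : StOK := by
  intro 𝔤 _ _ G _ _ _ _ K hK M B _ _ _ _ _ ρM p hM
  have hset : ∀ y : M × (M →L[ℂ] ℂ) × B,
      y ∈ {y : M × (M →L[ℂ] ℂ) × B | susp p y = 0 ∧
          ∀ g, (suspMod ρM (GMod.triv ℂ) (GMod.triv B)).act g y = y} ↔
        y.1 = 0 ∧ y.2.1 = 0 ∧ p y.2.2 = 0 := by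
    intro y
    have h := hFX 𝔤 G K hK M B ρM hM y
    constructor
    · rintro ⟨h1, h2⟩
      obtain ⟨h3, h4⟩ := h.1 h2
      refine ⟨h3, h4, ?_⟩
      have h5 : y.2.1 y.1 - p y.2.2 = 0 := h1
      rw [h3, map_zero] at h5
      linear_combination -h5
    · rintro ⟨h3, h4, h5⟩
      refine ⟨?_, h.2 ⟨h3, h4⟩⟩
      show y.2.1 y.1 - p y.2.2 = 0
      rw [h3, map_zero, h5, sub_zero]
  constructor
  · intro hO n C U hC1 hC2 hU hCU f hf hfS ε hε
    obtain ⟨h, hh, hhS, hhC⟩ := hO n C U hC1 hC2 hU hCU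
      (fun x => ((0, 0, f x) : M × (M →L[ℂ] ℂ) × B))
      ((differentiableOn_const _).prodMk ((differentiableOn_const _).prodMk hf))
      (fun x hx => (hset _).2 ⟨rfl, rfl, hfS x hx⟩) ε hε
    refine ⟨fun x => (h x).2.2, hh.snd.snd, fun x => ((hset _).1 (hhS x)).2.2, ?_⟩
    intro x hx
    refine lt_of_le_of_lt ?_ (hhC x hx)
    have h1 : ‖(h x - ((0, 0, f x) : M × (M →L[ℂ] ℂ) × B)).2.2‖ ≤
        ‖(h x - ((0, 0, f x) : M × (M →L[ℂ] ℂ) × B)).2‖ := norm_snd_le _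
    exact h1.trans (norm_snd_le _)
  · intro hO n C U hC1 hC2 hU hCU f hf hfS ε hε
    obtain ⟨h, hh, hhS, hhC⟩ := hO n C U hC1 hC2 hU hCU (fun x => (f x).2.2)
      hf.snd.snd (fun x hx => ((hset _).1 (hfS x hx)).2.2) ε hε
    refine ⟨fun x => (0, 0, h x), (differentiable_const _).prodMk
      ((differentiable_const _).prodMk hh), fun x => (hset _).2 ⟨rfl, rfl, hhS x⟩, ?_⟩
    intro x hx
    obtain ⟨h1, h2, _⟩ := (hset _).1 (hfS x (hCU hx))
    have h3 : ((0, 0, h x) : M × (M →L[ℂ] ℂ) × B) - f x = (0, 0, h x - (f x).2.2) := by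
      refine Prod.ext ?_ (Prod.ext ?_ rfl)
      · show 0 - (f x).1 = 0
        rw [h1, sub_zero]
      · show 0 - (f x).2.1 = 0
        rw [h2, sub_zero]
    rw [h3, Prod.norm_def, Prod.norm_def]
    simpa using hhC x hx

end Pool.Agent.Work.MP_e4a69c_an.SU
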