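import Pool.Agent.Work.MP_e4a69c_an.SU.Stmts

/-! Block SU, item PH (helper12): the automorphism defined by a fixed vector. -/

set_option autoImplicit false

namespace Pool.Agent.Work.MP_e4a69c_an.SU

open scoped Manifold ContDiff Topology

namespace IPH

variable {M B : Type} [NormedAddCommGroup M] [NormedSpace ℂ M]
  [NormedAddCommGroup B] [NormedSpace ℂ B]

/-- the automorphism -/
noncomputable def ph (p : B → ℂ) (x0 : M) (b : B) (y : M × (M →L[ℂ] ℂ) × B) :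
    M × (M →L[ℂ] ℂ) × B :=
  (y.1 + (qq p y.2.2 (y.2.1 x0 • b) b) • x0, y.2.1, y.2.2 + y.2.1 x0 • b)

theorem diff [FiniteDimensional ℂ B] (hQD : StQD) (p : B → ℂ) (hp : Differentiable ℂ p)
    (x0 : M) (b : B) : Differentiable ℂ (ph p x0 b) := by
  have h1 : Differentiable ℂ (fun y : M × (M →L[ℂ] ℂ) × B => y.2.1) :=
    differentiable_fst.comp differentiable_snd
  have h2 : Differentiable ℂ (fun y : M × (M →L[ℂ] ℂ) × B => y.2.2) :=
    differentiable_snd.comp differentiable_snd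
  have h3 : Differentiable ℂ (fun y : M × (M →L[ℂ] ℂ) × B => y.2.1 x0) :=
    h1.clm_apply (differentiable_const x0)
  have h4 : Differentiable ℂ (fun y : M × (M →L[ℂ] ℂ) × B => y.2.1 x0 • b) :=
    h3.smul_const b
  have h5 : Differentiable ℂ (fun y : M × (M →L[ℂ] ℂ) × B => (y.2.2, y.2.1 x0 • b)) :=
    h2.prodMk h4
  have h6 : Differentiable ℂ (fun y : M × (M →L[ℂ] ℂ) × B => qq p y.2.2 (y.2.1 x0 • b)) :=
    (hQD B p hp).comp h5
  have h7 : Differentiable ℂ (fun y : M × (M →L[ℂ] ℂ) × B => qq p y.2.2 (y.2.1 x0 • b) b) :=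
    h6.clm_apply (differentiable_const b)
  exact (differentiable_fst.add (h7.smul_const x0)).prodMk (h1.prodMk (h2.add h4))

theorem inv [FiniteDimensional ℂ B] (hQH : StQH) (p : B → ℂ) (hp : Differentiable ℂ p)
    (x0 : M) (b : B) (y : M × (M →L[ℂ] ℂ) × B) : ph p x0 (-b) (ph p x0 b y) = y := by
  obtain ⟨x, ξ, z⟩ := y
  obtain ⟨_, _, h3⟩ := hQH B p hp
  have h := h3 z (ξ x0 • b)
  unfold ph
  simp only [smul_neg]
  rw [h, map_neg, neg_smul, add_neg_cancel_right, add_neg_cancel_right]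

end IPH

open IPH in
theorem pr_PH (hQD : StQD) (hQH : StQH) : StPH := by
  intro 𝔤 _ _ G _ _ _ _ M B _ _ _ _ _ _ ρM p hp x0 hx0 b
  obtain ⟨h1, h2, h3⟩ := hQH B p hp
  refine ⟨ph p x0 b, ph p x0 (-b), diff hQD p hp x0 b, diff hQD p hp x0 (-b),
    inv hQH p hp x0 b, ?_, ?_, ?_, ?_⟩
  · intro y
    have h := inv hQH p hp x0 (-b) y
    rwa [neg_neg] at h
  · rintro ⟨x, ξ, z⟩
    have h := h1 z (ξ x0 • b)
    rw [map_smul, smul_eq_mul] at h
    show ξ (x + (qq p z (ξ x0 • b) b) • x0) - p (z + ξ x0 • b) = ξ x - p z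
    rw [map_add, map_smul, smul_eq_mul]
    linear_combination h
  · rintro g ⟨x, ξ, z⟩
    have hx : (ρM.hom (GMod.triv (𝔤 := 𝔤) (G := G) ℂ)).act g ξ x0 = ξ x0 := by
      rw [GMod.hom_act, GMod.triv_act, hx0]
    show (ρM.act g x + (qq p z (((ρM.hom (GMod.triv (𝔤 := 𝔤) (G := G) ℂ)).act g ξ) x0 • b) b) • x0,
      (ρM.hom (GMod.triv (𝔤 := 𝔤) (G := G) ℂ)).act g ξ,
      z + ((ρM.hom (GMod.triv (𝔤 := 𝔤) (G := G) ℂ)).act g ξ) x0 • b) =
      (ρM.act g (x + (qq p z (ξ x0 • b) b) • x0),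
        (ρM.hom (GMod.triv (𝔤 := 𝔤) (G := G) ℂ)).act g ξ, z + ξ x0 • b)
    rw [hx, map_add, map_smul, hx0]
  · intro z
    show ((0 : M) + (qq p z ((0 : M →L[ℂ] ℂ) x0 • b) b) • x0, (0 : M →L[ℂ] ℂ),
      z + (0 : M →L[ℂ] ℂ) x0 • b) = ((fderiv ℂ p z b) • x0, 0, z)
    rw [zero_add, ContinuousLinearMap.zero_apply, zero_smul, add_zero, h2]

end Pool.Agent.Work.MP_e4a69c_an.SU
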