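import Pool.Agent.Work.MP_e4a69c_an.SU.Defs

/-! Items of theorem SU (MP_e4a69c_an). Every docstring is a complete proof. Notation: `F = susp p`,
`F(x,ξ,z) = ξ(x) - p(z)` on `V = M × M^* × B`, `Y = {F = 0}`, `q = qq p`,
`q(z,b) = ∫₀¹ dp(z + τ b) dτ`. -/

set_option autoImplicit false

namespace Pool.Agent.Work.MP_e4a69c_an.SU

open scoped Manifold ContDiff Topology

/-! ### Part 1: analysis -/

/-- GO (Goursat in finitely many variables). PROOF. First, for fixed `c`, `z ↦ (fderiv ℂ f z) c` is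
differentiable at `z0`: for `z` near `z0` it is the derivative at `0` of the entire function
`ζ ↦ f (z + ζ c)` of one variable, so by Cauchy's formula
(`Complex.deriv_eq_smul_circleIntegral` or `two_pi_I_inv_smul_circleIntegral...`) it is
`(2πi)⁻¹ ∮_{|ζ|=1} ζ⁻² f(z + ζ c) dζ`. Differentiate under the integral sign
(`hasFDerivAt_integral_of_dominated_of_fderiv_le`, on the circle as an interval integral) with
`F'(z,θ) = (factor) • fderiv ℂ f (z + e^{iθ} c)`: measurable in `θ` (`measurable_fderiv`, or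
`stronglyMeasurable_fderiv`, composed with a continuous map), and bounded for `z` in a small ball by
the Cauchy estimate: `f` is continuous so bounded on a compact ball of radius `R + 1`, and
`‖fderiv ℂ f u v‖ ≤ (sup over |ζ| ≤ 1 of ‖f(u + ζ v)‖)` for `‖v‖ ≤ 1`
(`Complex.norm_deriv_le_of_forall_mem_sphere_norm_le`), so `‖fderiv ℂ f u‖ ≤ sup`.
Then `fderiv ℂ f` is differentiable since `E` is finite dimensional: with a basis, an element of
`E →L[ℂ] H` is a linear (continuous) function of its values at the basis vectors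
(`differentiable_pi`, `ContinuousLinearMap` from `Fin n → H` to `E →L[ℂ] H`). -/
def StGO : Prop := ∀ (E H : Type) [NormedAddCommGroup E] [NormedSpace ℂ E] [FiniteDimensional ℂ E]
  [NormedAddCommGroup H] [NormedSpace ℂ H] [CompleteSpace H] (f : E → H),
  Differentiable ℂ f → Differentiable ℂ (fderiv ℂ f)

/-- PI (integral with parameters). PROOF (with GO). `fderiv ℂ D` is continuous (GO). Apply
`intervalIntegral.hasFDerivAt_integral_of_dominated_of_fderiv_le` at `x0 = (z0,b0)` with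
`F' x τ = (fderiv ℂ D (x.1 + τ x.2)) ∘L (fst + τ snd)`, bound = a constant: `(x,τ) ↦ ‖F' x τ‖` is
continuous and so bounded on the compact set `closedBall x0 1 × [0,1]` (`E × E` is a proper
space). All measurability from continuity. -/
def StPI : Prop := ∀ (E H : Type) [NormedAddCommGroup E] [NormedSpace ℂ E] [FiniteDimensional ℂ E]
  [NormedAddCommGroup H] [NormedSpace ℂ H] [CompleteSpace H] (D : E → H),
  Differentiable ℂ D →
    Differentiable ℂ (fun x : E × E => ∫ τ in (0 : ℝ)..1, D (x.1 + (τ : ℂ) • x.2))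

/-- QD. PROOF: PI with `D = fderiv ℂ p` (differentiable by GO). -/
def StQD : Prop := ∀ (B : Type) [NormedAddCommGroup B] [NormedSpace ℂ B] [FiniteDimensional ℂ B]
  (p : B → ℂ), Differentiable ℂ p → Differentiable ℂ (fun x : B × B => qq p x.1 x.2)

/-- QH (Hadamard). PROOF. `qq p z b b = ∫₀¹ dp(z + τ b)(b) dτ` (`ContinuousLinearMap.intervalIntegral_apply`,
integrable because continuous by GO) `= p(z + b) - p(z)` by the fundamental theorem of calculus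
(`intervalIntegral.integral_eq_sub_of_hasDerivAt` for `τ ↦ p(z + (τ:ℂ) • b)`, chain rule). The
value at `b = 0` is the integral of a constant. `qq p (z+b) (-b) = ∫₀¹ dp(z + (1-τ) b) dτ` is
`qq p z b` by the substitution `τ → 1 - τ` (`intervalIntegral.integral_comp_sub_left`). -/
def StQH : Prop := ∀ (B : Type) [NormedAddCommGroup B] [NormedSpace ℂ B] [FiniteDimensional ℂ B]
  (p : B → ℂ), Differentiable ℂ p → (∀ z b, qq p z b b = p (z + b) - p z) ∧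
    (∀ z, qq p z 0 = fderiv ℂ p z) ∧ (∀ z b, qq p (z + b) (-b) = qq p z b)

/-- QE (equivariance of q). PROOF. From `p ∘ R = L ∘ p`, the chain rule gives
`dp(R z) ∘ R = L ∘ dp(z)`; put `z + τ b` for `z`, integrate (evaluate at `c`,
`ContinuousLinearMap.intervalIntegral_apply`, `ContinuousLinearMap.intervalIntegral_comp_comm`;
continuity of `dp` by GO). -/
def StQE : Prop := ∀ (B : Type) [NormedAddCommGroup B] [NormedSpace ℂ B] [FiniteDimensional ℂ B]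
  (p : B → ℂ) (R : B →L[ℂ] B) (L : ℂ →L[ℂ] ℂ), Differentiable ℂ p → (∀ z, p (R z) = L (p z)) →
    ∀ z b c, qq p (R z) (R b) (R c) = L (qq p z b c)

/-- DN (density). PROOF. If `p = 0` on a neighbourhood of `z0` then `fderiv ℂ p z0 = 0`
(`Filter.EventuallyEq.fderiv_eq`, `fderiv_const`) and `p z0 = 0`, against the hypothesis. -/
def StDN : Prop := ∀ (E : Type) [NormedAddCommGroup E] [NormedSpace ℂ E]
  (p : E → ℂ), (∀ z, p z = 0 → fderiv ℂ p z ≠ 0) → Dense {z : E | p z ≠ 0}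

/-- IF (implicit function). PROOF. `Ψ(z,ζ) = (z, p(z + ζ e))` on `E × ℂ` is `C¹` over `ℂ`
(`contDiff_one_iff_fderiv` and GO), with derivative at `(z0,0)`
`(dz,dζ) ↦ (dz, dp(z0)(dz) + dζ)`, which is a continuous linear equivalence. Local inverse
`Φ` (`ContDiffAt.to_localInverse`, `HasStrictFDerivAt.eventually_right_inverse`): `Ψ(Φ(z,s)) = (z,s)`
near `(z0,0)`, `Φ` is `ContDiffAt ℂ 1` there, so `C¹` on a neighbourhood (`ContDiffAt.eventually`).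
Put `ζ(z) = (Φ(z,0)).2`. -/
def StIF : Prop := ∀ (E : Type) [NormedAddCommGroup E] [NormedSpace ℂ E] [FiniteDimensional ℂ E]
  (p : E → ℂ) (z0 e : E), Differentiable ℂ p → p z0 = 0 → fderiv ℂ p z0 e = 1 →
    ∃ ζ : E → ℂ, ζ z0 = 0 ∧ ∀ᶠ z in 𝓝 z0, DifferentiableAt ℂ ζ z ∧ p (z + ζ z • e) = 0

/-- LD (local division). PROOF (with IF, QD, QH). Choose `e` with `dp(z0)(e) = 1`, `ζ` from IF.
`f(z + ζ e) = 0` by hypothesis, so by QH (for `b = ζ(z) • e`) `f(z) = -ζ(z) qq f z (ζ e) e` and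
`p(z) = -ζ(z) qq p z (ζ e) e`. `z ↦ qq p z (ζ(z) e) e` is differentiable near `z0` (QD, chain
rule) and `1` at `z0` (QH), so nonzero near `z0`; `b(z) = qq f z (ζ e) e / qq p z (ζ e) e`.
(Continuity of `qq p` at `z0` and of `ζ` gives the nonvanishing near `z0`.) -/
def StLD : Prop := ∀ (E : Type) [NormedAddCommGroup E] [NormedSpace ℂ E] [FiniteDimensional ℂ E]
  (p f : E → ℂ), Differentiable ℂ p → Differentiable ℂ f → (∀ z, p z = 0 → f z = 0) →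
    ∀ z0, p z0 = 0 → fderiv ℂ p z0 ≠ 0 →
      ∃ b : E → ℂ, ∀ᶠ z in 𝓝 z0, DifferentiableAt ℂ b z ∧ f z = b z * p z

/-- GD (global division). PROOF (with LD, DN). For `p z ≠ 0` put `a z = f z / p z`, for `p z0 = 0`
put `a z0 = b_{z0}(z0)`, `b_{z0}` from LD. Claim: `a = b_{z0}` near `z0` if `p z0 = 0`: at `z` near
`z0` with `p z ≠ 0` both are `f z / p z`; at `z` near `z0` with `p z = 0` the functions `b_z` and
`b_{z0}` are continuous at `z` and agree at the points near `z` with `p ≠ 0`, which are dense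
(DN), so `a z = b_z(z) = b_{z0}(z)`. So `a` is differentiable at `z0`; near a point with `p ≠ 0`
it is `f/p`. And `f = a p` everywhere. -/
def StGD : Prop := ∀ (E : Type) [NormedAddCommGroup E] [NormedSpace ℂ E] [FiniteDimensional ℂ E]
  (p f : E → ℂ), Differentiable ℂ p → Differentiable ℂ f →
    (∀ z, p z = 0 → fderiv ℂ p z ≠ 0) → (∀ z, p z = 0 → f z = 0) →
      ∃ a : E → ℂ, Differentiable ℂ a ∧ ∀ z, f z = a z * p z

/-! ### Part 2: sprays in general -/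

/-- CC (composition). PROOF. `s(y,(w1,w2)) = s2(s1(y,w1),w2)` on `W1 × W2` with `σ1.prod σ2`. All
fields of `Spray` are immediate. For `y` with `F y = 0`, the derivative of `(w1,w2) ↦ s(y,(w1,w2))`
at `0` at the vector `(u,0)` is the derivative of `w1 ↦ s(y,(w1,0)) = s1(y,w1)` (as `F(s1(y,w1)) = 0`),
and at `(0,u)` the derivative of `w2 ↦ s2(s1(y,0),w2) = s2(y,w2)` (compose with the linear maps
`u ↦ (u,0)`, `u ↦ (0,u)`, chain rule `fderiv_comp`). So the range, the image of a linear map,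
is a subspace which contains `R1 y` and `R2 y`, hence their span. -/
def StCC : Prop := ∀ (𝔤 : Type) [NormedAddCommGroup 𝔤] [NormedSpace ℂ 𝔤]
  (G : Type) [TopologicalSpace G] [ChartedSpace 𝔤 G] [Group G]
  (V : Type) [NormedAddCommGroup V] [NormedSpace ℂ V] (ρ : GMod 𝔤 G V) (F : V → ℂ)
  (R1 R2 : V → Set V), Covers ρ F R1 → Covers ρ F R2 →
    Covers ρ F (fun y => (Submodule.span ℂ (R1 y ∪ R2 y) : Set V))

/-- CF (finitely many). PROOF (with CC): induction on `n`; `n = 0`: `W = PUnit` (or `Fin 0 → ℂ`),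
trivial module, `s(y,w) = y`, the union is empty. Step: CC for the first `n` and the last. -/
def StCF : Prop := ∀ (𝔤 : Type) [NormedAddCommGroup 𝔤] [NormedSpace ℂ 𝔤]
  (G : Type) [TopologicalSpace G] [ChartedSpace 𝔤 G] [Group G]
  (V : Type) [NormedAddCommGroup V] [NormedSpace ℂ V] (ρ : GMod 𝔤 G V) (F : V → ℂ)
  (n : ℕ) (R : Fin n → V → Set V), (∀ j, Covers ρ F (R j)) →
    Covers ρ F (fun y => ⋃ j, R j y)

/-- CJ (conjugation by an automorphism). PROOF. `s'(y,w) = ψ(s(φ y,w))`, same module. `F(φ y) = F y`,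
so `F(ψ u) = F(φ(ψ u)) = F u`; `ψ` is equivariant: `ψ(g u) = ψ(g φ(ψ u)) = ψ(φ(g ψ u)) = g ψ u`.
Range: if `dφ(y) τ = D_w s(φ y,0) w`, then the derivative of `w ↦ ψ(s(φ y,w))` at `0` at `w` is
`dψ(φ y)(dφ(y) τ) = τ` (chain rule, `ψ ∘ φ = id`, `s(φ y,0) = φ y`). -/
def StCJ : Prop := ∀ (𝔤 : Type) [NormedAddCommGroup 𝔤] [NormedSpace ℂ 𝔤]
  (G : Type) [TopologicalSpace G] [ChartedSpace 𝔤 G] [Group G]
  (V : Type) [NormedAddCommGroup V] [NormedSpace ℂ V] (ρ : GMod 𝔤 G V) (F : V → ℂ)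
  (φ ψ : V → V), Differentiable ℂ φ → Differentiable ℂ ψ → (∀ y, ψ (φ y) = y) →
    (∀ y, φ (ψ y) = y) → (∀ y, F (φ y) = F y) → (∀ g y, φ (ρ.act g y) = ρ.act g (φ y)) →
    ∀ R : V → Set V, Covers ρ F R → Covers ρ F (fun y => {τ | fderiv ℂ φ y τ ∈ R (φ y)})

/-! ### Part 3: the sprays of the suspension -/

/-- FD (derivative of F). PROOF: product rule (`ξ(x)` is a bounded bilinear map of `(x,ξ)`) and the
chain rule. -/
def StFD : Prop := ∀ (M B : Type) [NormedAddCommGroup M] [NormedSpace ℂ M]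
  [NormedAddCommGroup B] [NormedSpace ℂ B] (p : B → ℂ), Differentiable ℂ p →
    Differentiable ℂ (susp (M := M) p) ∧
    ∀ (y τ : M × (M →L[ℂ] ℂ) × B), fderiv ℂ (susp (M := M) p) y τ
      = y.2.1 τ.1 + τ.2.1 y.1 - fderiv ℂ p y.2.2 τ.2.2

/-- SG (spray of GL(M)). PROOF. `W = M →L[ℂ] M` with `ρM.hom ρM`, `s((x,ξ,z),A) = (e^A x, ξ ∘ e^{-A}, z)`
(`NormedSpace.exp`). `F` is preserved as `e^{-A} e^A = 1`. Equivariance:
`exp (g A g⁻¹) = g exp(A) g⁻¹` (`NormedSpace.exp_units_conj` or `map_exp` for the algebra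
automorphism, or the series). Entire: `NormedSpace.exp_analytic`, continuous bilinear maps.
Derivative at `A = 0`: `hasFDerivAt_exp_zero`. -/
def StSG : Prop := ∀ (𝔤 : Type) [NormedAddCommGroup 𝔤] [NormedSpace ℂ 𝔤]
  (G : Type) [TopologicalSpace G] [ChartedSpace 𝔤 G] [Group G] [LieGroup 𝓘(ℂ, 𝔤) ω G]
  (M B : Type) [NormedAddCommGroup M] [NormedSpace ℂ M] [FiniteDimensional ℂ M]
  [NormedAddCommGroup B] [NormedSpace ℂ B] [FiniteDimensional ℂ B]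
  (ρM : GMod 𝔤 G M) (ρL : GMod 𝔤 G ℂ) (ρB : GMod 𝔤 G B) (p : B → ℂ), Differentiable ℂ p →
    Covers (suspMod ρM ρL ρB) (susp p)
      (fun y => {τ | ∃ A : M →L[ℂ] M, τ = (A y.1, -(y.2.1.comp A), 0)})

/-- SP (first shear). PROOF (with QD, QH, QE). `W = M →L[ℂ] B` with `ρM.hom ρB`,
`s((x,ξ,z),t) = (x, ξ + (qq p z (t x)) ∘ t, z + t x)`. `F` is preserved:
`qq p z (t x) (t x) = p(z + t x) - p z`. Equivariance: for `g`, `t' = g t g⁻¹`, `t'(g x) = g (t x)`,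
and `qq p (g z) (g t x) (g t g⁻¹ m) = L(g) (qq p z (t x) (t g⁻¹ m))` (QE). Entire: QD. At `t = 0`
the derivative in `t` is `t ↦ (0, dp(z) ∘ t, t x)`: `(qq p z (t x)) ∘ t` is a product with one factor
`t` vanishing at `0`, the other is `qq p z 0 = dp(z)`. -/
def StSP : Prop := ∀ (𝔤 : Type) [NormedAddCommGroup 𝔤] [NormedSpace ℂ 𝔤]
  (G : Type) [TopologicalSpace G] [ChartedSpace 𝔤 G] [Group G] [LieGroup 𝓘(ℂ, 𝔤) ω G]
  (M B : Type) [NormedAddCommGroup M] [NormedSpace ℂ M] [FiniteDimensional ℂ M]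
  [NormedAddCommGroup B] [NormedSpace ℂ B] [FiniteDimensional ℂ B]
  (ρM : GMod 𝔤 G M) (ρL : GMod 𝔤 G ℂ) (ρB : GMod 𝔤 G B) (p : B → ℂ), Differentiable ℂ p →
    (∀ g z, p (ρB.act g z) = ρL.act g (p z)) →
    Covers (suspMod ρM ρL ρB) (susp p)
      (fun y => {τ | ∃ t : M →L[ℂ] B, τ = (0, (fderiv ℂ p y.2.2).comp t, t y.1)})

/-- BD (bidual). PROOF. `x ↦ (ξ ↦ ξ x)` is an injective linear map of `M` to its bidual
(`(M →L[ℂ] ℂ) →L[ℂ] ℂ`), the dimensions are equal and finite; take the inverse (continuous as the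
spaces are finite dimensional; `LinearEquiv.toContinuousLinearEquiv`). -/
def StBD : Prop := ∀ (M : Type) [NormedAddCommGroup M] [NormedSpace ℂ M] [FiniteDimensional ℂ M],
  ∃ J : ((M →L[ℂ] ℂ) →L[ℂ] ℂ) →L[ℂ] M, ∀ (Θ : (M →L[ℂ] ℂ) →L[ℂ] ℂ) (ξ : M →L[ℂ] ℂ), ξ (J Θ) = Θ ξ

/-- SM (second shear). PROOF (with QD, QH, QE, BD). `W = (M →L[ℂ] ℂ) →L[ℂ] B` with
`(ρM.hom ρL).hom ρB`, `s((x,ξ,z),t) = (x + J((qq p z (t ξ)) ∘ t), ξ, z + t ξ)`. `F` is preserved: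
`ξ(J(...)) = qq p z (t ξ) (t ξ) = p(z + t ξ) - p z`. Equivariance: for `t' = g t g⁻¹`, `ξ' = g ξ`,
`η := J((qq p z (t ξ)) ∘ t)`, `η' := J((qq p (g z) (t' ξ')) ∘ t')`: for every `ζ` in `M^*`,
`ζ(η') = qq p (g z) (g t ξ) (g t g⁻¹ ζ) = L(g) (qq p z (t ξ) (t (g⁻¹ ζ))) = L(g) ((g⁻¹ ζ)(η)) =
L(g) (L(g⁻¹) (ζ(g η))) = ζ(g η)`, and functionals separate points (`η' = g η`). The derivative in `t`
at `0` is `t ↦ (J(dp(z) ∘ t), 0, t ξ)`; given `τ = (m,0,t ξ)` of the set, `m = J(dp(z) ∘ t)`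
because functionals separate points. -/
def StSM : Prop := ∀ (𝔤 : Type) [NormedAddCommGroup 𝔤] [NormedSpace ℂ 𝔤]
  (G : Type) [TopologicalSpace G] [ChartedSpace 𝔤 G] [Group G] [LieGroup 𝓘(ℂ, 𝔤) ω G]
  (M B : Type) [NormedAddCommGroup M] [NormedSpace ℂ M] [FiniteDimensional ℂ M]
  [NormedAddCommGroup B] [NormedSpace ℂ B] [FiniteDimensional ℂ B]
  (ρM : GMod 𝔤 G M) (ρL : GMod 𝔤 G ℂ) (ρB : GMod 𝔤 G B) (p : B → ℂ), Differentiable ℂ p →
    (∀ g z, p (ρB.act g z) = ρL.act g (p z)) →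
    Covers (suspMod ρM ρL ρB) (susp p)
      (fun y => {τ | ∃ (t : (M →L[ℂ] ℂ) →L[ℂ] B) (m : M),
        (∀ ξ : M →L[ℂ] ℂ, ξ m = fderiv ℂ p y.2.2 (t ξ)) ∧ τ = (m, 0, t y.2.1)})

/-- SZ (lift of a spray of `C0 = {p = 0}`). PROOF (with GD, DN). Let `Z` be the dominating spray of
`C0` on `W`. Replace it by `Z1(z,w) = Z(z,w) - Z(z,0) + z`: entire, equivariant (`g 0 = 0`), equal to
`Z` for `z` in `C0`, `Z1(z,0) = z` for all `z`. The function `(z,w) ↦ p(Z1(z,w))` vanishes where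
`p(z) = 0`; by GD on `B × W` for the function `(z,w) ↦ p z` (its differential is `dp(z) ∘ fst ≠ 0`
where `p z = 0`) there is an entire `a` with `p(Z1(z,w)) = a(z,w) p(z)`. The set where `p(z) ≠ 0` is
dense in `B × W` (DN) and there `a(z,0) = 1` and `a(g z,g w) = a(z,w)` (`p(g z) = L(g) p(z) ≠ 0`:
`a(g z,g w) p(g z) = p(g Z1) = L(g) p(Z1) = L(g)(a p(z)) = a(z,w) p(g z)`, `L(g)` being linear on
`ℂ` and injective), so both hold everywhere by continuity (for `a(z,0)=1` use density in `B`).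
Spray on `W`: `s((x,ξ,z),w) = (a(z,w) x, ξ, Z1(z,w))`; `ξ(a x) - p(Z1) = a (ξ(x) - p(z)) = 0`
on `Y`. At `x = 0`, `ξ = 0`, `p(z) = 0` and `dp(z) b = 0` take `w` with `D_w Z(z,0) w = b`: the
derivative of `w ↦ (a(z,w) 0, 0, Z1(z,w))` at `0` at `w` is `(0,0,b)`. (At other points the set is
empty.) -/
def StSZ : Prop := ∀ (𝔤 : Type) [NormedAddCommGroup 𝔤] [NormedSpace ℂ 𝔤]
  (G : Type) [TopologicalSpace G] [ChartedSpace 𝔤 G] [Group G] [LieGroup 𝓘(ℂ, 𝔤) ω G]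
  (M B : Type) [NormedAddCommGroup M] [NormedSpace ℂ M] [FiniteDimensional ℂ M]
  [NormedAddCommGroup B] [NormedSpace ℂ B] [FiniteDimensional ℂ B]
  (ρM : GMod 𝔤 G M) (ρL : GMod 𝔤 G ℂ) (ρB : GMod 𝔤 G B) (p : B → ℂ), Differentiable ℂ p →
    (∀ z, p z = 0 → fderiv ℂ p z ≠ 0) →
    (∀ g z, p (ρB.act g z) = ρL.act g (p z)) → GElliptic ρB p →
    Covers (suspMod ρM ρL ρB) (susp p)
      (fun y => {τ | ∃ b : B, y.1 = 0 ∧ y.2.1 = 0 ∧ fderiv ℂ p y.2.2 b = 0 ∧ τ = (0, 0, b)})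

/-- LA (linear algebra off `x = ξ = 0`). Here `α = dp(z)`; the hypothesis `h0` says that `α ≠ 0` if
`x = 0` or `ξ = 0` (then `p(z) = ξ(x) = 0`). PROOF. Let `ξ(dx) + dξ(x) = α(dz)`.
Case `x ≠ 0`, `ξ ≠ 0`: `f` in `M^*` with `f(x) = 1` (`exists_dual_vector`-like, or
`exists_continuousLinearMap...`; `SeparatingDual.exists_eq_one`), `t = f ⊗ dz`
(`f.smulRight dz`), `t(x) = dz`: subtract `(0, α ∘ t, t x)`; remains `(dx, dξ', 0)` with
`ξ(dx) + dξ'(x) = 0`. Take `m0` with `ξ(m0) = 1`, `A m = f(m) dx - dξ'(m) m0 + dξ'(x) f(m) m0`: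
`A x = dx` and `ξ(A m) = f(m)(ξ(dx) + dξ'(x)) - dξ'(m) = -dξ'(m)`, so `-(ξ ∘ A) = dξ'`.
Case `x ≠ 0`, `ξ = 0`: `α(b) = 1`; `t(m) = f(m) dz + (dξ(m) - f(m) dξ(x)) b`: `t(x) = dz`,
`α(t m) = dξ(m)` as `α(dz) = dξ(x)`. Remains `(dx,0,0)`: `A = f ⊗ dx`.
Case `x = 0`, `ξ ≠ 0`: now `ξ(dx) = α(dz)`. Choose `m0` with `ξ(m0) = 1`, evaluation at `m0` is the
functional `F0` on `M^*` with `F0(ξ) = 1`. `t(ζ) = ζ(m0) dz + (ζ(dx) - ζ(m0) ξ(dx)) b`: `t(ξ) = dz`,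
`α(t ζ) = ζ(m0) α(dz) + ζ(dx) - ζ(m0) ξ(dx) = ζ(dx)`, so `(dx, 0, dz)` is in the third set with
`m = dx`. Remains `(0,dξ,0)`: `A m = -dξ(m) m0`, `A x = 0`, `-(ξ ∘ A) = dξ`. -/
def StLA : Prop := ∀ (M B : Type) [NormedAddCommGroup M] [NormedSpace ℂ M]
  [FiniteDimensional ℂ M] [NormedAddCommGroup B] [NormedSpace ℂ B] (α : B →L[ℂ] ℂ) (x : M)
  (ξ : M →L[ℂ] ℂ), (x ≠ 0 ∨ ξ ≠ 0) → (x = 0 ∨ ξ = 0 → α ≠ 0) →
    ∀ (τ : M × (M →L[ℂ] ℂ) × B), ξ τ.1 + τ.2.1 x - α τ.2.2 = 0 →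
      τ ∈ Submodule.span ℂ (
        ({τ | ∃ A : M →L[ℂ] M, τ = (A x, -(ξ.comp A), 0)} : Set (M × (M →L[ℂ] ℂ) × B)) ∪
        {τ | ∃ t : M →L[ℂ] B, τ = (0, α.comp t, t x)} ∪
        {τ | ∃ (t : (M →L[ℂ] ℂ) →L[ℂ] B) (m : M), (∀ ζ : M →L[ℂ] ℂ, ζ m = α (t ζ)) ∧
          τ = (m, 0, t ξ)})

/-- BA (base spray). PROOF (with SG, SP, SM, CC, LA, FD): the composite of the three sprays. For
`y = (x,ξ,z)` with `F y = 0` and `(x,ξ) ≠ (0,0)` apply LA with `α = dp(z)`: if `x = 0` or `ξ = 0` then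
`p(z) = ξ(x) = 0`, so `α ≠ 0`. (`Covers` is monotone in `R`: by definition; spans of spans are
absorbed: `Submodule.span_le`, `Submodule.span_mono`.) -/
def StBA : Prop := ∀ (𝔤 : Type) [NormedAddCommGroup 𝔤] [NormedSpace ℂ 𝔤]
  (G : Type) [TopologicalSpace G] [ChartedSpace 𝔤 G] [Group G] [LieGroup 𝓘(ℂ, 𝔤) ω G]
  (M B : Type) [NormedAddCommGroup M] [NormedSpace ℂ M] [FiniteDimensional ℂ M]
  [NormedAddCommGroup B] [NormedSpace ℂ B] [FiniteDimensional ℂ B]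
  (ρM : GMod 𝔤 G M) (ρL : GMod 𝔤 G ℂ) (ρB : GMod 𝔤 G B) (p : B → ℂ), Differentiable ℂ p →
    (∀ z, p z = 0 → fderiv ℂ p z ≠ 0) →
    (∀ g z, p (ρB.act g z) = ρL.act g (p z)) →
    Covers (suspMod ρM ρL ρB) (susp p)
      (fun y => {τ | (y.1 ≠ 0 ∨ y.2.1 ≠ 0) ∧ fderiv ℂ (susp p) y τ = 0})

/-- AA (part A, the transfer theorem). PROOF (with BA, SZ, SP, SM, CC, FD, BD). Composite of the
sprays BA, SZ, SP, SM (CC three times). At `y` in `Y` with `(x,ξ) ≠ 0` BA is enough. At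
`y = (0,0,z)`: `p(z) = 0`, `τ = (dx,dξ,dz)` with `dp(z) dz = 0` (FD). `(0,0,dz)` is covered by SZ. With
`b`, `dp(z) b = 1`: `(0,dξ,0)` is covered by SP with `t(m) = dξ(m) b` (`t 0 = 0`), and `(dx,0,0)` by SM
with `t(ζ) = ζ(dx) b`, `m = dx`. Sum of the three, the span contains it. -/
def StAA : Prop := ∀ (𝔤 : Type) [NormedAddCommGroup 𝔤] [NormedSpace ℂ 𝔤]
  (G : Type) [TopologicalSpace G] [ChartedSpace 𝔤 G] [Group G] [LieGroup 𝓘(ℂ, 𝔤) ω G]
  (M B : Type) [NormedAddCommGroup M] [NormedSpace ℂ M] [FiniteDimensional ℂ M]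
  [NormedAddCommGroup B] [NormedSpace ℂ B] [FiniteDimensional ℂ B]
  (ρM : GMod 𝔤 G M) (ρL : GMod 𝔤 G ℂ) (ρB : GMod 𝔤 G B) (p : B → ℂ), Differentiable ℂ p →
    (∀ z, p z = 0 → fderiv ℂ p z ≠ 0) →
    (∀ g z, p (ρB.act g z) = ρL.act g (p z)) → GElliptic ρB p →
    GElliptic (suspMod ρM ρL ρB) (susp p)

/-- PH (the automorphism φ_b, `x0` a fixed vector, trivial action on `B`). PROOF (with QD, QH).
`φ_b(x,ξ,z) = (x + (qq p z (ξ(x0) b) b) x0, ξ, z + ξ(x0) b)`, `ψ = φ_{-b}`. Entire by QD. `F ∘ φ_b = F`: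
`ξ(x0) qq p z (ξ(x0) b) b = qq p z (ξ(x0) b) (ξ(x0) b) = p(z + ξ(x0) b) - p(z)` (QH). Inverse: by
`qq p (z + c) (-c) = qq p z c` with `c = ξ(x0) b`. Equivariance: `(g ξ)(x0) = ξ(g⁻¹ x0) = ξ(x0)`,
`g x0 = x0`. `φ_b(0,0,z) = ((dp(z) b) x0, 0, z)` (QH at `b = 0`). -/
def StPH : Prop := ∀ (𝔤 : Type) [NormedAddCommGroup 𝔤] [NormedSpace ℂ 𝔤]
  (G : Type) [TopologicalSpace G] [ChartedSpace 𝔤 G] [Group G] [LieGroup 𝓘(ℂ, 𝔤) ω G]
  (M B : Type) [NormedAddCommGroup M] [NormedSpace ℂ M] [FiniteDimensional ℂ M]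
  [NormedAddCommGroup B] [NormedSpace ℂ B] [FiniteDimensional ℂ B]
  (ρM : GMod 𝔤 G M) (p : B → ℂ), Differentiable ℂ p →
    ∀ (x0 : M), (∀ g, ρM.act g x0 = x0) → ∀ b : B,
    ∃ φ ψ : M × (M →L[ℂ] ℂ) × B → M × (M →L[ℂ] ℂ) × B, Differentiable ℂ φ ∧ Differentiable ℂ ψ ∧
      (∀ y, ψ (φ y) = y) ∧ (∀ y, φ (ψ y) = y) ∧ (∀ y, susp p (φ y) = susp p y) ∧
      (∀ g y, φ ((suspMod ρM (GMod.triv ℂ) (GMod.triv B)).act g y)
        = (suspMod ρM (GMod.triv ℂ) (GMod.triv B)).act g (φ y)) ∧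
      ∀ z, φ (0, 0, z) = ((fderiv ℂ p z b) • x0, 0, z)

/-- OF (part 1: a fixed vector makes Y G-elliptic). PROOF (with PH, CJ, CF, CC, BA, FD). Let
`b_1..b_n` be a basis of `B`, `φ_j` from PH for `x0` and `b_j`. CJ and CF: the conjugates of the base
spray BA by the `φ_j`, and BA itself (CC). At `y` in `Y` with `(x,ξ) ≠ 0` BA is enough. At
`y = (0,0,z)` in `Y`: `dp(z) ≠ 0`, so `dp(z) b_j ≠ 0` for some `j`, `φ_j(y) = ((dp(z) b_j) x0, 0, z)` has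
first component `≠ 0`, and for `τ` in the kernel of `dF(y)`, `dF(φ_j y)(dφ_j(y) τ) = d(F ∘ φ_j)(y) τ =
dF(y) τ = 0`, so `dφ_j(y) τ` is in the set of BA at `φ_j(y)`. -/
def StOF : Prop := ∀ (𝔤 : Type) [NormedAddCommGroup 𝔤] [NormedSpace ℂ 𝔤]
  (G : Type) [TopologicalSpace G] [ChartedSpace 𝔤 G] [Group G] [LieGroup 𝓘(ℂ, 𝔤) ω G]
  (M B : Type) [NormedAddCommGroup M] [NormedSpace ℂ M] [FiniteDimensional ℂ M]
  [NormedAddCommGroup B] [NormedSpace ℂ B] [FiniteDimensional ℂ B]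
  (ρM : GMod 𝔤 G M) (p : B → ℂ), Differentiable ℂ p → (∀ z, p z = 0 → fderiv ℂ p z ≠ 0) →
    ∀ (x0 : M), x0 ≠ 0 → (∀ g, ρM.act g x0 = x0) →
      GElliptic (suspMod ρM (GMod.triv ℂ) (GMod.triv B)) (susp p)

/-! ### Part 4: fixed points -/

/-- AV (averaging over a compact subgroup). PROOF. `K` is a compact topological group (subgroup of
the topological group `G`: `topologicalGroup_of_lieGroup 𝓘(ℂ, 𝔤) ω`), `μ` = its Haar probability
measure for the Borel sets (`MeasureTheory.Measure.haarMeasure ⊤`, or a normalised `haar`).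
`k ↦ σ.act k` is continuous (`σ.hol.continuous`) so integrable. `P = ∫_K σ.act k dμ(k)` in
`W →L[ℂ] W`. `σ.act k0 ∘ P = P`: `ContinuousLinearMap.integral_comp_comm` and left invariance
(`MeasureTheory.integral_mul_left_eq_self`). `T (P w) = ∫ T (σ.act k w) dμ = ∫ v dμ = v`. -/
def StAV : Prop := ∀ (𝔤 : Type) [NormedAddCommGroup 𝔤] [NormedSpace ℂ 𝔤]
  (G : Type) [TopologicalSpace G] [ChartedSpace 𝔤 G] [Group G] [LieGroup 𝓘(ℂ, 𝔤) ω G]
  (K : Subgroup G), IsCompact (K : Set G) →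
  ∀ (W : Type) [NormedAddCommGroup W] [NormedSpace ℂ W] [FiniteDimensional ℂ W]
    (σ : GMod 𝔤 G W), ∃ P : W →L[ℂ] W, (∀ k ∈ K, ∀ w, σ.act k (P w) = P w) ∧
      ∀ (V : Type) [NormedAddCommGroup V] [NormedSpace ℂ V] [FiniteDimensional ℂ V]
        (T : W →L[ℂ] V) (w : W) (v : V), (∀ k ∈ K, T (σ.act k w) = v) → T (P w) = v

/-- KF (K-fixed vectors are G-fixed). PROOF. For a continuous functional `ℓ` the function
`g ↦ ℓ(ρ(g) v - v)` is holomorphic on `G` and vanishes on `K`, so it is zero; functionals separate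
points. -/
def StKF : Prop := ∀ (𝔤 : Type) [NormedAddCommGroup 𝔤] [NormedSpace ℂ 𝔤]
  (G : Type) [TopologicalSpace G] [ChartedSpace 𝔤 G] [Group G] [LieGroup 𝓘(ℂ, 𝔤) ω G]
  (K : Subgroup G), IsCompactForm 𝔤 K →
  ∀ (V : Type) [NormedAddCommGroup V] [NormedSpace ℂ V] [FiniteDimensional ℂ V]
    (ρ : GMod 𝔤 G V) (v : V), (∀ k ∈ K, ρ.act k v = v) → v ∈ ρ.fixed

/-- ON (the fixed locus of a G-elliptic hypersurface is elliptic). PROOF (with AV, KF). `s` on `W` the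
dominating spray, `P` from AV for `W`, `PV` from AV for `V`. `PV v` is in `V^G` for all `v` (KF), and
`PV v = v` for `v` in `V^G` (AV with `T = id`). For `v` in `V^G` and `w` in `W`:
`k s(v,P w) = s(k v,k P w) = s(v,P w)`, so `s(v,P w)` is in `V^G`. The spray on `V^G`:
`s'(v,w) = PV(s(v,P w))` (codRestrict of `PV` to `V^G`), which is `s(v,P w)`. It is entire;
`s'(v,0) = v` and `F(s'(v,w)) = 0` if `F v = 0`. Domination: `F v = 0`, `τ` in `V^G` with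
`d(F|V^G)(v) τ = dF(v) τ = 0`; `w` with `T w = τ`, `T = D_w s(v,0)`; `T(σ(k) w) = ρ(k) T w = τ` (the
derivative at `0` of `w ↦ s(v,σ(k) w) = ρ(k) s(v,w)`), so `T(P w) = τ` by AV. Chain rule. -/
def StON : Prop := ∀ (𝔤 : Type) [NormedAddCommGroup 𝔤] [NormedSpace ℂ 𝔤]
  (G : Type) [TopologicalSpace G] [ChartedSpace 𝔤 G] [Group G] [LieGroup 𝓘(ℂ, 𝔤) ω G]
  (K : Subgroup G), IsCompactForm 𝔤 K →
  ∀ (V : Type) [NormedAddCommGroup V] [NormedSpace ℂ V] [FiniteDimensional ℂ V]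
    (ρ : GMod 𝔤 G V) (F : V → ℂ), Differentiable ℂ F → GElliptic ρ F →
      Elliptic (fun v : ρ.fixed => F v)

/-- FX (fixed points of the suspension if `M^G = 0`). PROOF (with AV, KF). `(x,ξ,z)` fixed means `x`
fixed, so `x = 0`, and `ξ(g⁻¹ m) = ξ(m)`. If `ξ(m) ≠ 0` let `P` be from AV for `M`: `P m` is `K`-fixed,
so `G`-fixed (KF), so `0`; but `ξ(P m) = ξ(m)` by AV (`T = ξ`, `v = ξ(m)`: `ξ(k m) = ξ(m)`). So
`ξ = 0`. Conversely `(0,0,z)` is fixed. -/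
def StFX : Prop := ∀ (𝔤 : Type) [NormedAddCommGroup 𝔤] [NormedSpace ℂ 𝔤]
  (G : Type) [TopologicalSpace G] [ChartedSpace 𝔤 G] [Group G] [LieGroup 𝓘(ℂ, 𝔤) ω G]
  (K : Subgroup G), IsCompactForm 𝔤 K →
  ∀ (M B : Type) [NormedAddCommGroup M] [NormedSpace ℂ M] [FiniteDimensional ℂ M]
    [NormedAddCommGroup B] [NormedSpace ℂ B] (ρM : GMod 𝔤 G M),
    (∀ x, (∀ g, ρM.act g x = x) → x = 0) → ∀ y : M × (M →L[ℂ] ℂ) × B,
      y ∈ (suspMod ρM (GMod.triv ℂ) (GMod.triv B)).fixed ↔ y.1 = 0 ∧ y.2.1 = 0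

/-- EP (transfer of ellipticity from the fixed locus to `C0` if `M^G = 0`). PROOF (with FX, FD).
`ι : B → V^G`, `z ↦ (0,0,z)` is a continuous linear bijection with inverse `π` = third component.
`susp p (ι z) = -p z`. From the spray `s` on `W` over `V^G` put `Z(z,w) = π(s(ι z,w))`. Zero set:
`F(ι z) = 0` iff `p z = 0`. `b` with `dp(z) b = 0`: `d(F|V^G)(ι z)(ι b) = -dp(z) b = 0`; `w` with
`D_w s(ι z,0) w = ι b`; apply `π`. -/
def StEP : Prop := ∀ (𝔤 : Type) [NormedAddCommGroup 𝔤] [NormedSpace ℂ 𝔤]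
  (G : Type) [TopologicalSpace G] [ChartedSpace 𝔤 G] [Group G] [LieGroup 𝓘(ℂ, 𝔤) ω G]
  (K : Subgroup G), IsCompactForm 𝔤 K →
  ∀ (M B : Type) [NormedAddCommGroup M] [NormedSpace ℂ M] [FiniteDimensional ℂ M]
    [NormedAddCommGroup B] [NormedSpace ℂ B] [FiniteDimensional ℂ B] (ρM : GMod 𝔤 G M)
    (p : B → ℂ), Differentiable ℂ p → (∀ x, (∀ g, ρM.act g x = x) → x = 0) →
      Elliptic (fun y : (suspMod ρM (GMod.triv ℂ) (GMod.triv B)).fixed =>
        susp p (y : M × (M →L[ℂ] ℂ) × B)) → Elliptic p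

/-- OK (transfer of the Oka property if `M^G = 0`). PROOF (with FX). The fixed points of `Y` are the
points `(0,0,z)` with `p z = 0`. Transport maps by `z ↦ (0,0,z)` and by the third component (both
linear of norm at most one; `‖(0,0,z)‖ = ‖z‖`). -/
def StOK : Prop := ∀ (𝔤 : Type) [NormedAddCommGroup 𝔤] [NormedSpace ℂ 𝔤]
  (G : Type) [TopologicalSpace G] [ChartedSpace 𝔤 G] [Group G] [LieGroup 𝓘(ℂ, 𝔤) ω G]
  (K : Subgroup G), IsCompactForm 𝔤 K →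
  ∀ (M B : Type) [NormedAddCommGroup M] [NormedSpace ℂ M] [FiniteDimensional ℂ M]
    [NormedAddCommGroup B] [NormedSpace ℂ B] (ρM : GMod 𝔤 G M) (p : B → ℂ),
    (∀ x, (∀ g, ρM.act g x = x) → x = 0) →
      (IsOkaSet {y : M × (M →L[ℂ] ℂ) × B | susp p y = 0 ∧
          ∀ g, (suspMod ρM (GMod.triv ℂ) (GMod.triv B)).act g y = y} ↔
        IsOkaSet {z : B | p z = 0})

/-- MA (assembly). PROOF (with AA, OF, ON, EP). `Elliptic p` gives `GElliptic (GMod.triv B) p` with the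
trivial module on `W`. (i) If some `x0 ≠ 0` is fixed: OF. If `Elliptic p`: AA with trivial `ρL`, `ρB`.
(ii) Conversely if Y is G-elliptic, then `Y^G` is elliptic (ON, FD), and if no `x0 ≠ 0` is fixed, EP
gives `Elliptic p`. So G-elliptic iff (fixed vector or `Elliptic p`), and G-elliptic implies that the
fixed locus is elliptic; if the fixed locus is elliptic then either there is a fixed vector or
`Elliptic p` (EP), so G-elliptic. -/
def StMA : Prop := ∀ (𝔤 : Type) [NormedAddCommGroup 𝔤] [NormedSpace ℂ 𝔤]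
  (G : Type) [TopologicalSpace G] [ChartedSpace 𝔤 G] [Group G] [LieGroup 𝓘(ℂ, 𝔤) ω G]
  (K : Subgroup G), IsCompactForm 𝔤 K →
  ∀ (M B : Type) [NormedAddCommGroup M] [NormedSpace ℂ M] [FiniteDimensional ℂ M]
    [NormedAddCommGroup B] [NormedSpace ℂ B] [FiniteDimensional ℂ B] (ρM : GMod 𝔤 G M)
    (p : B → ℂ), Differentiable ℂ p → (∀ z, p z = 0 → fderiv ℂ p z ≠ 0) →
      (GElliptic (suspMod ρM (GMod.triv ℂ) (GMod.triv B)) (susp p) ↔
        Elliptic (fun y : (suspMod ρM (GMod.triv ℂ) (GMod.triv B)).fixed =>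
          susp p (y : M × (M →L[ℂ] ℂ) × B))) ∧
      (GElliptic (suspMod ρM (GMod.triv ℂ) (GMod.triv B)) (susp p) ↔
        ((∃ x : M, x ≠ 0 ∧ ∀ g, ρM.act g x = x) ∨ Elliptic p))

end Pool.Agent.Work.MP_e4a69c_an.SU
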