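import Pool.Agent.Work.MP_e4a69c_an.SU.Defs2
import Pool.Agent.Work.MP_e4a69c_an.SU.Stmts

/-! Items of the second part of theorem SU (MP_e4a69c_an): the criterion for a normal subgroup `N`.
Every docstring is a complete proof. -/

set_option autoImplicit false

namespace Pool.Agent.Work.MP_e4a69c_an.SU

open scoped Manifold ContDiff Topology

/-- TR (transport). PROOF. `s1(v,w) = Φ⁻¹(s2(Φ v,w))`, the same parameter module. `F1 v = c F2(Φ v)`,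
`c ≠ 0`, so the zero sets correspond and `dF1(v) τ = c dF2(Φ v)(Φ τ)` (chain rule for a linear
isomorphism: `ContinuousLinearEquiv.comp_right_fderiv` and `fderiv_const_smul`, no differentiability
needed). The derivative in `w` is composed with `Φ⁻¹`. -/
def StTR : Prop := ∀ (𝔤 : Type) [NormedAddCommGroup 𝔤] [NormedSpace ℂ 𝔤]
  (G : Type) [TopologicalSpace G] [ChartedSpace 𝔤 G] [Group G]
  (V1 V2 : Type) [NormedAddCommGroup V1] [NormedSpace ℂ V1] [NormedAddCommGroup V2]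
  [NormedSpace ℂ V2] (ρ1 : GMod 𝔤 G V1) (ρ2 : GMod 𝔤 G V2) (F1 : V1 → ℂ) (F2 : V2 → ℂ)
  (Φ : V1 ≃L[ℂ] V2) (c : ℂ), c ≠ 0 → (∀ g v, Φ (ρ1.act g v) = ρ2.act g (Φ v)) →
    (∀ v, F1 v = c * F2 (Φ v)) → GElliptic ρ2 F2 → GElliptic ρ1 F1

/-- KN. PROOF: as KF (see SU/I_KF.lean): `g ↦ ℓ(ρ(g) v - v)` is holomorphic and zero on `K`, so zero on
`N`. -/
def StKN : Prop := ∀ (𝔤 : Type) [NormedAddCommGroup 𝔤] [NormedSpace ℂ 𝔤]
  (G : Type) [TopologicalSpace G] [ChartedSpace 𝔤 G] [Group G] [LieGroup 𝓘(ℂ, 𝔤) ω G]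
  (K N : Subgroup G), IsCompactFormOf 𝔤 K N →
  ∀ (V : Type) [NormedAddCommGroup V] [NormedSpace ℂ V] [FiniteDimensional ℂ V]
    (ρ : GMod 𝔤 G V) (v : V), (∀ k ∈ K, ρ.act k v = v) → v ∈ ρ.fixedBy N

/-- AN (equivariant averaging over a normal subgroup). PROOF (with AV, KN). Let `P` be from AV for `W`
and `K`; `P w ∈ W^N` by KN; `P w = w` for `w ∈ W^N` (AV with `T = id`, as `K ≤ N`). Equivariance: let
`A ⊆ W^*` be the set of the continuous functionals `ℓ` with `ℓ(σ(n) w) = ℓ(w)` for all `n ∈ N` and `w`.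
(a) `ℓ(P w) = ℓ(w)` for `ℓ ∈ A` (AV with `T = ℓ`). (b) If `u ∈ W^N` and `ℓ(u) = 0` for all `ℓ ∈ A`, then
`u = 0`: otherwise take `ℓ0` with `ℓ0(u) ≠ 0` and average it: for the module `σ.hom (triv ℂ)` on
`W →L[ℂ] ℂ` let `P'` be from AV; `ℓ = P' ℓ0` is fixed by `K`, so by `N` (KN), i.e. `ℓ ∈ A` (use
`n⁻¹`), and `ℓ(u) = ℓ0(u)` by AV with `T` = evaluation at `u`:
`((σ.hom triv)(k) ℓ0)(u) = ℓ0(σ(k⁻¹) u) = ℓ0(u)`. Contradiction. (c) For `g ∈ G` and `w`: `u = P(σ(g) w) -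
σ(g)(P w)` is in `W^N` (`fixedBy_stable`) and for `ℓ ∈ A`, `ℓ(P(σ(g) w)) = ℓ(σ(g) w)` and
`ℓ ∘ σ(g) ∈ A` (`σ(g) σ(n) = σ(g n g⁻¹) σ(g)`), so `ℓ(σ(g) P w) = ℓ(σ(g) w)`. So `ℓ(u) = 0`, `u = 0`. -/
def StAN : Prop := ∀ (𝔤 : Type) [NormedAddCommGroup 𝔤] [NormedSpace ℂ 𝔤]
  (G : Type) [TopologicalSpace G] [ChartedSpace 𝔤 G] [Group G] [LieGroup 𝓘(ℂ, 𝔤) ω G]
  (K N : Subgroup G) [N.Normal], IsCompactFormOf 𝔤 K N →
  ∀ (W : Type) [NormedAddCommGroup W] [NormedSpace ℂ W] [FiniteDimensional ℂ W]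
    (σ : GMod 𝔤 G W), ∃ P : W →L[ℂ] W, (∀ w, P w ∈ σ.fixedBy N) ∧ (∀ w ∈ σ.fixedBy N, P w = w) ∧
      (∀ g w, P (σ.act g w) = σ.act g (P w)) ∧
      ∀ (V : Type) [NormedAddCommGroup V] [NormedSpace ℂ V] [FiniteDimensional ℂ V]
        (T : W →L[ℂ] V) (w : W) (v : V), (∀ k ∈ K, T (σ.act k w) = v) → T (P w) = v

/-- OG (the fixed locus of N in a G-elliptic hypersurface is G-elliptic). PROOF (with AN): as ON (see
SU/I_ON.lean). `s` on `W` the dominating spray, `P` from AN for `W`, `PV` from AN for `V`. For `v ∈ V^N`,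
`n s(v,P w) = s(n v,n P w) = s(v,P w)`, so `s(v,P w) ∈ V^N`; spray on `V^N` with the same module `σ`:
`s'(v,w) = PV(s(v,P w)) = s(v,P w)` (codRestrict of `PV`). Equivariance: `P` and `s` are equivariant.
Domination: `τ ∈ V^N`, `T w = τ`, `T = D_w s(v,0)`, `T(σ(k) w) = ρ(k)(T w) = τ` for `k ∈ K`, so
`T(P w) = τ`. -/
def StOG : Prop := ∀ (𝔤 : Type) [NormedAddCommGroup 𝔤] [NormedSpace ℂ 𝔤]
  (G : Type) [TopologicalSpace G] [ChartedSpace 𝔤 G] [Group G] [LieGroup 𝓘(ℂ, 𝔤) ω G]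
  (K N : Subgroup G) [N.Normal], IsCompactFormOf 𝔤 K N →
  ∀ (V : Type) [NormedAddCommGroup V] [NormedSpace ℂ V] [FiniteDimensional ℂ V]
    (ρ : GMod 𝔤 G V) (F : V → ℂ), Differentiable ℂ F → GElliptic ρ F →
      GElliptic (ρ.fixedMod N) (fun v : ρ.fixedBy N => F v)

/-- FI (the fixed points of N in the suspension). Here `M0 = M^N`, `ρ0 = ρM.fixedMod N`.
PROOF. `P` a G-equivariant projection of `M` to `M^N` as in AN. An element of `V^N`, `V = M × Hom(M,L) × B`, is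
`(x,ξ,z)` with `x ∈ M^N` and `ξ ∈ Hom(M,L)^N`; as `N` acts trivially on `L`, this means
`ξ(n x') = ξ(x')` for all `x'`, and then `ξ(x') = ξ(P x')` (AN with `T = ξ`). So `Φ : V^N → M0 × Hom(M0,L) × B`,
`(x,ξ,z) ↦ (x, ξ|M0, z)` is bijective with inverse `(x0,ξ0,z) ↦ (x0, ξ0 ∘ P, z)` (it is in `V^N`: `P(n⁻¹ x')
= n⁻¹ P x' = P x'`). It is G-equivariant, `susp p (x,ξ,z) = susp p (Φ (x,ξ,z))`. (Continuous: finite
dimension, or by construction.) -/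
def StFI : Prop := ∀ (𝔤 : Type) [NormedAddCommGroup 𝔤] [NormedSpace ℂ 𝔤]
  (G : Type) [TopologicalSpace G] [ChartedSpace 𝔤 G] [Group G] [LieGroup 𝓘(ℂ, 𝔤) ω G]
  (K N : Subgroup G) [N.Normal], IsCompactFormOf 𝔤 K N →
  ∀ (M B : Type) [NormedAddCommGroup M] [NormedSpace ℂ M] [FiniteDimensional ℂ M]
  [NormedAddCommGroup B] [NormedSpace ℂ B] [FiniteDimensional ℂ B]
  (ρM : GMod 𝔤 G M) (ρL : GMod 𝔤 G ℂ) (ρB : GMod 𝔤 G B) (p : B → ℂ),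
  (∀ n ∈ N, ∀ c, ρL.act n c = c) → (∀ n ∈ N, ∀ z, ρB.act n z = z) →
    ∃ Φ : (suspMod ρM ρL ρB).fixedBy N ≃L[ℂ]
        (ρM.fixedBy N × (ρM.fixedBy N →L[ℂ] ℂ) × B),
      (∀ g v, Φ (((suspMod ρM ρL ρB).fixedMod N).act g v)
        = (suspMod (ρM.fixedMod N) ρL ρB).act g (Φ v)) ∧
      ∀ v : (suspMod ρM ρL ρB).fixedBy N,
        susp p (v : M × (M →L[ℂ] ℂ) × B) = susp p (Φ v)

/-- DE (decomposition). `M0 = M^N`, `M1` a G-stable complement. PROOF. `P` from AN for `M`, `M1 = ker P`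
(G-stable as `P` is equivariant), `ρ1 = ρM.sub M1 _`. `Φ(x,ξ,z) = (x - P x, ξ|M1, (P x, ξ|M0, z))`, inverse
`(x1,ξ1,(x0,ξ0,z)) ↦ (x1 + x0, ξ1 ∘ (1 - P) + ξ0 ∘ P, z)`. Equivariant. `ξ(x) = ξ(x - P x) + ξ(P x)`, so
`susp p (x,ξ,z) = ξ1(x1) - (p(z) - ξ0(x0)) = susp (fun u => -(susp p u)) (Φ (x,ξ,z))`. -/
def StDE : Prop := ∀ (𝔤 : Type) [NormedAddCommGroup 𝔤] [NormedSpace ℂ 𝔤]
  (G : Type) [TopologicalSpace G] [ChartedSpace 𝔤 G] [Group G] [LieGroup 𝓘(ℂ, 𝔤) ω G]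
  (K N : Subgroup G) [N.Normal], IsCompactFormOf 𝔤 K N →
  ∀ (M B : Type) [NormedAddCommGroup M] [NormedSpace ℂ M] [FiniteDimensional ℂ M]
  [NormedAddCommGroup B] [NormedSpace ℂ B] [FiniteDimensional ℂ B]
  (ρM : GMod 𝔤 G M) (ρL : GMod 𝔤 G ℂ) (ρB : GMod 𝔤 G B) (p : B → ℂ),
    ∃ (M1 : Submodule ℂ M) (ρ1 : GMod 𝔤 G M1)
      (Φ : (M × (M →L[ℂ] ℂ) × B) ≃L[ℂ]
        (M1 × (M1 →L[ℂ] ℂ) × (ρM.fixedBy N × (ρM.fixedBy N →L[ℂ] ℂ) × B))),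
      (∀ g v, Φ ((suspMod ρM ρL ρB).act g v)
        = (suspMod ρ1 ρL (suspMod (ρM.fixedMod N) ρL ρB)).act g (Φ v)) ∧
      ∀ v, susp p v = susp (fun u : ρM.fixedBy N × (ρM.fixedBy N →L[ℂ] ℂ) × B => -(susp p u)) (Φ v)

/-- PS (properties of `-susp p`). PROOF (with FD). Entire by FD. If `y = (x,ξ,z)`, `susp p y = 0` and
the derivative at `y` is zero, then by FD `ξ(dx) = 0` for all `dx` (`ξ = 0`), `dξ(x) = 0` for all `dξ`
(`x = 0`), `dp(z) = 0`; but `p(z) = ξ(x) = 0`: contradiction. Equivariance: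
`(g ξ)(g x) = L(g)(ξ(g⁻¹ g x)) = L(g)(ξ x)` and `p(g z) = L(g) p(z)`. -/
def StPS : Prop := ∀ (𝔤 : Type) [NormedAddCommGroup 𝔤] [NormedSpace ℂ 𝔤]
  (G : Type) [TopologicalSpace G] [ChartedSpace 𝔤 G] [Group G] [LieGroup 𝓘(ℂ, 𝔤) ω G]
  (M B : Type) [NormedAddCommGroup M] [NormedSpace ℂ M]
  [NormedAddCommGroup B] [NormedSpace ℂ B]
  (ρM : GMod 𝔤 G M) (ρL : GMod 𝔤 G ℂ) (ρB : GMod 𝔤 G B) (p : B → ℂ), Differentiable ℂ p →
    (∀ z, p z = 0 → fderiv ℂ p z ≠ 0) →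
    (∀ g z, p (ρB.act g z) = ρL.act g (p z)) →
    Differentiable ℂ (fun u : M × (M →L[ℂ] ℂ) × B => -(susp p u)) ∧
    (∀ u : M × (M →L[ℂ] ℂ) × B, -(susp p u) = 0 →
      fderiv ℂ (fun u : M × (M →L[ℂ] ℂ) × B => -(susp p u)) u ≠ 0) ∧
    ∀ g (u : M × (M →L[ℂ] ℂ) × B), -(susp p ((suspMod ρM ρL ρB).act g u))
      = ρL.act g (-(susp p u))

/-- UN (the criterion). PROOF (with OG, FI, DE, PS, TR, AA, FD). The direction from left to right is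
OG (FD). Conversely let the fixed locus be G-elliptic; by TR (for the inverse of `Φ` of FI, `c = -1`)
`GElliptic (suspMod (ρM.fixedMod N) ρL ρB) (fun u => -(susp p u))`. By AA for `ρ1` (from DE), `ρL` and the
base `suspMod (ρM.fixedMod N) ρL ρB` with the function `-(susp p)` (hypotheses by PS) the suspension of it is
G-elliptic, and by TR for `Φ` of DE (`c = 1`) so is `susp p`. -/
def StUN : Prop := ∀ (𝔤 : Type) [NormedAddCommGroup 𝔤] [NormedSpace ℂ 𝔤]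
  (G : Type) [TopologicalSpace G] [ChartedSpace 𝔤 G] [Group G] [LieGroup 𝓘(ℂ, 𝔤) ω G]
  (K N : Subgroup G) [N.Normal], IsCompactFormOf 𝔤 K N →
  ∀ (M B : Type) [NormedAddCommGroup M] [NormedSpace ℂ M] [FiniteDimensional ℂ M]
  [NormedAddCommGroup B] [NormedSpace ℂ B] [FiniteDimensional ℂ B]
  (ρM : GMod 𝔤 G M) (ρL : GMod 𝔤 G ℂ) (ρB : GMod 𝔤 G B) (p : B → ℂ), Differentiable ℂ p →
    (∀ z, p z = 0 → fderiv ℂ p z ≠ 0) →
    (∀ g z, p (ρB.act g z) = ρL.act g (p z)) →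
    (∀ n ∈ N, ∀ c, ρL.act n c = c) → (∀ n ∈ N, ∀ z, ρB.act n z = z) →
      (GElliptic (suspMod ρM ρL ρB) (susp p) ↔
        GElliptic ((suspMod ρM ρL ρB).fixedMod N)
          (fun v : (suspMod ρM ρL ρB).fixedBy N => susp p (v : M × (M →L[ℂ] ℂ) × B)))

end Pool.Agent.Work.MP_e4a69c_an.SU
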